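import Mathlib

set_option autoImplicit false

/-! Laurent polynomials in two variables with a lexicographic leading term. -/

namespace Pool.Agent.H41.Iso

open AddMonoidAlgebra

/-- Exponents: the pair `(m, s)` stands for the monomial `y ^ m * x ^ (-s)`; lexicographic order. -/
abbrev G := Lex (ℤ × ℤ)

/-- The ring of Laurent polynomials in `x`, `y`. -/
abbrev B := AddMonoidAlgebra ℂ G

/-- the exponent `(m, s)` -/
abbrev ex (m s : ℤ) : G := toLex (m, s)

/-- `a` has no terms above `g`. -/
def Bd (a : B) (g : G) : Prop := ∀ h, g < h → a.coeff h = 0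

theorem Bd.mono {a : B} {g h : G} (ha : Bd a g) (hgh : g ≤ h) : Bd a h :=
  fun k hk => ha k (lt_of_le_of_lt hgh hk)

theorem Bd.add {a b : B} {g : G} (ha : Bd a g) (hb : Bd b g) : Bd (a + b) g := by
  intro h hh
  simp [ha h hh, hb h hh]

theorem Bd.smul {a : B} {g : G} (c : ℂ) (ha : Bd a g) : Bd (c • a) g := by
  intro h hh
  simp [ha h hh]

theorem Bd.sum {ι : Type*} (s : Finset ι) (f : ι → B) {g : G} (h : ∀ i ∈ s, Bd (f i) g) :
    Bd (∑ i ∈ s, f i) g := by
  intro k hk
  rw [coeff_sum, Finset.sum_apply']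
  exact Finset.sum_eq_zero fun i hi => h i hi k hk

theorem Bd.le_of_coeff_ne {a : B} {g h : G} (ha : Bd a g) (hh : a.coeff h ≠ 0) : h ≤ g := by
  by_contra hlt
  exact hh (ha h (not_le.mp hlt))

theorem Bd.mul {a b : B} {g h : G} (ha : Bd a g) (hb : Bd b h) : Bd (a * b) (g + h) := by
  classical
  intro k hk
  rw [coeff_mul]
  refine Finset.sum_eq_zero fun m1 hm1 => Finset.sum_eq_zero fun m2 hm2 => ?_
  have h1 := ha.le_of_coeff_ne (Finsupp.mem_support_iff.mp hm1)
  have h2 := hb.le_of_coeff_ne (Finsupp.mem_support_iff.mp hm2)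
  have : m1 + m2 ≠ k := ne_of_lt (lt_of_le_of_lt (add_le_add h1 h2) hk)
  simp [this]

theorem coeff_mul_top {a b : B} {g h : G} (ha : Bd a g) (hb : Bd b h) :
    (a * b).coeff (g + h) = a.coeff g * b.coeff h := by
  classical
  rw [coeff_mul]
  rw [Finsupp.sum, Finset.sum_eq_single g]
  · rw [Finsupp.sum, Finset.sum_eq_single h]
    · simp
    · intro m2 hm2 hne
      have : g + m2 ≠ g + h := by simpa using hne
      simp [this]
    · intro hh
      simp [Finsupp.notMem_support_iff.mp hh]
  · intro m1 hm1 hne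
    have h1 := ha.le_of_coeff_ne (Finsupp.mem_support_iff.mp hm1)
    refine Finset.sum_eq_zero fun m2 hm2 => ?_
    have h2 := hb.le_of_coeff_ne (Finsupp.mem_support_iff.mp hm2)
    have : m1 + m2 ≠ g + h := ne_of_lt (add_lt_add_of_lt_of_le (lt_of_le_of_ne h1 hne) h2)
    simp [this]
  · intro hg
    simp [Finsupp.notMem_support_iff.mp hg]

/-- Every nonzero element has a top exponent. -/
theorem exists_top {a : B} (ha : a ≠ 0) : ∃ g, Bd a g ∧ a.coeff g ≠ 0 := by
  have hs : a.coeff.support.Nonempty := by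
    rw [Finsupp.support_nonempty_iff]
    simpa using ha
  refine ⟨a.coeff.support.max' hs, ?_, ?_⟩
  · intro h hh
    by_contra hne
    exact absurd (Finset.le_max' _ h (Finsupp.mem_support_iff.mpr hne)) (not_le.mpr hh)
  · exact Finsupp.mem_support_iff.mp (Finset.max'_mem _ hs)

theorem top_unique {a : B} {g h : G} (h1 : Bd a g) (h2 : a.coeff g ≠ 0) (h3 : Bd a h)
    (h4 : a.coeff h ≠ 0) : g = h :=
  le_antisymm (h3.le_of_coeff_ne h2) (h1.le_of_coeff_ne h4)

/-- Euler-type operator: multiply the coefficient at `g` by `φ g`. -/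
noncomputable def E (φ : G →+ ℂ) : B →ₗ[ℂ] B where
  toFun a := .ofCoeff (Finsupp.onFinset a.coeff.support (fun g => φ g * a.coeff g) (by
    intro g hg
    rw [Finsupp.mem_support_iff]
    exact right_ne_zero_of_mul hg))
  map_add' a b := by
    ext g
    simp [mul_add]
  map_smul' c a := by
    ext g
    simp
    ring

theorem coeff_E (φ : G →+ ℂ) (a : B) (g : G) : (E φ a).coeff g = φ g * a.coeff g := by
  simp [E]

theorem E_single (φ : G →+ ℂ) (g : G) (r : ℂ) : E φ (single g r) = single g (φ g * r) := by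
  classical
  ext h
  rw [coeff_E]
  simp only [coeff_single, Finsupp.single_apply]
  split_ifs with hh
  · rw [hh]
  · simp

theorem E_mul (φ : G →+ ℂ) (a b : B) : E φ (a * b) = a * E φ b + b * E φ a := by
  induction a using AddMonoidAlgebra.induction_linear with
  | zero => simp
  | add a a' ha ha' => rw [add_mul, map_add, ha, ha', map_add]; ring
  | single g r =>
    induction b using AddMonoidAlgebra.induction_linear with
    | zero => simp
    | add b b' hb hb' => rw [mul_add, map_add, hb, hb', map_add]; ring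
    | single h s =>
      rw [single_mul_single, E_single, E_single, E_single, single_mul_single, single_mul_single,
        add_comm h g, ← single_add]
      congr 1
      rw [map_add]
      ring

theorem E_one (φ : G →+ ℂ) : E φ 1 = 0 := by
  rw [one_def, E_single]
  simp

/-- x-exponent -/
noncomputable def epsx : G →+ ℂ where
  toFun g := -((ofLex g).2 : ℂ)
  map_zero' := by simp
  map_add' g h := by simp; ring

/-- y-exponent -/
noncomputable def epsy : G →+ ℂ where
  toFun g := ((ofLex g).1 : ℂ)
  map_zero' := by simp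
  map_add' g h := by simp

@[simp] theorem epsx_ex (m s : ℤ) : epsx (ex m s) = -(s : ℂ) := rfl
@[simp] theorem epsy_ex (m s : ℤ) : epsy (ex m s) = (m : ℂ) := rfl

theorem ex_add (m s m' s' : ℤ) : ex m s + ex m' s' = ex (m + m') (s + s') := rfl

theorem ex_lt {m s m' s' : ℤ} : ex m s < ex m' s' ↔ m < m' ∨ m = m' ∧ s < s' :=
  Prod.Lex.toLex_lt_toLex

theorem ex_le {m s m' s' : ℤ} : ex m s ≤ ex m' s' ↔ m < m' ∨ m = m' ∧ s ≤ s' :=
  Prod.Lex.toLex_le_toLex

theorem ex_inj {m s m' s' : ℤ} : ex m s = ex m' s' ↔ m = m' ∧ s = s' := by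
  constructor
  · intro h
    have := congrArg ofLex h
    simpa using this
  · rintro ⟨rfl, rfl⟩; rfl

theorem exists_ex (g : G) : ∃ m s, g = ex m s := ⟨(ofLex g).1, (ofLex g).2, rfl⟩

/-- the variable `x` -/
noncomputable def x : B := single (ex 0 (-1)) 1
/-- its inverse -/
noncomputable def xi : B := single (ex 0 1) 1
/-- the variable `y` -/
noncomputable def y : B := single (ex 1 0) 1
/-- its inverse -/
noncomputable def yi : B := single (ex (-1) 0) 1

theorem ex_zero : ex 0 0 = 0 := rfl

theorem x_mul_xi : x * xi = 1 := by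
  rw [x, xi, single_mul_single, ex_add, one_def]
  norm_num [ex_zero]

theorem y_mul_yi : y * yi = 1 := by
  rw [y, yi, single_mul_single, ex_add, one_def]
  norm_num [ex_zero]

theorem Bd_single (g : G) (r : ℂ) : Bd (single g r) g := by
  intro h hh
  simp [ne_of_lt hh]

theorem Ex_x : E epsx x = x := by
  rw [x, E_single]; simp
theorem Ey_x : E epsy x = 0 := by
  rw [x, E_single]; simp
theorem Ex_y : E epsx y = 0 := by
  rw [y, E_single]; simp
theorem Ey_y : E epsy y = y := by
  rw [y, E_single]; simp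

theorem x_ne_zero : x ≠ 0 := by
  rw [x]; simp [single_eq_zero]

theorem y_ne_zero : y ≠ 0 := by
  rw [y]; simp [single_eq_zero]

end Pool.Agent.H41.Iso
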