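import Mathlib
import Pool.Agent.H41.IsoA

set_option autoImplicit false

/-! The algebra generated by `x`, `y` and `v = (y ^ 3 + d - d x - d x y) / x ^ 2`. -/

namespace Pool.Agent.H41.Iso

open AddMonoidAlgebra

/-- constants -/
noncomputable abbrev K (d : ℂ) : B := algebraMap ℂ B d

/-- numerator of `v` -/
noncomputable def fd (d : ℂ) : B := y ^ 3 + K d - K d * x - K d * (x * y)

/-- the function `v` -/
noncomputable def vd (d : ℂ) : B := xi ^ 2 * fd d

theorem x2_mul_vd (d : ℂ) : x ^ 2 * vd d = fd d := by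
  have h := x_mul_xi
  calc x ^ 2 * vd d = (x * xi) ^ 2 * fd d := by rw [vd]; ring
    _ = fd d := by rw [h]; ring

theorem K_eq (d : ℂ) : K d = single 0 d := by
  rw [K, Algebra.algebraMap_eq_smul_one, one_def, smul_single]
  simp

theorem vd_eq (d : ℂ) : vd d =
    single (ex 3 2) 1 + single (ex 0 2) d - single (ex 0 1) d - single (ex 1 1) d := by
  rw [vd, fd, K_eq, x, y, xi]
  simp only [single_pow, single_mul_single, mul_add, mul_sub]
  norm_num [← ex_zero, ex_add]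
  rfl

theorem Bd_x : Bd x (ex 0 (-1)) := Bd_single _ _
theorem Bd_y : Bd y (ex 1 0) := Bd_single _ _
theorem coeff_x : x.coeff (ex 0 (-1)) = 1 := by simp [x]
theorem coeff_y : y.coeff (ex 1 0) = 1 := by simp [y]

theorem Bd.sub {a b : B} {g : G} (ha : Bd a g) (hb : Bd b g) : Bd (a - b) g := by
  intro h hh
  simp [ha h hh, hb h hh]

theorem Bd_vd (d : ℂ) : Bd (vd d) (ex 3 2) := by
  rw [vd_eq]
  refine (((Bd_single _ _).add ((Bd_single _ _).mono ?_)).sub ((Bd_single _ _).mono ?_)).sub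
    ((Bd_single _ _).mono ?_)
  all_goals rw [ex_le]; norm_num

theorem coeff_vd (d : ℂ) : (vd d).coeff (ex 3 2) = 1 := by
  rw [vd_eq]
  simp

theorem Bd_pow {a : B} {m s : ℤ} (ha : Bd a (ex m s)) (hc : a.coeff (ex m s) = 1) (n : ℕ) :
    Bd (a ^ n) (ex (n * m) (n * s)) ∧ (a ^ n).coeff (ex (n * m) (n * s)) = 1 := by
  induction n with
  | zero =>
    have h1 : Bd (1 : B) (ex 0 0) := by rw [one_def]; exact Bd_single _ _
    have h2 : (1 : B).coeff (ex 0 0) = 1 := by rw [one_def, ex_zero]; simp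
    simpa using ⟨h1, h2⟩
  | succ n ih =>
    obtain ⟨h1, h2⟩ := ih
    have h3 : ex (n * m) (n * s) + ex m s = ex ((n + 1 : ℕ) * m) ((n + 1 : ℕ) * s) := by
      rw [ex_add, ex_inj]; push_cast; constructor <;> ring
    rw [pow_succ, ← h3]
    exact ⟨h1.mul ha, by rw [coeff_mul_top h1 ha, h2, hc, one_mul]⟩

/-- the `ℂ[x]`-basis -/
noncomputable def e (d : ℂ) (m : ℕ) : B := y ^ (m % 3) * vd d ^ (m / 3)

theorem e_top (d : ℂ) (m : ℕ) :
    Bd (e d m) (ex m (2 * (m / 3 : ℕ))) ∧ (e d m).coeff (ex m (2 * (m / 3 : ℕ))) = 1 := by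
  obtain ⟨h1, h2⟩ := Bd_pow Bd_y coeff_y (m % 3)
  obtain ⟨h3, h4⟩ := Bd_pow (Bd_vd d) (coeff_vd d) (m / 3)
  have h5 : ex ((m % 3 : ℕ) * 1) ((m % 3 : ℕ) * 0) + ex ((m / 3 : ℕ) * 3) ((m / 3 : ℕ) * 2)
      = ex m (2 * (m / 3 : ℕ)) := by
    rw [ex_add, ex_inj]; constructor <;> omega
  rw [← h5, e]
  exact ⟨h1.mul h3, by rw [coeff_mul_top h1 h3, h2, h4, one_mul]⟩

/-- the `ℂ`-basis -/
noncomputable def bas (d : ℂ) (k : ℕ × ℕ) : B := x ^ k.1 * e d k.2

/-- leading exponents of the basis -/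
def lam (k : ℕ × ℕ) : G := ex k.2 (2 * (k.2 / 3 : ℕ) - k.1)

theorem lam_inj : Function.Injective lam := by
  rintro ⟨i, m⟩ ⟨i', m'⟩ h
  rw [lam, lam, ex_inj] at h
  obtain ⟨h1, h2⟩ := h
  simp only [Prod.mk.injEq]
  simp only at h1 h2
  have : m = m' := by exact_mod_cast h1
  subst this
  constructor
  · omega
  · rfl

theorem bas_top (d : ℂ) (k : ℕ × ℕ) :
    Bd (bas d k) (lam k) ∧ (bas d k).coeff (lam k) = 1 := by
  obtain ⟨h1, h2⟩ := Bd_pow Bd_x coeff_x k.1
  obtain ⟨h3, h4⟩ := e_top d k.2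
  have h5 : ex ((k.1 : ℕ) * 0) ((k.1 : ℕ) * (-1)) + ex k.2 (2 * (k.2 / 3 : ℕ)) = lam k := by
    rw [lam, ex_add, ex_inj]; constructor <;> ring
  rw [← h5, bas]
  exact ⟨h1.mul h3, by rw [coeff_mul_top h1 h3, h2, h4, one_mul]⟩

/-- The algebra. -/
noncomputable def R (d : ℂ) : Subalgebra ℂ B := Algebra.adjoin ℂ {x, y, vd d}

theorem x_mem (d : ℂ) : x ∈ R d := Algebra.subset_adjoin (by simp)
theorem y_mem (d : ℂ) : y ∈ R d := Algebra.subset_adjoin (by simp)
theorem v_mem (d : ℂ) : vd d ∈ R d := Algebra.subset_adjoin (by simp)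

/-- The span of the basis. -/
noncomputable def M (d : ℂ) : Submodule ℂ B := Submodule.span ℂ (Set.range (bas d))

theorem bas_mem (d : ℂ) (k : ℕ × ℕ) : bas d k ∈ M d := Submodule.subset_span ⟨k, rfl⟩

theorem mul_mem_of_bas (d : ℂ) (a : B) (h : ∀ k, a * bas d k ∈ M d) :
    ∀ m ∈ M d, a * m ∈ M d := by
  intro m hm
  induction hm using Submodule.span_induction with
  | mem z hz => obtain ⟨k, rfl⟩ := hz; exact h k
  | zero => simp
  | add z w _ _ hz hw => rw [mul_add]; exact add_mem hz hw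
  | smul c z _ hz => rw [mul_smul_comm]; exact Submodule.smul_mem _ _ hz

theorem x_mul_bas (d : ℂ) (k : ℕ × ℕ) : x * bas d k = bas d (k.1 + 1, k.2) := by
  simp only [bas]; ring

theorem x_mul_M (d : ℂ) : ∀ m ∈ M d, x * m ∈ M d :=
  mul_mem_of_bas d x fun k => by rw [x_mul_bas]; exact bas_mem _ _

theorem xpow_mul_M (d : ℂ) (n : ℕ) : ∀ m ∈ M d, x ^ n * m ∈ M d := by
  induction n with
  | zero => intro m hm; simpa using hm
  | succ n ih =>
    intro m hm
    have := x_mul_M d _ (ih m hm)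
    rwa [← mul_assoc, ← pow_succ'] at this

theorem v_mul_e (d : ℂ) (m : ℕ) : vd d * e d m = e d (m + 3) := by
  have h1 : (m + 3) % 3 = m % 3 := by omega
  have h2 : (m + 3) / 3 = m / 3 + 1 := by omega
  rw [e, e, h1, h2]; ring

theorem y_mul_e_lt (d : ℂ) (m : ℕ) (hm : m % 3 < 2) : y * e d m = e d (m + 1) := by
  have h1 : (m + 1) % 3 = m % 3 + 1 := by omega
  have h2 : (m + 1) / 3 = m / 3 := by omega
  rw [e, e, h1, h2]; ring

theorem y_cube (d : ℂ) : y ^ 3 = x ^ 2 * vd d - K d + K d * x + K d * (x * y) := by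
  rw [x2_mul_vd, fd]; ring

theorem y_mul_e_eq (d : ℂ) (m : ℕ) (hm : m % 3 = 2) :
    y * e d m = x ^ 2 * e d (m + 1) + d • (x * e d (m - 1)) + d • (x * e d (m - 2))
      - d • e d (m - 2) := by
  have h1 : (m + 1) % 3 = 0 := by omega
  have h2 : (m + 1) / 3 = m / 3 + 1 := by omega
  have h3 : (m - 1) % 3 = 1 := by omega
  have h4 : (m - 1) / 3 = m / 3 := by omega
  have h5 : (m - 2) % 3 = 0 := by omega
  have h6 : (m - 2) / 3 = m / 3 := by omega
  simp only [e, h1, h2, h3, h4, h5, h6, hm, Algebra.smul_def]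
  have := y_cube d
  calc y * (y ^ 2 * vd d ^ (m / 3)) = y ^ 3 * vd d ^ (m / 3) := by ring
    _ = _ := by rw [this]; simp only [K]; ring

theorem e_mem (d : ℂ) (m : ℕ) : e d m ∈ M d := by
  have := bas_mem d (0, m)
  simpa [bas] using this

theorem y_mul_e_mem (d : ℂ) (m : ℕ) : y * e d m ∈ M d := by
  by_cases hm : m % 3 < 2
  · rw [y_mul_e_lt d m hm]; exact e_mem _ _
  · rw [y_mul_e_eq d m (by omega)]
    refine sub_mem (add_mem (add_mem (xpow_mul_M d 2 _ (e_mem _ _)) ?_) ?_) ?_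
    · exact Submodule.smul_mem _ _ (x_mul_M d _ (e_mem _ _))
    · exact Submodule.smul_mem _ _ (x_mul_M d _ (e_mem _ _))
    · exact Submodule.smul_mem _ _ (e_mem _ _)

theorem gen_mul_M (d : ℂ) (a : B) (ha : a ∈ ({x, y, vd d} : Set B)) :
    ∀ m ∈ M d, a * m ∈ M d := by
  apply mul_mem_of_bas
  intro k
  rcases ha with rfl | rfl | rfl
  · rw [x_mul_bas]; exact bas_mem _ _
  · have h : y * bas d k = x ^ k.1 * (y * e d k.2) := by simp only [bas]; ring
    rw [h]
    exact xpow_mul_M d _ _ (y_mul_e_mem d _)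
  · have h : vd d * bas d k = x ^ k.1 * (vd d * e d k.2) := by simp only [bas]; ring
    rw [h, v_mul_e]
    exact xpow_mul_M d _ _ (e_mem d _)

theorem adjoin_mul_M (d : ℂ) (a : B) (ha : a ∈ R d) : ∀ m ∈ M d, a * m ∈ M d := by
  induction ha using Algebra.adjoin_induction with
  | mem z hz => exact gen_mul_M d z hz
  | algebraMap r =>
    intro m hm
    rw [← Algebra.smul_def]
    exact Submodule.smul_mem _ _ hm
  | add z w _ _ hz hw =>
    intro m hm
    rw [add_mul]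
    exact add_mem (hz m hm) (hw m hm)
  | mul z w _ _ hz hw =>
    intro m hm
    rw [mul_assoc]
    exact hz _ (hw _ hm)

theorem R_le_M (d : ℂ) (a : B) (ha : a ∈ R d) : a ∈ M d := by
  have h1 : (1 : B) ∈ M d := by
    have := e_mem d 0
    simpa [e] using this
  simpa using adjoin_mul_M d a ha 1 h1

/-- Leading term of a nonzero element of the algebra. -/
theorem R_top (d : ℂ) (a : B) (ha : a ∈ R d) (h0 : a ≠ 0) :
    ∃ (c : ℕ × ℕ →₀ ℂ) (k : ℕ × ℕ), a = c.sum (fun k' r => r • bas d k') ∧ c k ≠ 0 ∧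
      (∀ k' ∈ c.support, lam k' ≤ lam k) ∧ Bd a (lam k) ∧ a.coeff (lam k) = c k := by
  have hM := R_le_M d a ha
  rw [M, Finsupp.mem_span_range_iff_exists_finsupp] at hM
  obtain ⟨c, hc⟩ := hM
  have hs : c.support.Nonempty := by
    rw [Finsupp.support_nonempty_iff]
    rintro rfl
    exact h0 (by simpa using hc.symm)
  obtain ⟨k, hk, hmax⟩ := Finset.exists_max_image c.support lam hs
  refine ⟨c, k, hc.symm, Finsupp.mem_support_iff.mp hk, hmax, ?_, ?_⟩
  · rw [← hc]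
    exact Bd.sum _ _ fun i hi => ((bas_top d i).1.smul _).mono (hmax i hi)
  · rw [← hc, Finsupp.sum, coeff_sum, Finset.sum_apply', Finset.sum_eq_single k]
    · simp [(bas_top d k).2]
    · intro i hi hne
      have hlt : lam i < lam k := lt_of_le_of_ne (hmax i hi) fun h => hne (lam_inj h)
      simp [(bas_top d i).1 _ hlt]
    · intro h; exact absurd hk h

end Pool.Agent.H41.Iso
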