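import Mathlib
import Pool.Agent.H41.IsoB

set_option autoImplicit false

/-! Locally nilpotent derivations of the algebra kill `x`. -/

namespace Pool.Agent.H41.Iso

open AddMonoidAlgebra

theorem R_expand (d : ℂ) (a : B) (ha : a ∈ R d) (N : ℕ)
    (hN : ∀ g, a.coeff g ≠ 0 → (ofLex g).1 ≤ (N : ℤ)) :
    ∃ P : ℕ → Polynomial ℂ, a = ∑ m ∈ Finset.range (N + 1), Polynomial.aeval x (P m) * e d m := by
  classical
  by_cases h0 : a = 0
  · exact ⟨fun _ => 0, by simp [h0]⟩
  obtain ⟨c, k, hc, hk, hmax, hB, htop⟩ := R_top d a ha h0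
  have hkN : k.2 ≤ N := by
    have := hN (lam k) (by rw [htop]; exact hk)
    have h2 : (ofLex (lam k)).1 = (k.2 : ℤ) := rfl
    rw [h2] at this
    exact_mod_cast this
  have hall : ∀ k' ∈ c.support, k'.2 ∈ Finset.range (N + 1) := by
    intro k' hk'
    have := hmax k' hk'
    rw [lam, lam, ex_le] at this
    rw [Finset.mem_range]
    omega
  refine ⟨fun m => ∑ k' ∈ c.support with k'.2 = m, Polynomial.C (c k') * Polynomial.X ^ k'.1, ?_⟩
  conv_lhs => rw [hc, Finsupp.sum, ← Finset.sum_fiberwise_of_maps_to hall]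
  refine Finset.sum_congr rfl fun m _ => ?_
  rw [map_sum, Finset.sum_mul]
  refine Finset.sum_congr rfl fun k' hk' => ?_
  rw [Finset.mem_filter] at hk'
  rw [map_mul, map_pow, Polynomial.aeval_C, Polynomial.aeval_X, bas, hk'.2, Algebra.smul_def]
  ring

/-- Any element of the algebra involves only nonnegative powers of `y`. -/
theorem R_nonneg (d : ℂ) (a : B) (ha : a ∈ R d) :
    ∀ g, a.coeff g ≠ 0 → 0 ≤ (ofLex g).1 := by
  classical
  induction ha using Algebra.adjoin_induction with
  | mem z hz =>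
    intro g hg
    rcases hz with rfl | rfl | rfl
    · have : g = ex 0 (-1) := by
        by_contra hne
        exact hg (by simp [x, Ne.symm hne])
      rw [this]; exact le_refl (0 : ℤ)
    · have : g = ex 1 0 := by
        by_contra hne
        exact hg (by simp [y, Ne.symm hne])
      rw [this]; exact Int.one_nonneg
    · rw [vd_eq] at hg
      by_contra hlt
      apply hg
      obtain ⟨m, s, rfl⟩ := exists_ex g
      have hm : m < 0 := not_le.mp hlt
      have h1 : ex 3 2 ≠ ex m s := by rw [Ne, ex_inj]; omega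
      have h2 : ex 0 2 ≠ ex m s := by rw [Ne, ex_inj]; omega
      have h3 : ex 0 1 ≠ ex m s := by rw [Ne, ex_inj]; omega
      have h4 : ex 1 1 ≠ ex m s := by rw [Ne, ex_inj]; omega
      simp [h1, h2, h3, h4]
  | algebraMap r =>
    intro g hg
    have : g = 0 := by
      by_contra hne
      apply hg
      have := K_eq r
      rw [K] at this
      rw [this]
      simp [Ne.symm hne]
    rw [this]; exact le_refl (0 : ℤ)
  | add z w _ _ hz hw =>
    intro g hg
    by_cases h : z.coeff g = 0
    · refine hw g ?_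
      intro h'
      exact hg (by simp [h, h'])
    · exact hz g h
  | mul z w _ _ hz hw =>
    intro g hg
    rw [coeff_mul] at hg
    obtain ⟨m1, hm1, h1⟩ := Finset.exists_ne_zero_of_sum_ne_zero hg
    obtain ⟨m2, hm2, h2⟩ := Finset.exists_ne_zero_of_sum_ne_zero h1
    have h3 : m1 + m2 = g := by
      by_contra hne
      exact h2 (by simp [hne])
    rw [← h3]
    have h4 := hz m1 (Finsupp.mem_support_iff.mp hm1)
    have h5 := hw m2 (Finsupp.mem_support_iff.mp hm2)
    exact add_nonneg h4 h5

/-- The derivation `a ∂/∂x + b ∂/∂y` written with Euler operators. -/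
noncomputable def F (al be : B) (a : B) : B := al * E epsx a + be * E epsy a

theorem F_add (al be a b : B) : F al be (a + b) = F al be a + F al be b := by
  simp only [F, map_add]; ring

theorem F_sub (al be a b : B) : F al be (a - b) = F al be a - F al be b := by
  simp only [F, map_sub]; ring

theorem F_mul (al be a b : B) : F al be (a * b) = a * F al be b + b * F al be a := by
  simp only [F, E_mul]; ring

theorem F_K (al be : B) (d : ℂ) : F al be (K d) = 0 := by
  rw [F, K_eq, E_single, E_single]; simp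

theorem F_fd (al be : B) (d : ℂ) : F al be (fd d) =
    3 * y ^ 2 * F al be y - K d * F al be x - K d * (x * F al be y + y * F al be x) := by
  rw [fd, F_sub, F_sub, F_add, F_K, F_mul, F_mul _ _ (K d), F_K, F_mul _ _ x y,
    show y ^ 3 = y * (y * y) by ring, F_mul, F_mul]
  ring

section Der

variable {d : ℂ} (D : Derivation ℂ (R d) (R d))

theorem xB : ((⟨x, x_mem d⟩ : R d) : B) = x := rfl

/-- the shape of an arbitrary derivation -/
theorem D_eq_F (a : R d) : ((D a : R d) : B) =
    F (xi * (D ⟨x, x_mem d⟩ : R d)) (yi * (D ⟨y, y_mem d⟩ : R d)) a := by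
  set al : B := xi * (D ⟨x, x_mem d⟩ : R d) with hal
  set be : B := yi * (D ⟨y, y_mem d⟩ : R d) with hbe
  have hx : ((D ⟨x, x_mem d⟩ : R d) : B) = F al be x := by
    rw [F, Ex_x, Ey_x, hal]
    linear_combination (-((D ⟨x, x_mem d⟩ : R d) : B)) * x_mul_xi
  have hy : ((D ⟨y, y_mem d⟩ : R d) : B) = F al be y := by
    rw [F, Ex_y, Ey_y, hbe]
    linear_combination (-((D ⟨y, y_mem d⟩ : R d) : B)) * y_mul_yi
  have hv : ((D ⟨vd d, v_mem d⟩ : R d) : B) = F al be (vd d) := by
    set X : R d := ⟨x, x_mem d⟩ with hX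
    set Y : R d := ⟨y, y_mem d⟩ with hY
    set V : R d := ⟨vd d, v_mem d⟩ with hV
    have hrel : X ^ 2 * V = Y ^ 3 + algebraMap ℂ (R d) d - algebraMap ℂ (R d) d * X
        - algebraMap ℂ (R d) d * (X * Y) := by
      apply Subtype.ext
      change x ^ 2 * vd d = y ^ 3 + K d - K d * x - K d * (x * y)
      rw [x2_mul_vd, fd]
    have h1 := congrArg (fun z : R d => ((D z : R d) : B)) hrel
    simp only [map_sub, map_add, Derivation.leibniz, Derivation.leibniz_pow,
      Derivation.map_algebraMap, smul_eq_mul] at h1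
    have h2 : F al be (x ^ 2 * vd d) = F al be (fd d) := by rw [x2_mul_vd]
    rw [F_fd, F_mul, show x ^ 2 = x * x by ring, F_mul, ← hx, ← hy] at h2
    push_cast at h1
    have h3 : x ^ 2 * ((D V : R d) : B) = x ^ 2 * F al be (vd d) := by
      simp only [add_zero, nsmul_eq_mul, mul_zero] at h1
      have e1 : ((X : R d) : B) = x := rfl
      have e2 : ((Y : R d) : B) = y := rfl
      have e3 : ((V : R d) : B) = vd d := rfl
      have e4 : ((algebraMap ℂ (R d) d : R d) : B) = K d := rfl
      push_cast [e1, e2, e3, e4] at h1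
      linear_combination h1 - h2
    have h4 : (x ^ 2 : B) ≠ 0 := pow_ne_zero _ x_ne_zero
    exact mul_left_cancel₀ h4 h3
  obtain ⟨a, ha⟩ := a
  induction ha using Algebra.adjoin_induction with
  | mem z hz =>
    rcases hz with rfl | rfl | rfl
    · exact hx
    · exact hy
    · exact hv
  | algebraMap r =>
    have h1 : (⟨algebraMap ℂ B r, by exact (R d).algebraMap_mem r⟩ : R d)
      = algebraMap ℂ (R d) r := rfl
    have h2 : F al be (algebraMap ℂ B r) = 0 := F_K al be r
    change ((D (algebraMap ℂ (R d) r) : R d) : B) = F al be (algebraMap ℂ B r)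
    rw [h2, Derivation.map_algebraMap]
    rfl
  | add z w hz hw h1 h2 =>
    have h3 : (⟨z + w, (R d).add_mem hz hw⟩ : R d) = ⟨z, hz⟩ + ⟨w, hw⟩ := rfl
    change ((D (⟨z, hz⟩ + ⟨w, hw⟩) : R d) : B) = F al be (z + w)
    rw [map_add, F_add, ← h1, ← h2]
    rfl
  | mul z w hz hw h1 h2 =>
    change ((D (⟨z, hz⟩ * ⟨w, hw⟩) : R d) : B) = F al be (z * w)
    rw [Derivation.leibniz, F_mul, ← h1, ← h2]
    rfl

end Der

end Pool.Agent.H41.Iso
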