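import Mathlib
import Pool.Agent.H41.IsoC

set_option autoImplicit false

/-! Locally nilpotent derivations of the algebra kill `x`: the leading term argument. -/

namespace Pool.Agent.H41.Iso

open AddMonoidAlgebra

theorem exists_top2 {a b : B} (h : a ≠ 0 ∨ b ≠ 0) :
    ∃ ρ, Bd a ρ ∧ Bd b ρ ∧ (a.coeff ρ ≠ 0 ∨ b.coeff ρ ≠ 0) := by
  classical
  by_cases ha : a = 0
  · have hb : b ≠ 0 := by tauto
    obtain ⟨g, h1, h2⟩ := exists_top hb
    exact ⟨g, by rw [ha]; intro k _; simp, h1, Or.inr h2⟩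
  by_cases hb : b = 0
  · obtain ⟨g, h1, h2⟩ := exists_top ha
    exact ⟨g, h1, by rw [hb]; intro k _; simp, Or.inl h2⟩
  obtain ⟨g, h1, h2⟩ := exists_top ha
  obtain ⟨h, h3, h4⟩ := exists_top hb
  rcases le_total g h with hgh | hgh
  · exact ⟨h, h1.mono hgh, h3, Or.inr h4⟩
  · exact ⟨g, h1, h3.mono hgh, Or.inl h2⟩

theorem Bd_E {a : B} {g : G} (φ : G →+ ℂ) (ha : Bd a g) : Bd (E φ a) g := by
  intro h hh
  rw [coeff_E, ha h hh, mul_zero]

/-- the linear form giving the leading coefficient of a derivative -/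
noncomputable def ell (k1 k2 : ℂ) (g : G) : ℂ := k1 * epsx g + k2 * epsy g

theorem ell_add (k1 k2 : ℂ) (g h : G) : ell k1 k2 (g + h) = ell k1 k2 g + ell k1 k2 h := by
  simp only [ell, map_add]; ring

theorem ell_nsmul (k1 k2 : ℂ) (n : ℕ) (g : G) : ell k1 k2 (n • g) = n * ell k1 k2 g := by
  simp only [ell, map_nsmul]
  rw [nsmul_eq_mul, nsmul_eq_mul]
  ring

theorem ell_ex (k1 k2 : ℂ) (m s : ℤ) : ell k1 k2 (ex m s) = -(k1 * s) + k2 * m := by
  simp only [ell, epsx_ex, epsy_ex]; ring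

section Der

variable {d : ℂ} (D : Derivation ℂ (R d) (R d))

theorem D_step {ρ : G} (h1 : Bd (xi * (D ⟨x, x_mem d⟩ : R d)) ρ)
    (h2 : Bd (yi * (D ⟨y, y_mem d⟩ : R d)) ρ) (a : R d) (g : G) (ha : Bd (a : B) g) :
    Bd ((D a : R d) : B) (ρ + g) ∧ ((D a : R d) : B).coeff (ρ + g) =
      ell ((xi * (D ⟨x, x_mem d⟩ : R d)).coeff ρ) ((yi * (D ⟨y, y_mem d⟩ : R d)).coeff ρ) g
        * (a : B).coeff g := by
  rw [D_eq_F, F]
  refine ⟨(h1.mul (Bd_E _ ha)).add (h2.mul (Bd_E _ ha)), ?_⟩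
  rw [coeff_add, Finsupp.add_apply, coeff_mul_top h1 (Bd_E _ ha), coeff_mul_top h2 (Bd_E _ ha),
    coeff_E, coeff_E, ell]
  ring

theorem D_iter {ρ : G} (h1 : Bd (xi * (D ⟨x, x_mem d⟩ : R d)) ρ)
    (h2 : Bd (yi * (D ⟨y, y_mem d⟩ : R d)) ρ) (a : R d) (g : G) (ha : Bd (a : B) g)
    (hc : (a : B).coeff g ≠ 0)
    (hne : ∀ j : ℕ, ell ((xi * (D ⟨x, x_mem d⟩ : R d)).coeff ρ)
      ((yi * (D ⟨y, y_mem d⟩ : R d)).coeff ρ) (j • ρ + g) ≠ 0) (n : ℕ) :
    Bd ((D^[n] a : R d) : B) (n • ρ + g) ∧ ((D^[n] a : R d) : B).coeff (n • ρ + g) ≠ 0 := by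
  induction n with
  | zero => simpa using ⟨ha, hc⟩
  | succ n ih =>
    obtain ⟨h3, h4⟩ := ih
    have h5 := D_step D h1 h2 _ _ h3
    rw [Function.iterate_succ_apply']
    have h6 : (n + 1) • ρ + g = ρ + (n • ρ + g) := by rw [succ_nsmul]; abel
    rw [h6]
    exact ⟨h5.1, by rw [h5.2]; exact mul_ne_zero (hne n) h4⟩

theorem exists_zero (hnil : ∀ a, ∃ n : ℕ, D^[n] a = 0)
    {ρ : G} (h1 : Bd (xi * (D ⟨x, x_mem d⟩ : R d)) ρ)
    (h2 : Bd (yi * (D ⟨y, y_mem d⟩ : R d)) ρ) (a : R d) (g : G) (ha : Bd (a : B) g)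
    (hc : (a : B).coeff g ≠ 0) :
    ∃ j : ℕ, ell ((xi * (D ⟨x, x_mem d⟩ : R d)).coeff ρ)
      ((yi * (D ⟨y, y_mem d⟩ : R d)).coeff ρ) ρ * j +
      ell ((xi * (D ⟨x, x_mem d⟩ : R d)).coeff ρ)
      ((yi * (D ⟨y, y_mem d⟩ : R d)).coeff ρ) g = 0 := by
  by_contra hcon
  push Not at hcon
  obtain ⟨n, hn⟩ := hnil a
  have := (D_iter D h1 h2 a g ha hc (fun j => by
    rw [ell_add, ell_nsmul, mul_comm]; exact hcon j) n).2
  rw [hn] at this
  exact this (by simp)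

theorem top_shape (a : B) (ha : a ∈ R d) (m s : ℤ) (h1 : Bd a (ex m s))
    (h2 : a.coeff (ex m s) ≠ 0) : 0 ≤ m ∧ s ≤ 2 * (m / 3) := by
  have h0 : a ≠ 0 := by rintro rfl; simp at h2
  obtain ⟨c, k, _, hk, _, h3, h4⟩ := R_top d a ha h0
  have h5 := top_unique h1 h2 h3 (by rw [h4]; exact hk)
  rw [lam, ex_inj] at h5
  obtain ⟨h6, h7⟩ := h5
  omega

theorem lnd_kills_x (hnil : ∀ a, ∃ n : ℕ, D^[n] a = 0) : D ⟨x, x_mem d⟩ = 0 := by
  by_contra hDx
  have hDxB : ((D ⟨x, x_mem d⟩ : R d) : B) ≠ 0 := fun h => hDx (Subtype.ext h)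
  have hal : xi * ((D ⟨x, x_mem d⟩ : R d) : B) ≠ 0 := by
    intro h
    apply hDxB
    calc ((D ⟨x, x_mem d⟩ : R d) : B) = (x * xi) * (D ⟨x, x_mem d⟩ : R d) := by
          rw [x_mul_xi, one_mul]
      _ = x * (xi * (D ⟨x, x_mem d⟩ : R d)) := by ring
      _ = 0 := by rw [h, mul_zero]
  obtain ⟨ρ, h1, h2, h3⟩ := exists_top2 (a := xi * ((D ⟨x, x_mem d⟩ : R d) : B))
    (b := yi * ((D ⟨y, y_mem d⟩ : R d) : B)) (Or.inl hal)
  obtain ⟨q, σ, rfl⟩ := exists_ex ρ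
  have zx := exists_zero D hnil h1 h2 ⟨x, x_mem d⟩ (ex 0 (-1)) Bd_x
    (by rw [coeff_x]; exact one_ne_zero)
  have zy := exists_zero D hnil h1 h2 ⟨y, y_mem d⟩ (ex 1 0) Bd_y
    (by rw [coeff_y]; exact one_ne_zero)
  have zv := exists_zero D hnil h1 h2 ⟨vd d, v_mem d⟩ (ex 3 2) (Bd_vd d)
    (by rw [coeff_vd]; exact one_ne_zero)
  have sx := (D_step D h1 h2 ⟨x, x_mem d⟩ (ex 0 (-1)) Bd_x)
  have sy := (D_step D h1 h2 ⟨y, y_mem d⟩ (ex 1 0) Bd_y)
  rw [ell_ex, coeff_x] at sx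
  rw [ell_ex, coeff_y] at sy
  set k1 : ℂ := (xi * ((D ⟨x, x_mem d⟩ : R d) : B)).coeff (ex q σ) with hk1
  set k2 : ℂ := (yi * ((D ⟨y, y_mem d⟩ : R d) : B)).coeff (ex q σ) with hk2
  simp only [ell_ex] at zx zy zv
  push_cast at zx zy zv sx sy
  obtain ⟨jx, zx⟩ := zx
  obtain ⟨jy, zy⟩ := zy
  obtain ⟨jv, zv⟩ := zv
  by_cases hk : k1 = 0
  · -- then `q = -1`
    have hk2' : k2 ≠ 0 := by tauto
    rw [hk] at zy
    have : (jy : ℂ) * q + 1 = 0 := by
      have : k2 * ((jy : ℂ) * q + 1) = 0 := by linear_combination zy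
      exact (mul_eq_zero.mp this).resolve_left hk2'
    have hint : (jy : ℤ) * q + 1 = 0 := by exact_mod_cast this
    have hq : q < 0 := by
      by_contra hq
      have : (0 : ℤ) ≤ jy * q := mul_nonneg (by positivity) (not_lt.mp hq)
      omega
    obtain ⟨g, hg1, hg2⟩ := exists_top hDxB
    obtain ⟨m, s, rfl⟩ := exists_ex g
    have hm := (top_shape (d := d) _ (D ⟨x, x_mem d⟩).2 m s hg1 hg2).1
    have hB := Bd_x.mul h1
    have : x * (xi * ((D ⟨x, x_mem d⟩ : R d) : B)) = (D ⟨x, x_mem d⟩ : R d) := by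
      rw [← mul_assoc, x_mul_xi, one_mul]
    rw [this] at hB
    have hle := hB.le_of_coeff_ne hg2
    rw [ex_add, ex_le] at hle
    omega
  · obtain ⟨t, ht⟩ : ∃ t : ℂ, t = -(-(k1 * σ) + k2 * q) := ⟨_, rfl⟩
    rw [show -(k1 * (σ : ℂ)) + k2 * (q : ℂ) = -t by rw [ht]; ring] at zx zy zv
    have e1 : k1 = jx * t := by linear_combination zx
    have e2 : k2 = jy * t := by linear_combination zy
    have e3 : -(k1 * 2) + k2 * 3 = jv * t := by linear_combination zv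
    have ht0 : t ≠ 0 := by
      intro h0
      rw [h0, mul_zero] at e1
      exact hk e1
    have i1 : -(jx * 2 : ℤ) + jy * 3 = jv := by
      have : t * (-((jx : ℂ) * 2) + jy * 3 - jv) = 0 := by
        rw [e1, e2] at e3
        linear_combination e3
      have := (mul_eq_zero.mp this).resolve_left ht0
      have : -((jx : ℂ) * 2) + jy * 3 = jv := by linear_combination this
      exact_mod_cast this
    have i2 : -(jx * σ : ℤ) + jy * q = -1 := by
      have : t * (-((jx : ℂ) * σ) + jy * q + 1) = 0 := by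
        have ht' := ht
        rw [e1, e2] at ht'
        linear_combination ht'
      have := (mul_eq_zero.mp this).resolve_left ht0
      have : -((jx : ℂ) * σ) + jy * q = -1 := by linear_combination this
      exact_mod_cast this
    have hjx : 1 ≤ jx := by
      rcases Nat.eq_zero_or_pos jx with h | h
      · rw [h] at e1; exact absurd (by simpa using e1) hk
      · exact h
    have hjy : 1 ≤ jy := by omega
    have hk2' : k2 ≠ 0 := by
      rw [e2]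
      exact mul_ne_zero (by exact_mod_cast (by omega : jy ≠ 0)) ht0
    have tx := top_shape (d := d) _ (D ⟨x, x_mem d⟩).2 (q + 0) (σ + (-1))
      (by rw [← ex_add]; exact sx.1)
      (by rw [← ex_add, sx.2]; simpa using hk)
    have ty := top_shape (d := d) _ (D ⟨y, y_mem d⟩).2 (q + 1) (σ + 0)
      (by rw [← ex_add]; exact sy.1)
      (by rw [← ex_add, sy.2]; simpa using hk2')
    obtain ⟨tx1, tx2⟩ := tx
    obtain ⟨ty1, ty2⟩ := ty
    simp only [add_zero] at tx1 tx2 ty1 ty2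
    obtain ⟨q', r, hq', hr⟩ : ∃ q' r : ℤ, q = 3 * q' + r ∧ (0 ≤ r ∧ r < 3) :=
      ⟨q / 3, q % 3, by omega, by omega⟩
    have hq0 : 0 ≤ q' := by omega
    have hjx' : (1 : ℤ) ≤ jx := by exact_mod_cast hjx
    have hjy' : (1 : ℤ) ≤ jy := by exact_mod_cast hjy
    have hjv' : (0 : ℤ) ≤ jv := by positivity
    rcases (by omega : r = 0 ∨ r = 1 ∨ r = 2) with h | h | h
    · have hσ : σ ≤ 2 * q' := by omega
      subst hq'
      subst h
      nlinarith [mul_le_mul_of_nonneg_left hσ (by omega : (0 : ℤ) ≤ jx),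
        mul_nonneg hq0 hjv']
    · have hσ : σ ≤ 2 * q' := by omega
      subst hq'
      subst h
      nlinarith [mul_le_mul_of_nonneg_left hσ (by omega : (0 : ℤ) ≤ jx),
        mul_nonneg hq0 hjv']
    · have hσ : σ ≤ 2 * q' + 1 := by omega
      subst hq'
      subst h
      nlinarith [mul_le_mul_of_nonneg_left hσ (by omega : (0 : ℤ) ≤ jx),
        mul_nonneg hq0 hjv']

end Der

end Pool.Agent.H41.Iso
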