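import Mathlib
import Pool.Agent.H41.IsoD

set_option autoImplicit false

/-! Isomorphic algebras have the same parameter. -/

namespace Pool.Agent.H41.Iso

open AddMonoidAlgebra

/-- bivariate polynomials inside Laurent polynomials -/
noncomputable def iota : Polynomial (Polynomial ℂ) →+* B :=
  Polynomial.eval₂RingHom (Polynomial.aeval x : Polynomial ℂ →ₐ[ℂ] B).toRingHom y

theorem iota_C (p : Polynomial ℂ) : iota (Polynomial.C p) = Polynomial.aeval x p := by
  simp [iota]

theorem iota_X : iota Polynomial.X = y := by simp [iota]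

theorem x_pow (n : ℕ) : x ^ n = single (ex 0 (-n)) 1 := by
  induction n with
  | zero => rw [pow_zero, one_def]; simp [ex_zero]
  | succ n ih =>
    have h : ex (0 + 0) (-(n : ℤ) + -1) = ex 0 (-((n + 1 : ℕ) : ℤ)) := by
      rw [ex_inj]; constructor <;> omega
    rw [pow_succ, ih, x, single_mul_single, ex_add, h, mul_one]

theorem y_pow (n : ℕ) : y ^ n = single (ex n 0) 1 := by
  induction n with
  | zero => rw [pow_zero, one_def]; simp [ex_zero]
  | succ n ih =>
    have h : ex ((n : ℤ) + 1) (0 + 0) = ex ((n + 1 : ℕ) : ℤ) 0 := by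
      rw [ex_inj]; constructor <;> omega
    rw [pow_succ, ih, y, single_mul_single, ex_add, h, mul_one]

theorem iota_monomial (j i : ℕ) (a : ℂ) :
    iota (Polynomial.monomial j (Polynomial.monomial i a)) = single (ex j (-i)) a := by
  rw [← Polynomial.C_mul_X_pow_eq_monomial, ← Polynomial.C_mul_X_pow_eq_monomial, map_mul,
    map_pow, iota_C, iota_X, map_mul, map_pow, Polynomial.aeval_X, Polynomial.aeval_C, x_pow,
    y_pow]
  have h := K_eq a
  rw [K] at h
  rw [h, single_mul_single, single_mul_single]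
  congr 1
  · rw [← ex_zero, ex_add, ex_add, ex_inj]; constructor <;> ring
  · ring

theorem iota_coeff (P : Polynomial (Polynomial ℂ)) (j i : ℕ) :
    (iota P).coeff (ex j (-i)) = (P.coeff j).coeff i := by
  classical
  induction P using Polynomial.induction_on' with
  | add p q hp hq => simp [map_add, hp, hq]
  | monomial n a =>
    induction a using Polynomial.induction_on' with
    | add p q hp hq =>
      rw [map_add, map_add, coeff_add, Finsupp.add_apply, hp, hq,
        Polynomial.coeff_add, Polynomial.coeff_add]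
    | monomial m a =>
      rw [iota_monomial, coeff_single, Finsupp.single_apply, Polynomial.coeff_monomial]
      simp only [ex_inj]
      by_cases h1 : n = j
      · by_cases h2 : m = i
        · simp [h1, h2]
        · simp [h1, h2, Polynomial.coeff_monomial]
      · simp [h1]

theorem iota_inj : Function.Injective iota := by
  rw [injective_iff_map_eq_zero]
  intro P hP
  ext j i
  rw [← iota_coeff, hP]
  simp

theorem aeval_x_inj : Function.Injective (Polynomial.aeval x : Polynomial ℂ →ₐ[ℂ] B) := by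
  intro p q h
  rw [← iota_C, ← iota_C] at h
  exact Polynomial.C_injective (iota_inj h)

section D0

/-- `x ^ 2 ∂/∂y` -/
noncomputable def F0 (a : B) : B := F 0 (x ^ 2 * yi) a

theorem F0_x : F0 x = 0 := by rw [F0, F, Ey_x]; simp

theorem F0_y : F0 y = x ^ 2 := by
  rw [F0, F, Ey_y, zero_mul, zero_add, mul_assoc, mul_comm yi, y_mul_yi, mul_one]

theorem F0_v (d : ℂ) : F0 (vd d) = 3 * y ^ 2 - K d * x := by
  have h : F0 (x ^ 2 * vd d) = F0 (fd d) := by rw [x2_mul_vd]
  have h2 : F0 (fd d) = 3 * y ^ 2 * F0 y - K d * F0 x - K d * (x * F0 y + y * F0 x) := F_fd _ _ d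
  have h3 : F0 (x ^ 2 * vd d) = x ^ 2 * F0 (vd d) + vd d * F0 (x ^ 2) := F_mul _ _ _ _
  have h4 : F0 (x ^ 2) = x * F0 x + x * F0 x := by
    rw [show x ^ 2 = x * x by ring]; exact F_mul _ _ _ _
  rw [h3, h2, h4, F0_x, F0_y] at h
  have h5 : (x ^ 2 : B) ≠ 0 := pow_ne_zero _ x_ne_zero
  refine mul_left_cancel₀ h5 ?_
  linear_combination h

theorem F0_mem (d : ℂ) (a : B) (ha : a ∈ R d) : F0 a ∈ R d := by
  induction ha using Algebra.adjoin_induction with
  | mem z hz =>
    rcases hz with rfl | rfl | rfl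
    · rw [F0_x]; exact zero_mem _
    · rw [F0_y]; exact pow_mem (x_mem d) 2
    · rw [F0_v]
      refine sub_mem (mul_mem ?_ (pow_mem (y_mem d) 2)) (mul_mem ((R d).algebraMap_mem d) (x_mem d))
      exact (R d).algebraMap_mem 3
  | algebraMap r =>
    have : F0 (algebraMap ℂ B r) = 0 := F_K _ _ r
    rw [this]; exact zero_mem _
  | add z w hz hw h1 h2 =>
    have : F0 (z + w) = F0 z + F0 w := F_add _ _ _ _
    rw [this]; exact add_mem h1 h2
  | mul z w hz hw h1 h2 =>
    have : F0 (z * w) = z * F0 w + w * F0 z := F_mul _ _ _ _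
    rw [this]; exact add_mem (mul_mem hz h2) (mul_mem hw h1)

theorem F0_smul (c : ℂ) (a : B) : F0 (c • a) = c • F0 a := by
  simp only [F0, F, map_smul, mul_smul_comm, smul_add]

/-- `x ^ 2 ∂/∂y` as a derivation of the algebra. -/
noncomputable def D0 (d : ℂ) : Derivation ℂ (R d) (R d) :=
  Derivation.mk' { toFun := fun a => ⟨F0 a, F0_mem d a a.2⟩
                   map_add' := fun _ _ => Subtype.ext (F_add _ _ _ _)
                   map_smul' := fun c a => Subtype.ext (F0_smul c a) }
    (fun _ _ => Subtype.ext (F_mul _ _ _ _))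

theorem D0_coe (d : ℂ) (a : R d) : ((D0 d a : R d) : B) = F0 a := rfl

theorem F0_coeff (a : B) (m s : ℤ) :
    (F0 a).coeff (ex m s) = (m + 1) * a.coeff (ex (m + 1) (s + 2)) := by
  have h : (x ^ 2 * yi : B) = single (ex (-1) (-2)) 1 := by
    rw [x_pow, yi, single_mul_single, ex_add]; norm_num
  rw [F0, F, zero_mul, zero_add, h]
  rw [coeff_single_mul_eq_mul_coeff (ex (m + 1) (s + 2)), coeff_E, epsy_ex]
  · push_cast; ring
  · intro g _
    obtain ⟨m', s', rfl⟩ := exists_ex g
    rw [ex_add, ex_inj, ex_inj]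
    omega

/-- only `y`-exponents between `0` and `n - 1` -/
def Q (n : ℕ) (a : B) : Prop := ∀ g, a.coeff g ≠ 0 → 0 ≤ (ofLex g).1 ∧ (ofLex g).1 < n

theorem Q_F0 (n : ℕ) (a : B) (h : Q (n + 1) a) : Q n (F0 a) := by
  intro g hg
  obtain ⟨m, s, rfl⟩ := exists_ex g
  rw [F0_coeff] at hg
  have h1 := h _ (right_ne_zero_of_mul hg)
  have h2 := left_ne_zero_of_mul hg
  have h3 : m + 1 ≠ 0 := by intro h; exact h2 (by exact_mod_cast h)
  change 0 ≤ m + 1 ∧ m + 1 < ((n + 1 : ℕ) : ℤ) at h1
  change 0 ≤ m ∧ m < (n : ℤ)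
  push_cast at h1
  omega

theorem Q_exists (d : ℂ) (a : B) (ha : a ∈ R d) : ∃ n, Q n a := by
  by_cases h0 : a = 0
  · exact ⟨0, by intro g hg; rw [h0] at hg; exact absurd (by simp) hg⟩
  obtain ⟨g, hg1, hg2⟩ := exists_top h0
  obtain ⟨m, s, rfl⟩ := exists_ex g
  have hm := (top_shape a ha m s hg1 hg2).1
  refine ⟨m.toNat + 1, fun g hg => ⟨R_nonneg d a ha g hg, ?_⟩⟩
  have hle := hg1.le_of_coeff_ne hg
  obtain ⟨m', s', rfl⟩ := exists_ex g
  rw [ex_le] at hle
  change m' < _
  omega

theorem Q_zero (a : B) (h : Q 0 a) : a = 0 := by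
  ext g
  by_contra hg
  have := h g (by simpa using hg)
  omega

theorem D0_iter (d : ℂ) (n : ℕ) (a : R d) (h : Q n (a : B)) : (D0 d)^[n] a = 0 := by
  induction n generalizing a with
  | zero => exact Subtype.ext (Q_zero _ h)
  | succ n ih =>
    rw [Function.iterate_succ_apply]
    exact ih _ (Q_F0 n _ h)

theorem D0_nil (d : ℂ) (a : R d) : ∃ n : ℕ, (D0 d)^[n] a = 0 := by
  obtain ⟨n, hn⟩ := Q_exists d a a.2
  exact ⟨n, D0_iter d n a hn⟩

theorem D0_ker (d : ℂ) (a : R d) (h : D0 d a = 0) : ∃ p : Polynomial ℂ,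
    (a : B) = Polynomial.aeval x p := by
  have h1 : F0 a = 0 := congrArg Subtype.val h
  obtain ⟨P, hP⟩ := R_expand d a a.2 0 (by
    intro g hg
    obtain ⟨m, s, rfl⟩ := exists_ex g
    have h2 := F0_coeff a (m - 1) (s - 2)
    rw [h1] at h2
    have h3 : ((m : ℂ)) * (a : B).coeff (ex m s) = 0 := by
      have h4 : ex (m - 1 + 1) (s - 2 + 2) = ex m s := by rw [ex_inj]; omega
      rw [h4] at h2
      push_cast at h2
      simpa using h2.symm
    have h5 : (m : ℂ) = 0 := (mul_eq_zero.mp h3).resolve_right hg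
    have h6 : m = 0 := by exact_mod_cast h5
    change m ≤ _
    rw [h6]; simp)
  exact ⟨P 0, by rw [hP]; simp [e]⟩

end D0

section Transport

variable {c d : ℂ} (f : R c ≃ₐ[ℂ] R d)

/-- transported derivation -/
noncomputable def DT : Derivation ℂ (R d) (R d) :=
  Derivation.mk' (f.toLinearMap ∘ₗ (D0 c : R c →ₗ[ℂ] R c) ∘ₗ f.symm.toLinearMap)
    (fun a b => by simp [Derivation.leibniz])

theorem DT_apply (a : R d) : DT f a = f (D0 c (f.symm a)) := rfl

theorem DT_iter (n : ℕ) (a : R d) : (DT f)^[n] a = f ((D0 c)^[n] (f.symm a)) := by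
  induction n generalizing a with
  | zero => simp
  | succ n ih =>
    rw [Function.iterate_succ_apply, ih, DT_apply, Function.iterate_succ_apply]
    simp

theorem DT_nil (a : R d) : ∃ n : ℕ, (DT f)^[n] a = 0 := by
  obtain ⟨n, hn⟩ := D0_nil c (f.symm a)
  exact ⟨n, by rw [DT_iter, hn, map_zero]⟩

theorem DT_x : DT f ⟨x, x_mem d⟩ = 0 := lnd_kills_x _ (DT_nil f)

theorem symm_x : ∃ p : Polynomial ℂ, ((f.symm ⟨x, x_mem d⟩ : R c) : B) = Polynomial.aeval x p := by
  have h := DT_x f
  rw [DT_apply] at h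
  exact D0_ker c _ (by simpa using h)

end Transport

end Pool.Agent.H41.Iso
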