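import Mathlib
import Pool.Agent.H41.IsoE

set_option autoImplicit false

/-! Isomorphic algebras have the same parameter: conclusion. -/

namespace Pool.Agent.H41.Iso

open AddMonoidAlgebra

theorem aeval_x_coeff_ne (p : Polynomial ℂ) (g : G)
    (h : (Polynomial.aeval x p : B).coeff g ≠ 0) : (ofLex g).1 = 0 := by
  induction p using Polynomial.induction_on' with
  | add p q hp hq =>
    by_cases h1 : (Polynomial.aeval x p : B).coeff g = 0
    · refine hq ?_
      intro h2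
      exact h (by rw [map_add, coeff_add, Finsupp.add_apply, h1, h2, add_zero])
    · exact hp h1
  | monomial n a =>
    have h1 := iota_monomial 0 n a
    rw [Polynomial.monomial_zero_left, iota_C] at h1
    rw [h1] at h
    by_contra hne
    apply h
    have h2 : ex ((0 : ℕ) : ℤ) (-(n : ℤ)) ≠ g := by
      rintro rfl
      exact hne rfl
    simp only [coeff_single]
    exact Finsupp.single_eq_of_ne (Ne.symm h2)

section

variable {c d : ℂ} (f : R c ≃ₐ[ℂ] R d)

theorem coe_aeval (c : ℂ) (a : R c) (p : Polynomial ℂ) :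
    ((Polynomial.aeval a p : R c) : B) = Polynomial.aeval (a : B) p :=
  (Polynomial.aeval_algHom_apply (R c).val a p).symm

theorem img_x : ∃ p : Polynomial ℂ, ((f ⟨x, x_mem c⟩ : R d) : B) = Polynomial.aeval x p :=
  symm_x f.symm

theorem img_x_inv {g h : Polynomial ℂ}
    (hg : ((f.symm ⟨x, x_mem d⟩ : R c) : B) = Polynomial.aeval x g)
    (hh : ((f ⟨x, x_mem c⟩ : R d) : B) = Polynomial.aeval x h) :
    g.comp h = Polynomial.X := by
  apply aeval_x_inj
  have h1 : f.symm ⟨x, x_mem d⟩ = Polynomial.aeval (⟨x, x_mem c⟩ : R c) g :=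
    Subtype.ext (by rw [hg, coe_aeval])
  have h2 : f (f.symm ⟨x, x_mem d⟩) = ⟨x, x_mem d⟩ := f.apply_symm_apply _
  rw [h1] at h2
  have h3 : f (Polynomial.aeval (⟨x, x_mem c⟩ : R c) g)
      = Polynomial.aeval (f (⟨x, x_mem c⟩ : R c)) g :=
    (Polynomial.aeval_algHom_apply f.toAlgHom _ g).symm
  rw [h3] at h2
  have h4 := congrArg (fun z : R d => (z : B)) h2
  simp only at h4
  rw [coe_aeval, hh] at h4
  rw [Polynomial.aeval_comp, Polynomial.aeval_X]
  exact h4

theorem img_y : ∃ P0 P1 : Polynomial ℂ, ((f ⟨y, y_mem c⟩ : R d) : B) =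
    Polynomial.aeval x P0 + Polynomial.aeval x P1 * y := by
  obtain ⟨h, hh⟩ := img_x f
  set Y : R d := f ⟨y, y_mem c⟩ with hY
  have h1 : DT f Y = (f ⟨x, x_mem c⟩) ^ 2 := by
    rw [DT_apply, hY, f.symm_apply_apply, ← map_pow]
    congr 1
    exact Subtype.ext F0_y
  have h2 := D_eq_F (DT f) Y
  rw [DT_x, h1, F] at h2
  have h3 : (((f ⟨x, x_mem c⟩ : R d) ^ 2 : R d) : B) = Polynomial.aeval x (h ^ 2) := by
    rw [map_pow, ← hh]; rfl
  have h3' : (((f ⟨x, x_mem c⟩ : R d) ^ 2 : R d) : B) ≠ 0 := by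
    have : (f ⟨x, x_mem c⟩ : R d) ≠ 0 := by
      intro h0
      have h00 := (map_eq_zero_iff f f.injective).mp h0
      exact x_ne_zero (congrArg Subtype.val h00)
    intro h0
    exact pow_ne_zero 2 this (Subtype.ext h0)
  have h4 : (((f ⟨x, x_mem c⟩ : R d) ^ 2 : R d) : B) =
      yi * ((DT f ⟨y, y_mem d⟩ : R d) : B) * E epsy Y := by
    rw [h2]; simp
  have h5 : ((DT f ⟨y, y_mem d⟩ : R d) : B) ≠ 0 := by
    intro h0; rw [h0, mul_zero, zero_mul] at h4; exact h3' h4
  have h6 : E epsy (Y : B) ≠ 0 := by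
    intro h0; rw [h0, mul_zero] at h4; exact h3' h4
  obtain ⟨g1, t1, t1'⟩ := exists_top h5
  obtain ⟨g2, t2, t2'⟩ := exists_top h6
  obtain ⟨m1, s1, rfl⟩ := exists_ex g1
  obtain ⟨m2, s2, rfl⟩ := exists_ex g2
  have hm1 := (top_shape (d := d) _ (DT f ⟨y, y_mem d⟩).2 m1 s1 t1 t1').1
  have hY2 := t2'
  rw [coeff_E, epsy_ex] at hY2
  have hm2 : 0 ≤ m2 := R_nonneg d _ Y.2 _ (right_ne_zero_of_mul hY2)
  have hm2' : m2 ≠ 0 := by
    intro h0; rw [h0] at hY2; simp at hY2
  have hyi : Bd yi (ex (-1) 0) := Bd_single _ _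
  have hyi' : yi.coeff (ex (-1) 0) = 1 := by simp [yi]
  have hcoef : (((f ⟨x, x_mem c⟩ : R d) ^ 2 : R d) : B).coeff
      (ex (-1) 0 + ex m1 s1 + ex m2 s2) ≠ 0 := by
    rw [h4, coeff_mul_top (hyi.mul t1) t2, coeff_mul_top hyi t1, hyi', one_mul]
    exact mul_ne_zero t1' t2'
  rw [h3] at hcoef
  have hz := aeval_x_coeff_ne _ _ hcoef
  have hz' : -1 + m1 + m2 = 0 := hz
  have hm21 : m2 = 1 := by omega
  subst hm21
  obtain ⟨P, hP⟩ := R_expand d Y Y.2 1 (by
    intro g hg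
    obtain ⟨m, s, rfl⟩ := exists_ex g
    by_contra hlt
    have hm : 2 ≤ m := by
      have : ¬ m ≤ ((1 : ℕ) : ℤ) := hlt
      push_cast at this
      omega
    have h7 : (E epsy (Y : B)).coeff (ex m s) ≠ 0 := by
      rw [coeff_E, epsy_ex]
      refine mul_ne_zero ?_ hg
      exact_mod_cast (by omega : m ≠ 0)
    have h8 := t2.le_of_coeff_ne h7
    rw [ex_le] at h8
    omega)
  refine ⟨P 0, P 1, ?_⟩
  rw [hP, Finset.sum_range_succ, Finset.sum_range_one]
  simp [e]

theorem fd_iota (d : ℂ) : fd d = iota (Polynomial.X ^ 3 + Polynomial.C (Polynomial.C d)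
    - Polynomial.C (Polynomial.C d * Polynomial.X)
    - Polynomial.C (Polynomial.C d * Polynomial.X) * Polynomial.X) := by
  have hKc : iota (Polynomial.C (Polynomial.C d)) = K d := by
    rw [iota_C, Polynomial.aeval_C]
  have hx : iota (Polynomial.C Polynomial.X) = x := by rw [iota_C, Polynomial.aeval_X]
  simp only [map_sub, map_add, map_mul, map_pow, hx, iota_X, hKc, fd]
  ring

end

end Pool.Agent.H41.Iso
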