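import Mathlib
import Pool.Agent.H41.IsoF

set_option autoImplicit false

/-! Comparison of coefficients. -/

namespace Pool.Agent.H41.Iso

open AddMonoidAlgebra Polynomial

/-- The pure polynomial comparison. -/
theorem poly_compare {c d al : ℂ} {h P0 p0 p1 p2 p3 : ℂ[X]} (hc : c ≠ 0) (hal0 : al ≠ 0)
    (hdeg : h.natDegree = 1)
    (hid : C (h ^ 2) * (C (X ^ 2 * p0) + C (X ^ 2 * p1) * X + C (X ^ 2 * p2) * X ^ 2 +
      C p3 * (X ^ 3 + C (C d) - C (C d * X) - C (C d * X) * X)) =
      C (X ^ 2) * ((C P0 + C (C al) * X) ^ 3 + C (C c) - C (C c * h)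
          - C (C c * h) * (C P0 + C (C al) * X))) : c = d := by
  obtain ⟨lam', mu, hlam⟩ : ∃ l m : ℂ, h = C l * X + C m :=
    ⟨_, _, eq_X_add_C_of_natDegree_le_one hdeg.le⟩
  have hlam0 : lam' ≠ 0 := by
    rintro rfl
    rw [hlam] at hdeg
    simp at hdeg
  obtain ⟨a0, ha0⟩ : ∃ a0 : ℂ[X], a0 = h ^ 2 * (X ^ 2 * p0) +
      h ^ 2 * p3 * (C d - C d * X) -
      X ^ 2 * (P0 ^ 3 + C c - C c * h - C c * h * P0) := ⟨_, rfl⟩
  obtain ⟨a1, ha1⟩ : ∃ a1 : ℂ[X], a1 = h ^ 2 * (X ^ 2 * p1) -
      h ^ 2 * p3 * (C d * X) - X ^ 2 * (3 * P0 ^ 2 * C al - C c * h * C al) :=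
    ⟨_, rfl⟩
  obtain ⟨a2, ha2⟩ : ∃ a2 : ℂ[X], a2 = h ^ 2 * (X ^ 2 * p2) -
      X ^ 2 * (3 * P0 * C al ^ 2) := ⟨_, rfl⟩
  obtain ⟨a3, ha3⟩ : ∃ a3 : ℂ[X], a3 = h ^ 2 * p3 - X ^ 2 * C al ^ 3 := ⟨_, rfl⟩
  have hsum : C a0 + C a1 * X + C a2 * X ^ 2 + C a3 * X ^ 3 = 0 := by
    rw [ha0, ha1, ha2, ha3]
    have h3 : (C (3 : ℂ[X])) = (3 : ℂ[X][X]) := map_ofNat C 3
    simp only [map_add, map_sub, map_mul, map_pow, h3] at hid ⊢
    linear_combination hid
  have z0 : a0 = 0 := by
    have := congrArg (fun q => Polynomial.coeff q 0) hsum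
    simpa [coeff_X, coeff_X_pow, coeff_C] using this
  have z1 : a1 = 0 := by
    have := congrArg (fun q => Polynomial.coeff q 1) hsum
    simpa [coeff_X, coeff_X_pow, coeff_C] using this
  have z2 : a2 = 0 := by
    have := congrArg (fun q => Polynomial.coeff q 2) hsum
    simpa [coeff_X, coeff_X_pow, coeff_C] using this
  have z3 : a3 = 0 := by
    have := congrArg (fun q => Polynomial.coeff q 3) hsum
    simpa [coeff_X, coeff_X_pow, coeff_C] using this
  rw [z0] at ha0
  rw [z1] at ha1
  rw [z2] at ha2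
  rw [z3] at ha3
  -- `mu = 0`
  have hmu : mu = 0 := by
    have := congrArg (eval (-mu / lam')) ha3
    rw [hlam] at this
    simp only [eval_zero, eval_sub, eval_mul, eval_pow, eval_add, eval_C, eval_X] at this
    have h1 : lam' * (-mu / lam') + mu = 0 := by field_simp; ring
    rw [h1] at this
    have h2 : (-mu / lam') ^ 2 * al ^ 3 = 0 := by linear_combination this
    have h3 := (mul_eq_zero.mp h2).resolve_right (pow_ne_zero _ hal0)
    have h4 : -mu / lam' = 0 := by simpa using h3
    rcases div_eq_zero_iff.mp h4 with h5 | h5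
    · exact neg_eq_zero.mp h5
    · exact absurd h5 hlam0
  have hX : (X ^ 2 : ℂ[X]) ≠ 0 := pow_ne_zero _ X_ne_zero
  have b2 : h ^ 2 * p2 = 3 * P0 * C al ^ 2 := by
    refine mul_left_cancel₀ hX ?_
    linear_combination -ha2
  have b1 : h ^ 2 * p1 - C al ^ 3 * (C d * X) =
      3 * P0 ^ 2 * C al - C c * h * C al := by
    refine mul_left_cancel₀ hX ?_
    linear_combination -ha1 - (C d * X) * ha3
  have b0 : h ^ 2 * p0 + C al ^ 3 * (C d - C d * X) =
      P0 ^ 3 + C c - C c * h - C c * h * P0 := by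
    refine mul_left_cancel₀ hX ?_
    linear_combination -ha0 + (C d - C d * X) * ha3
  rw [hmu, map_zero, add_zero] at hlam
  have hh0 : eval 0 h = 0 := by rw [hlam]; simp
  have hP00 : eval 0 P0 = 0 := by
    have := congrArg (eval 0) b2
    simp only [eval_mul, eval_pow, hh0, eval_C] at this
    have h1 : eval 0 (3 : ℂ[X]) = 3 := by simp
    rw [h1] at this
    have h2 : eval 0 P0 * (3 * al ^ 2) = 0 := by linear_combination -this
    exact (mul_eq_zero.mp h2).resolve_right
      (mul_ne_zero (by norm_num) (pow_ne_zero _ hal0))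
  have q1 : al ^ 3 * d = c := by
    have := congrArg (eval 0) b0
    simp only [eval_mul, eval_pow, hh0, eval_C,
      eval_add, eval_sub, eval_X, hP00] at this
    linear_combination this
  have dh : derivative h = C lam' := by rw [hlam]; simp
  have q2 : al ^ 3 * d = c * lam' := by
    have := congrArg (fun q => eval 0 (derivative q)) b0
    simp only [derivative_add, derivative_sub, derivative_mul,
      derivative_pow, derivative_C, derivative_X, dh,
      eval_mul, eval_pow, hh0, eval_C,
      eval_add, eval_sub, eval_X, hP00, eval_zero,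
      eval_one] at this
    norm_num at this
    linear_combination this
  have q3 : al ^ 3 * d = c * lam' * al := by
    have := congrArg (fun q => eval 0 (derivative q)) b1
    simp only [derivative_sub, derivative_mul,
      derivative_pow, derivative_C, derivative_X, dh,
      eval_mul, eval_pow, hh0, eval_C,
      eval_add, eval_sub, eval_X, hP00, eval_zero,
      eval_one] at this
    norm_num at this
    linear_combination this
  have r1 : lam' = 1 := by
    have : c * (lam' - 1) = 0 := by linear_combination q1 - q2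
    have := (mul_eq_zero.mp this).resolve_left hc
    linear_combination this
  have r2 : al = 1 := by
    rw [r1] at q3
    have : c * (al - 1) = 0 := by linear_combination q1 - q3
    have := (mul_eq_zero.mp this).resolve_left hc
    linear_combination this
  rw [r2] at q1
  linear_combination -q1

end Pool.Agent.H41.Iso
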