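import Mathlib
import Pool.Agent.H41.IsoG

set_option autoImplicit false

/-! Isomorphic algebras have the same parameter: conclusion. -/

namespace Pool.Agent.H41.Iso

open AddMonoidAlgebra

theorem iota_support (W : Polynomial (Polynomial ℂ)) (g : G) (hg : (iota W).coeff g ≠ 0) :
    ∃ j i : ℕ, g = ex j (-i) := by
  induction W using Polynomial.induction_on' with
  | add p q hp hq =>
    by_cases h1 : (iota p).coeff g = 0
    · refine hq ?_
      intro h2
      exact hg (by rw [map_add, coeff_add, Finsupp.add_apply, h1, h2, add_zero])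
    · exact hp h1
  | monomial n a =>
    induction a using Polynomial.induction_on' with
    | add p q hp hq =>
      by_cases h1 : (iota (Polynomial.monomial n p)).coeff g = 0
      · refine hq ?_
        intro h2
        exact hg (by rw [map_add, map_add, coeff_add, Finsupp.add_apply, h1, h2, add_zero])
      · exact hp h1
    | monomial m a =>
      refine ⟨n, m, ?_⟩
      rw [iota_monomial] at hg
      by_contra hne
      apply hg
      simp only [coeff_single]
      exact Finsupp.single_eq_of_ne hne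

theorem iota_deg (W : Polynomial (Polynomial ℂ)) (g : G) (hg : (iota W).coeff g ≠ 0) :
    (ofLex g).1 ≤ (W.natDegree : ℤ) := by
  obtain ⟨j, i, rfl⟩ := iota_support W g hg
  rw [iota_coeff] at hg
  have h1 : W.coeff j ≠ 0 := by
    intro h0; rw [h0] at hg; simp at hg
  have h2 := Polynomial.le_natDegree_of_ne_zero h1
  change (j : ℤ) ≤ _
  exact_mod_cast h2

theorem V_deg {V L : B} {W : Polynomial (Polynomial ℂ)} {h : Polynomial ℂ}
    (hLB : L = Polynomial.aeval x h) (hL0 : L ≠ 0) (hrel : L ^ 2 * V = iota W)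
    (hW : W.natDegree ≤ 3) (g : G) (hg : V.coeff g ≠ 0) : (ofLex g).1 ≤ ((3 : ℕ) : ℤ) := by
  have hV0 : V ≠ 0 := by rintro rfl; simp at hg
  obtain ⟨gV, hV1, hV2⟩ := exists_top hV0
  obtain ⟨gL, hL1, hL2⟩ := exists_top hL0
  have hgL : (ofLex gL).1 = 0 := aeval_x_coeff_ne h gL (by rw [← hLB]; exact hL2)
  have h1 : (L * (L * V)).coeff (gL + (gL + gV)) ≠ 0 := by
    rw [coeff_mul_top hL1 (hL1.mul hV1), coeff_mul_top hL1 hV1]
    exact mul_ne_zero hL2 (mul_ne_zero hL2 hV2)
  rw [show L * (L * V) = L ^ 2 * V by ring, hrel] at h1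
  have h2 := iota_deg W _ h1
  have hle := hV1.le_of_coeff_ne hg
  obtain ⟨mV, sV, rfl⟩ := exists_ex gV
  obtain ⟨mL, sL, rfl⟩ := exists_ex gL
  obtain ⟨m, s, rfl⟩ := exists_ex g
  rw [ex_le] at hle
  change mL + (mL + mV) ≤ _ at h2
  change mL = 0 at hgL
  change m ≤ _
  push_cast
  omega

theorem Wdeg (al c : ℂ) (h P0 : Polynomial ℂ) :
    (((Polynomial.C P0 + Polynomial.C (Polynomial.C al) * Polynomial.X) ^ 3
      + Polynomial.C (Polynomial.C c) - Polynomial.C (Polynomial.C c * h)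
      - Polynomial.C (Polynomial.C c * h) * (Polynomial.C P0 + Polynomial.C (Polynomial.C al) *
        Polynomial.X) : Polynomial (Polynomial ℂ))).natDegree ≤ 3 := by
  compute_degree

theorem compare_B {c d al : ℂ} {h P0 : Polynomial ℂ} (hc : c ≠ 0) (hal0 : al ≠ 0)
    (hdeg : h.natDegree = 1) {V : B} (hV : V ∈ R d)
    (hrel : (iota (Polynomial.C h)) ^ 2 * V = iota (
      (Polynomial.C P0 + Polynomial.C (Polynomial.C al) * Polynomial.X) ^ 3
      + Polynomial.C (Polynomial.C c) - Polynomial.C (Polynomial.C c * h)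
      - Polynomial.C (Polynomial.C c * h) * (Polynomial.C P0 + Polynomial.C (Polynomial.C al) *
        Polynomial.X))) : c = d := by
  have hL0 : iota (Polynomial.C h) ≠ 0 := by
    intro h0
    have h1 := iota_inj (h0.trans (map_zero iota).symm)
    rw [Polynomial.C_eq_zero] at h1
    rw [h1] at hdeg
    simp at hdeg
  obtain ⟨P, hPV⟩ := R_expand d V hV 3 (V_deg (iota_C h) hL0 hrel (Wdeg al c h P0))
  have hVe : V = iota (Polynomial.C (P 0)) + iota (Polynomial.C (P 1)) * y +
      iota (Polynomial.C (P 2)) * y ^ 2 + iota (Polynomial.C (P 3)) * vd d := by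
    rw [hPV, iota_C, iota_C, iota_C, iota_C]
    simp [Finset.sum_range_succ, e]
  refine poly_compare (c := c) (d := d) (al := al) (h := h) (P0 := P0) (p0 := P 0) (p1 := P 1)
    (p2 := P 2) (p3 := P 3) hc hal0 hdeg ?_
  apply iota_inj
  have hx : iota (Polynomial.C Polynomial.X) = x := by rw [iota_C, Polynomial.aeval_X]
  generalize (Polynomial.C P0 + Polynomial.C (Polynomial.C al) * Polynomial.X) ^ 3
      + Polynomial.C (Polynomial.C c) - Polynomial.C (Polynomial.C c * h)
      - Polynomial.C (Polynomial.C c * h) * (Polynomial.C P0 + Polynomial.C (Polynomial.C al) *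
        Polynomial.X) = W at hrel ⊢
  rw [map_mul iota _ W, ← hrel, map_mul iota, map_add iota, map_add iota, map_add iota,
    map_mul iota (Polynomial.C (P 3)), ← fd_iota, ← x2_mul_vd, hVe, Polynomial.C_pow,
    Polynomial.C_mul, Polynomial.C_mul, Polynomial.C_mul, Polynomial.C_pow]
  simp only [map_mul iota, map_pow iota, hx, iota_X]
  ring

section

variable {c d : ℂ} (f : R c ≃ₐ[ℂ] R d)

theorem natDegree_one {h g : Polynomial ℂ} (hgh : g.comp h = Polynomial.X) :
    h.natDegree = 1 := by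
  have := congrArg Polynomial.natDegree hgh
  rw [Polynomial.natDegree_comp, Polynomial.natDegree_X] at this
  exact Nat.eq_one_of_mul_eq_one_left this

theorem unit_P1 {h P0 P1 Q0 Q1 : Polynomial ℂ}
    (hh : ((f ⟨x, x_mem c⟩ : R d) : B) = Polynomial.aeval x h)
    (hP : ((f ⟨y, y_mem c⟩ : R d) : B) = Polynomial.aeval x P0 + Polynomial.aeval x P1 * y)
    (hQ : ((f.symm ⟨y, y_mem d⟩ : R c) : B) =
      Polynomial.aeval x Q0 + Polynomial.aeval x Q1 * y) : Q1.comp h * P1 = 1 := by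
  have h1 : f.symm ⟨y, y_mem d⟩ = Polynomial.aeval (⟨x, x_mem c⟩ : R c) Q0 +
      Polynomial.aeval (⟨x, x_mem c⟩ : R c) Q1 * ⟨y, y_mem c⟩ := by
    apply Subtype.ext
    rw [hQ]
    change _ = ((Polynomial.aeval (⟨x, x_mem c⟩ : R c) Q0 : R c) : B) +
      ((Polynomial.aeval (⟨x, x_mem c⟩ : R c) Q1 : R c) : B) * y
    rw [coe_aeval, coe_aeval]
  have h2 : f (f.symm ⟨y, y_mem d⟩) = ⟨y, y_mem d⟩ := f.apply_symm_apply _
  rw [h1, map_add, map_mul] at h2
  have h3 : ∀ q : Polynomial ℂ, f (Polynomial.aeval (⟨x, x_mem c⟩ : R c) q)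
      = Polynomial.aeval (f (⟨x, x_mem c⟩ : R c)) q := fun q =>
    (Polynomial.aeval_algHom_apply f.toAlgHom _ q).symm
  rw [h3, h3] at h2
  have h4 := congrArg (fun z : R d => (z : B)) h2
  change ((Polynomial.aeval (f ⟨x, x_mem c⟩ : R d) Q0 : R d) : B) +
    ((Polynomial.aeval (f ⟨x, x_mem c⟩ : R d) Q1 : R d) : B) * ((f ⟨y, y_mem c⟩ : R d) : B)
    = y at h4
  rw [coe_aeval, coe_aeval, hh, hP, ← Polynomial.aeval_comp, ← Polynomial.aeval_comp] at h4
  have h5 : iota (Polynomial.C (Q0.comp h) + Polynomial.C (Q1.comp h) *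
      (Polynomial.C P0 + Polynomial.C P1 * Polynomial.X)) = iota Polynomial.X := by
    rw [map_add, map_mul, map_add, map_mul, iota_C, iota_C, iota_C, iota_C, iota_X]
    exact h4
  have h6 := congrArg (fun q => Polynomial.coeff q 1) (iota_inj h5)
  simp only [Polynomial.coeff_add, Polynomial.coeff_C_mul, Polynomial.coeff_X_one] at h6
  simpa [Polynomial.coeff_C] using h6

include f in
theorem param_eq (hc : c ≠ 0) : c = d := by
  obtain ⟨g, hg⟩ := img_x f.symm
  obtain ⟨h, hh⟩ := img_x f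
  have hgh := img_x_inv f hg hh
  have hdeg := natDegree_one hgh
  obtain ⟨P0, P1, hP⟩ := img_y f
  obtain ⟨Q0, Q1, hQ⟩ := img_y f.symm
  have hunit := unit_P1 f hh hP hQ
  obtain ⟨al, hal, hal'⟩ := Polynomial.isUnit_iff.mp (IsUnit.of_mul_eq_one_right _ hunit)
  have hal0 : al ≠ 0 := hal.ne_zero
  have hrel : (f ⟨x, x_mem c⟩) ^ 2 * f ⟨vd c, v_mem c⟩ =
      (f ⟨y, y_mem c⟩) ^ 3 + algebraMap ℂ (R d) c - algebraMap ℂ (R d) c * f ⟨x, x_mem c⟩
        - algebraMap ℂ (R d) c * (f ⟨x, x_mem c⟩ * f ⟨y, y_mem c⟩) := by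
    have h1 : (⟨x, x_mem c⟩ : R c) ^ 2 * ⟨vd c, v_mem c⟩ = ⟨y, y_mem c⟩ ^ 3
        + algebraMap ℂ (R c) c - algebraMap ℂ (R c) c * ⟨x, x_mem c⟩
        - algebraMap ℂ (R c) c * (⟨x, x_mem c⟩ * ⟨y, y_mem c⟩) := by
      apply Subtype.ext
      change x ^ 2 * vd c = y ^ 3 + K c - K c * x - K c * (x * y)
      rw [x2_mul_vd, fd]
    have h2 := congrArg f h1
    rw [map_sub, map_sub, map_add, map_mul, map_mul, map_mul, map_mul, map_pow, map_pow,
      f.commutes] at h2
    exact h2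
  have hrelB : ((f ⟨x, x_mem c⟩ : R d) : B) ^ 2 * ((f ⟨vd c, v_mem c⟩ : R d) : B) =
      ((f ⟨y, y_mem c⟩ : R d) : B) ^ 3 + K c - K c * ((f ⟨x, x_mem c⟩ : R d) : B)
        - K c * (((f ⟨x, x_mem c⟩ : R d) : B) * ((f ⟨y, y_mem c⟩ : R d) : B)) :=
    congrArg (fun z : R d => (z : B)) hrel
  refine compare_B hc hal0 hdeg (f ⟨vd c, v_mem c⟩ : R d).2 (P0 := P0) ?_
  have hKc : iota (Polynomial.C (Polynomial.C c)) = K c := by
    rw [iota_C, Polynomial.aeval_C]
  have hY : ((f ⟨y, y_mem c⟩ : R d) : B) =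
      iota (Polynomial.C P0 + Polynomial.C (Polynomial.C al) * Polynomial.X) := by
    rw [hP, ← hal', map_add, map_mul, iota_C, iota_C, iota_X]
  rw [hh, ← iota_C, hY, ← hKc] at hrelB
  rw [hrelB]
  simp only [map_sub iota, map_add iota, map_mul iota, map_pow iota, map_mul Polynomial.C]
  ring

end

end Pool.Agent.H41.Iso
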