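import Mathlib
import Pool.Agent.H41.IsoH

set_option autoImplicit false

/-! The polynomial `p = x ^ 2 v - (1 + x + x y) y ^ 3`: irreducibility, coordinate rings of the
fibres, contractibility of the zero fibre.  Variables: `v = X 0`, `x = X 1`, `y = X 2`. -/

namespace Pool.Agent.H41.Iso

open MvPolynomial

/-- the polynomial -/
noncomputable def pp : MvPolynomial (Fin 3) ℂ :=
  X 1 ^ 2 * X 0 - (1 + X 1 + X 1 * X 2) * X 2 ^ 3

theorem pp_irred (c : ℂ) : Irreducible (pp - C c) := by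
  rw [← MulEquiv.irreducible_iff (finSuccEquiv ℂ 2).toMulEquiv]
  have h1 : (finSuccEquiv ℂ 2).toMulEquiv (pp - C c) =
      Polynomial.C (X 0 ^ 2 : MvPolynomial (Fin 2) ℂ) * Polynomial.X +
      Polynomial.C (-((1 + X 0 + X 0 * X 1) * X 1 ^ 3 + C c)) := by
    change finSuccEquiv ℂ 2 (pp - C c) = _
    have e1 : finSuccEquiv ℂ 2 (X 1) = Polynomial.C (X 0) := finSuccEquiv_X_succ (j := 0)
    have e2 : finSuccEquiv ℂ 2 (X 2) = Polynomial.C (X 1) := finSuccEquiv_X_succ (j := 1)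
    have e3 : finSuccEquiv ℂ 2 (C c) = Polynomial.C (C c) := by
      have := (finSuccEquiv ℂ 2).commutes c
      simpa [MvPolynomial.algebraMap_eq] using this
    rw [pp]
    simp only [map_sub, map_mul, map_pow, map_add, map_one, e1, e2, e3, finSuccEquiv_X_zero,
      map_neg]
    ring
  rw [h1]
  apply Polynomial.irreducible_C_mul_X_add_C
  · exact pow_ne_zero _ (X_ne_zero _)
  · apply IsRelPrime.pow_left
    rw [(X_prime (R := ℂ) (σ := Fin 2)).irreducible.isRelPrime_iff_not_dvd, dvd_neg]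
    rintro ⟨q, hq⟩
    have h2 := congrArg (eval ![(0 : ℂ), 0]) hq
    have h3 := congrArg (eval ![(0 : ℂ), 1]) hq
    simp at h2 h3
    rw [h2] at h3
    norm_num at h3

/-- evaluation in Laurent polynomials -/
noncomputable def Th (c : ℂ) : MvPolynomial (Fin 3) ℂ →ₐ[ℂ] B :=
  aeval ![xi ^ 2 * ((1 + x + x * y) * y ^ 3 + K c), x, y]

theorem Th_0 (c : ℂ) : Th c (X 0) = xi ^ 2 * ((1 + x + x * y) * y ^ 3 + K c) := by simp [Th]
theorem Th_1 (c : ℂ) : Th c (X 1) = x := by simp [Th]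
theorem Th_2 (c : ℂ) : Th c (X 2) = y := by simp [Th]

theorem Th_pp (c : ℂ) : Th c (pp - C c) = 0 := by
  have h := x_mul_xi
  have hC : Th c (C c) = K c := by rw [← MvPolynomial.algebraMap_eq]; exact (Th c).commutes c
  rw [pp]
  simp only [map_sub, map_mul, map_pow, map_add, map_one, Th_0, Th_1, Th_2, hC]
  have h2 : x ^ 2 * (xi ^ 2 * ((1 + x + x * y) * y ^ 3 + K c)) = (x * xi) ^ 2 *
    ((1 + x + x * y) * y ^ 3 + K c) := by ring
  rw [h2, h]
  ring

theorem v0_eq (c : ℂ) : xi ^ 2 * ((1 + x + x * y) * y ^ 3 + K c) =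
    (1 + x + x * y) * vd c + K c * (1 + y) ^ 2 := by
  have h5 : (x ^ 2 : B) ≠ 0 := pow_ne_zero _ x_ne_zero
  refine mul_left_cancel₀ h5 ?_
  have h2 : x ^ 2 * (xi ^ 2 * ((1 + x + x * y) * y ^ 3 + K c)) = (x * xi) ^ 2 *
    ((1 + x + x * y) * y ^ 3 + K c) := by ring
  have h3 : x ^ 2 * ((1 + x + x * y) * vd c + K c * (1 + y) ^ 2) =
    (1 + x + x * y) * (x ^ 2 * vd c) + x ^ 2 * (K c * (1 + y) ^ 2) := by ring
  rw [h2, h3, x_mul_xi, x2_mul_vd, fd]
  ring

theorem vd_eq' (c : ℂ) : vd c = (1 - x - x * y) * (xi ^ 2 * ((1 + x + x * y) * y ^ 3 + K c)) +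
    (1 + y) ^ 2 * y ^ 3 := by
  have h5 : (x ^ 2 : B) ≠ 0 := pow_ne_zero _ x_ne_zero
  refine mul_left_cancel₀ h5 ?_
  have h3 : x ^ 2 * ((1 - x - x * y) * (xi ^ 2 * ((1 + x + x * y) * y ^ 3 + K c)) +
    (1 + y) ^ 2 * y ^ 3) =
    (1 - x - x * y) * ((x * xi) ^ 2 * ((1 + x + x * y) * y ^ 3 + K c)) +
      x ^ 2 * ((1 + y) ^ 2 * y ^ 3) := by ring
  rw [h3, x_mul_xi, x2_mul_vd, fd]
  ring

theorem Th_range (c : ℂ) : (Th c).range = R c := by
  apply le_antisymm
  · rw [Th, ← Algebra.adjoin_range_eq_range_aeval]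
    apply Algebra.adjoin_le
    rintro z ⟨i, rfl⟩
    fin_cases i
    · change xi ^ 2 * ((1 + x + x * y) * y ^ 3 + K c) ∈ R c
      rw [v0_eq]
      have hx := x_mem c
      have hy := y_mem c
      exact add_mem (mul_mem (add_mem (add_mem (one_mem _) hx) (mul_mem hx hy)) (v_mem c))
        (mul_mem ((R c).algebraMap_mem c) (pow_mem (add_mem (one_mem _) hy) 2))
    · exact x_mem c
    · exact y_mem c
  · apply Algebra.adjoin_le
    have hx : x ∈ (Th c).range := ⟨X 1, Th_1 c⟩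
    have hy : y ∈ (Th c).range := ⟨X 2, Th_2 c⟩
    have hv : xi ^ 2 * ((1 + x + x * y) * y ^ 3 + K c) ∈ (Th c).range := ⟨X 0, Th_0 c⟩
    rintro z (rfl | rfl | rfl)
    · exact hx
    · exact hy
    · rw [vd_eq']
      exact add_mem (mul_mem (sub_mem (sub_mem (one_mem _) hx) (mul_mem hx hy)) hv)
        (mul_mem (pow_mem (add_mem (one_mem _) hy) 2) (pow_mem hy 3))

/-- bivariate polynomials inside the trivariate ones -/
noncomputable def emb : Polynomial (Polynomial ℂ) →+* MvPolynomial (Fin 3) ℂ :=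
  Polynomial.eval₂RingHom
    (Polynomial.aeval (X 1) : Polynomial ℂ →ₐ[ℂ] MvPolynomial (Fin 3) ℂ).toRingHom (X 2)

theorem emb_CX : emb (Polynomial.C Polynomial.X) = X 1 := by simp [emb]
theorem emb_X : emb Polynomial.X = X 2 := by simp [emb]
theorem emb_CC (a : ℂ) : emb (Polynomial.C (Polynomial.C a)) = C a := by
  simp [emb]

theorem Th_emb (c : ℂ) (W : Polynomial (Polynomial ℂ)) : Th c (emb W) = iota W := by
  have : ((Th c).toRingHom.comp emb) = iota := by
    apply Polynomial.ringHom_ext'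
    · apply Polynomial.ringHom_ext'
      · ext a
        simp [emb, iota]
      · simp [emb, iota, Th]
    · simp [emb, iota, Th]
  exact congrArg (fun g : Polynomial (Polynomial ℂ) →+* B => g W) this

theorem reduce (c : ℂ) (h : MvPolynomial (Fin 3) ℂ) :
    ∃ (N : ℕ) (W : Polynomial (Polynomial ℂ)), X 1 ^ N * h - emb W ∈ Ideal.span {pp - C c} := by
  induction h using MvPolynomial.induction_on with
  | C a => exact ⟨0, Polynomial.C (Polynomial.C a), by rw [emb_CC]; simp⟩
  | add p q hp hq =>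
    obtain ⟨N1, W1, h1⟩ := hp
    obtain ⟨N2, W2, h2⟩ := hq
    refine ⟨N1 + N2, Polynomial.C Polynomial.X ^ N2 * W1 + Polynomial.C Polynomial.X ^ N1 * W2, ?_⟩
    have : X 1 ^ (N1 + N2) * (p + q) - emb (Polynomial.C Polynomial.X ^ N2 * W1 +
        Polynomial.C Polynomial.X ^ N1 * W2) =
        X 1 ^ N2 * (X 1 ^ N1 * p - emb W1) + X 1 ^ N1 * (X 1 ^ N2 * q - emb W2) := by
      simp only [map_add, map_mul, map_pow, emb_CX]
      ring
    rw [this]
    exact add_mem (Ideal.mul_mem_left _ _ h1) (Ideal.mul_mem_left _ _ h2)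
  | mul_X p i hp =>
    obtain ⟨N, W, h1⟩ := hp
    fin_cases i
    · refine ⟨N + 2, W * ((1 + Polynomial.C Polynomial.X + Polynomial.C Polynomial.X *
        Polynomial.X) * Polynomial.X ^ 3 + Polynomial.C (Polynomial.C c)), ?_⟩
      have : X 1 ^ (N + 2) * (p * X 0) - emb (W * ((1 + Polynomial.C Polynomial.X +
        Polynomial.C Polynomial.X *
        Polynomial.X) * Polynomial.X ^ 3 + Polynomial.C (Polynomial.C c))) =
        X 1 ^ 2 * X 0 * (X 1 ^ N * p - emb W) + emb W * (pp - C c) := by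
        simp only [map_add, map_mul, map_pow, emb_CX, emb_X, emb_CC, map_one, pp]
        ring
      change X 1 ^ (N + 2) * (p * X 0) - _ ∈ _
      rw [this]
      exact add_mem (Ideal.mul_mem_left _ _ h1)
        (Ideal.mul_mem_left _ _ (Ideal.subset_span rfl))
    · refine ⟨N, W * Polynomial.C Polynomial.X, ?_⟩
      have : X 1 ^ N * (p * X 1) - emb (W * Polynomial.C Polynomial.X) =
        X 1 * (X 1 ^ N * p - emb W) := by
        simp only [map_mul, emb_CX]; ring
      change X 1 ^ N * (p * X 1) - _ ∈ _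
      rw [this]
      exact Ideal.mul_mem_left _ _ h1
    · refine ⟨N, W * Polynomial.X, ?_⟩
      have : X 1 ^ N * (p * X 2) - emb (W * Polynomial.X) =
        X 2 * (X 1 ^ N * p - emb W) := by
        simp only [map_mul, emb_X]; ring
      change X 1 ^ N * (p * X 2) - _ ∈ _
      rw [this]
      exact Ideal.mul_mem_left _ _ h1

theorem span_le_ker (c : ℂ) : Ideal.span {pp - C c} ≤ RingHom.ker (Th c) := by
  rw [Ideal.span_le]
  rintro z (rfl : z = _)
  exact Th_pp c

theorem Th_ker (c : ℂ) : RingHom.ker (Th c) = Ideal.span {pp - C c} := by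
  apply le_antisymm _ (span_le_ker c)
  intro h hh
  have hprime : (Ideal.span {pp - C c}).IsPrime := by
    rw [Ideal.span_singleton_prime (pp_irred c).ne_zero]
    exact (pp_irred c).prime
  obtain ⟨N, W, hW⟩ := reduce c h
  have h1 : Th c (X 1 ^ N * h - emb W) = 0 := span_le_ker c hW
  rw [map_sub, map_mul, (RingHom.mem_ker.mp hh), mul_zero, Th_emb, zero_sub, neg_eq_zero] at h1
  have h2 : W = 0 := iota_inj (h1.trans (map_zero iota).symm)
  rw [h2, map_zero, sub_zero] at hW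
  rcases hprime.mem_or_mem hW with h3 | h3
  · exfalso
    have h4 := hprime.mem_of_pow_mem N h3
    have h5 : Th c (X 1) = 0 := span_le_ker c h4
    rw [Th_1] at h5
    exact x_ne_zero h5
  · exact h3

/-- coordinate ring of the fibre -/
noncomputable def fibEquiv (c : ℂ) :
    (MvPolynomial (Fin 3) ℂ ⧸ Ideal.span {pp - C c}) ≃ₐ[ℂ] R c :=
  (Ideal.quotientEquivAlgOfEq ℂ (by
    rw [← Th_ker c]
    ext z
    simp [RingHom.mem_ker, Subtype.ext_iff])).trans
    ((Ideal.quotientKerAlgEquivOfSurjective (f := (Th c).rangeRestrict)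
      (Th c).rangeRestrict_surjective).trans (Subalgebra.equivOfEq _ _ (Th_range c)))

theorem fib_not_iso {c d : ℂ} (hc : c ≠ 0) (hcd : c ≠ d) :
    ¬ Nonempty ((MvPolynomial (Fin 3) ℂ ⧸ Ideal.span {pp - C c}) ≃ₐ[ℂ]
          (MvPolynomial (Fin 3) ℂ ⧸ Ideal.span {pp - C d})) := by
  rintro ⟨e⟩
  exact hcd (param_eq (((fibEquiv c).symm.trans e).trans (fibEquiv d)) hc)

/-! ### The zero fibre is contractible -/

theorem eval_pp (z : Fin 3 → ℂ) :
    eval z pp = z 1 ^ 2 * z 0 - (1 + z 1 + z 1 * z 2) * z 2 ^ 3 := by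
  simp [pp]

/-- the cone `x ^ 2 v = y ^ 3` -/
def cone : Set (Fin 3 → ℂ) := {z | z 1 ^ 2 * z 0 = z 2 ^ 3}

/-- the homeomorphism onto the cone -/
noncomputable def toCone : {z : Fin 3 → ℂ | eval z pp = 0} ≃ₜ cone where
  toFun z := ⟨![(1 - z.1 1 - z.1 1 * z.1 2) * z.1 0 + (1 + z.1 2) ^ 2 * z.1 2 ^ 3, z.1 1, z.1 2],
    by
      have h : eval z.1 pp = 0 := z.2
      rw [eval_pp] at h
      change z.1 1 ^ 2 * ((1 - z.1 1 - z.1 1 * z.1 2) * z.1 0 + (1 + z.1 2) ^ 2 * z.1 2 ^ 3)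
        = z.1 2 ^ 3
      linear_combination (1 - z.1 1 - z.1 1 * z.1 2) * h⟩
  invFun z := ⟨![(1 + z.1 1 + z.1 1 * z.1 2) * z.1 0, z.1 1, z.1 2],
    by
      have h : z.1 1 ^ 2 * z.1 0 = z.1 2 ^ 3 := z.2
      change eval _ pp = 0
      rw [eval_pp]
      change z.1 1 ^ 2 * ((1 + z.1 1 + z.1 1 * z.1 2) * z.1 0) -
        (1 + z.1 1 + z.1 1 * z.1 2) * z.1 2 ^ 3 = 0
      linear_combination (1 + z.1 1 + z.1 1 * z.1 2) * h⟩
  left_inv := by
    rintro ⟨z, hz⟩
    have h : eval z pp = 0 := hz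
    rw [eval_pp] at h
    apply Subtype.ext
    funext i
    fin_cases i
    · change (1 + z 1 + z 1 * z 2) * ((1 - z 1 - z 1 * z 2) * z 0 +
        (1 + z 2) ^ 2 * z 2 ^ 3) = z 0
      linear_combination -(1 + z 2) ^ 2 * h
    · rfl
    · rfl
  right_inv := by
    rintro ⟨z, hz⟩
    have h : z 1 ^ 2 * z 0 = z 2 ^ 3 := hz
    apply Subtype.ext
    funext i
    fin_cases i
    · change (1 - z 1 - z 1 * z 2) * ((1 + z 1 + z 1 * z 2) * z 0) +
        (1 + z 2) ^ 2 * z 2 ^ 3 = z 0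
      linear_combination -(1 + z 2) ^ 2 * h
    · rfl
    · rfl
  continuous_toFun := by
    have hi : ∀ i : Fin 3, Continuous fun z : {z : Fin 3 → ℂ | eval z pp = 0} => z.1 i :=
      fun i => (continuous_apply i).comp continuous_subtype_val
    apply Continuous.subtype_mk
    apply continuous_pi
    intro i
    fin_cases i
    · exact (((continuous_const.sub (hi 1)).sub ((hi 1).mul (hi 2))).mul (hi 0)).add
        (((continuous_const.add (hi 2)).pow 2).mul ((hi 2).pow 3))
    · exact hi 1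
    · exact hi 2
  continuous_invFun := by
    have hi : ∀ i : Fin 3, Continuous fun z : cone => z.1 i :=
      fun i => (continuous_apply i).comp continuous_subtype_val
    apply Continuous.subtype_mk
    apply continuous_pi
    intro i
    fin_cases i
    · exact (((continuous_const.add (hi 1)).add ((hi 1).mul (hi 2))).mul (hi 0))
    · exact hi 1
    · exact hi 2

theorem cone_contractible : ContractibleSpace cone := by
  apply StarConvex.contractibleSpace (x := (0 : Fin 3 → ℂ))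
  · rw [starConvex_zero_iff]
    intro z hz a _ _
    have h : z 1 ^ 2 * z 0 = z 2 ^ 3 := hz
    change ((a • z) 1) ^ 2 * (a • z) 0 = ((a • z) 2) ^ 3
    simp only [Pi.smul_apply, Complex.real_smul]
    linear_combination (a : ℂ) ^ 3 * h
  · exact ⟨0, by simp [cone]⟩

theorem zero_contractible : ContractibleSpace {z : Fin 3 → ℂ | eval z pp = 0} := by
  have := cone_contractible
  exact toCone.contractibleSpace

end Pool.Agent.H41.Iso
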