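import Pool.Agent.H52.PH.Defs

/-! # `L²` approximation and quadratic integrands (job B3, B4 for MP_6c6114_an) -/

open MeasureTheory Set Metric Filter Topology ContDiff Complex
open scoped ENNReal ComplexConjugate

namespace Pool.Agent.H41.PH

set_option maxHeartbeats 200000

open Pool.Agent.H52.PH

/-- The error density. -/
noncomputable def ed (A B : ℂ →L[ℝ] ℂ) : ℝ := ‖A - B‖ * (‖A - B‖ + 2 * ‖B‖)

theorem ed_nonneg (A B : ℂ →L[ℝ] ℂ) : 0 ≤ ed A B := by unfold ed; positivity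

theorem abs_sq_sub_sq_le {A B : ℂ →L[ℝ] ℂ} {u v : ℝ} (h : |u - v| ≤ ‖A - B‖) (hv : |v| ≤ ‖B‖) :
    |u ^ 2 - v ^ 2| ≤ ed A B := by
  have h1 : |u ^ 2 - v ^ 2| = |u - v| * |u + v| := by rw [← abs_mul]; ring_nf
  rw [h1, ed]
  apply mul_le_mul h _ (abs_nonneg _) (norm_nonneg _)
  calc |u + v| = |(u - v) + 2 * v| := by ring_nf
    _ ≤ |u - v| + |2 * v| := abs_add_le _ _
    _ ≤ ‖A - B‖ + 2 * ‖B‖ := by
      rw [abs_mul, abs_two]
      linarith

theorem abs_jac_sub_le (A B : ℂ →L[ℝ] ℂ) : |jac A - jac B| ≤ ed A B := by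
  have e1 : jac A - jac B = (conj (A 1 - B 1) * A I + conj (B 1) * (A I - B I)).im := by
    simp only [jac, add_im, mul_im, sub_re, sub_im, conj_re, conj_im]
    ring
  rw [e1]
  refine (Complex.abs_im_le_norm _).trans ((norm_add_le _ _).trans ?_)
  rw [norm_mul, norm_mul, RCLike.norm_conj, RCLike.norm_conj]
  have h1 : ‖A 1 - B 1‖ ≤ ‖A - B‖ := by
    simpa using (A - B).le_opNorm 1
  have h2 : ‖A I - B I‖ ≤ ‖A - B‖ := by
    simpa using (A - B).le_opNorm I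
  have h3 : ‖B 1‖ ≤ ‖B‖ := by simpa using B.le_opNorm 1
  have h4 : ‖B I‖ ≤ ‖B‖ := by simpa using B.le_opNorm I
  have h5 : ‖A I‖ ≤ ‖A - B‖ + ‖B‖ := by
    calc ‖A I‖ = ‖(A I - B I) + B I‖ := by ring_nf
      _ ≤ ‖A I - B I‖ + ‖B I‖ := norm_add_le _ _
      _ ≤ _ := add_le_add h2 h4
  unfold ed
  have h6 : ‖A 1 - B 1‖ * ‖A I‖ ≤ ‖A - B‖ * (‖A - B‖ + ‖B‖) :=
    mul_le_mul h1 h5 (norm_nonneg _) (norm_nonneg _)
  have h7 : ‖B 1‖ * ‖A I - B I‖ ≤ ‖B‖ * ‖A - B‖ :=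
    mul_le_mul h3 h2 (norm_nonneg _) (norm_nonneg _)
  nlinarith

/-- Constant for the quadratic form. -/
noncomputable def cq (m : ℝ) : ℝ := 1 / m + (m - 1) / (3 * m ^ 2)

theorem cq_nonneg {m : ℝ} (hm : 1 ≤ m) : 0 ≤ cq m := by
  unfold cq
  have : 0 ≤ (m - 1) / (3 * m ^ 2) := div_nonneg (by linarith) (by positivity)
  positivity

theorem abs_qform_sub_le {m : ℝ} (hm : 1 ≤ m) (A B : ℂ →L[ℝ] ℂ) {r : ℂ} (hr : ‖r‖ ≤ 1) :
    |qform m A r - qform m B r| ≤ cq m * ed A B := by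
  have hc : 0 ≤ (m - 1) / (3 * m ^ 2) := div_nonneg (by linarith) (by positivity)
  have hIr : ‖I * r‖ ≤ 1 := by rwa [norm_mul, norm_I, one_mul]
  have hAB : ‖A (I * r) - B (I * r)‖ ≤ ‖A - B‖ := by
    have := (A - B).le_opNorm (I * r)
    calc ‖A (I * r) - B (I * r)‖ = ‖(A - B) (I * r)‖ := by simp
      _ ≤ ‖A - B‖ * ‖I * r‖ := this
      _ ≤ ‖A - B‖ * 1 := by gcongr
      _ = _ := mul_one _
  have hB : ‖B (I * r)‖ ≤ ‖B‖ := by
    calc ‖B (I * r)‖ ≤ ‖B‖ * ‖I * r‖ := B.le_opNorm _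
      _ ≤ ‖B‖ * 1 := by gcongr
      _ = _ := mul_one _
  have h1 : |‖A (I * r)‖ ^ 2 - ‖B (I * r)‖ ^ 2| ≤ ed A B := by
    apply abs_sq_sub_sq_le
    · exact (abs_norm_sub_norm_le _ _).trans hAB
    · rwa [abs_norm]
  have hre : ∀ u : ℂ, u.re * r.re + u.im * r.im = (conj u * r).re := by
    intro u
    simp [mul_re]
  have h2 : |((A (I * r)).re * r.re + (A (I * r)).im * r.im) ^ 2 -
      ((B (I * r)).re * r.re + (B (I * r)).im * r.im) ^ 2| ≤ ed A B := by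
    apply abs_sq_sub_sq_le
    · rw [hre, hre, ← sub_re, ← sub_mul, ← map_sub]
      refine (Complex.abs_re_le_norm _).trans ?_
      rw [norm_mul, RCLike.norm_conj]
      calc ‖A (I * r) - B (I * r)‖ * ‖r‖ ≤ ‖A - B‖ * 1 := by gcongr
        _ = _ := mul_one _
    · rw [hre]
      refine (Complex.abs_re_le_norm _).trans ?_
      rw [norm_mul, RCLike.norm_conj]
      calc ‖B (I * r)‖ * ‖r‖ ≤ ‖B‖ * 1 := by gcongr
        _ = _ := mul_one _
  have e : qform m A r - qform m B r = 1 / m * (‖A (I * r)‖ ^ 2 - ‖B (I * r)‖ ^ 2) +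
      (m - 1) / (3 * m ^ 2) * (((A (I * r)).re * r.re + (A (I * r)).im * r.im) ^ 2 -
      ((B (I * r)).re * r.re + (B (I * r)).im * r.im) ^ 2) := by
    unfold qform; ring
  rw [e]
  refine (abs_add_le _ _).trans ?_
  rw [abs_mul, abs_mul, abs_of_nonneg hc, abs_of_nonneg (by positivity : (0:ℝ) ≤ 1 / m), cq,
    add_mul]
  have hm0 : (0:ℝ) ≤ 1 / m := by positivity
  exact add_le_add (mul_le_mul_of_nonneg_left h1 hm0) (mul_le_mul_of_nonneg_left h2 hc)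

theorem norm_dir_le (w : ℂ) : ‖w / (‖w‖ : ℝ)‖ ≤ 1 := by
  rw [norm_div, norm_real, norm_norm]
  exact div_self_le_one _

theorem continuous_jac : Continuous jac := by
  unfold jac
  fun_prop

theorem continuous_ed : Continuous (fun p : (ℂ →L[ℝ] ℂ) × (ℂ →L[ℝ] ℂ) => ed p.1 p.2) := by
  unfold ed
  fun_prop

theorem eLpNorm_ed_le {μ : Measure ℂ} {A D : ℂ → ℂ →L[ℝ] ℂ} (hA : MemLp A 2 μ)
    (hD : MemLp D 2 μ) :
    eLpNorm (fun z => ed (A z) (D z)) 1 μ ≤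
      eLpNorm (fun z => A z - D z) 2 μ * (eLpNorm (fun z => A z - D z) 2 μ + 2 * eLpNorm D 2 μ) := by
  have h1 : MemLp (fun z => A z - D z) 2 μ := hA.sub hD
  set a : ℂ → ℝ := fun z => ‖A z - D z‖ with ha
  set d : ℂ → ℝ := fun z => ‖D z‖ with hd
  have hna : eLpNorm a 2 μ = eLpNorm (fun z => A z - D z) 2 μ := eLpNorm_norm _
  have hnd : eLpNorm d 2 μ = eLpNorm D 2 μ := eLpNorm_norm _
  have ha2 : AEStronglyMeasurable a μ := h1.1.norm
  have hd2 : AEStronglyMeasurable d μ := hD.1.norm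
  have hdd : AEStronglyMeasurable ((2 : ℝ) • d) μ := hd2.const_smul 2
  have he : (fun z => ed (A z) (D z)) = a • (a + (2 : ℝ) • d) := by
    funext z
    simp [ed, ha, hd]
  rw [he, ← hna, ← hnd]
  have h3 : eLpNorm (a • (a + (2 : ℝ) • d)) 1 μ ≤ eLpNorm a 2 μ * eLpNorm (a + (2 : ℝ) • d) 2 μ :=
    eLpNorm_smul_le_mul_eLpNorm (ha2.add hdd) ha2
  have h4 : eLpNorm (a + (2 : ℝ) • d) 2 μ ≤ eLpNorm a 2 μ + 2 * eLpNorm d 2 μ := by
    refine (eLpNorm_add_le ha2 hdd (by norm_num)).trans ?_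
    rw [eLpNorm_const_smul, Real.enorm_eq_ofReal (by norm_num), ENNReal.ofReal_ofNat]
  exact h3.trans (mul_le_mul_right h4 _)

theorem tendsto_ed_aux {μ : Measure ℂ} {A : ℕ → ℂ → ℂ →L[ℝ] ℂ} {D : ℂ → ℂ →L[ℝ] ℂ}
    (hA : ∀ n, MemLp (A n) 2 μ) (hD : MemLp D 2 μ)
    (hlim : Tendsto (fun n => eLpNorm (fun z => A n z - D z) 2 μ) atTop (𝓝 0)) :
    Tendsto (fun n => ∫ z, ed (A n z) (D z) ∂μ) atTop (𝓝 0) := by
  have hbound : ∀ n, ‖∫ z, ed (A n z) (D z) ∂μ‖ₑ ≤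
      eLpNorm (fun z => A n z - D z) 2 μ *
        (eLpNorm (fun z => A n z - D z) 2 μ + 2 * eLpNorm D 2 μ) := by
    intro n
    refine (enorm_integral_le_lintegral_enorm _).trans ?_
    rw [← eLpNorm_one_eq_lintegral_enorm]
    exact eLpNorm_ed_le (hA n) hD
  rw [tendsto_zero_iff_enorm_tendsto_zero]
  have hlim2 : Tendsto (fun n => eLpNorm (fun z => A n z - D z) 2 μ *
        (eLpNorm (fun z => A n z - D z) 2 μ + 2 * eLpNorm D 2 μ)) atTop (𝓝 0) := by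
    have h5 : Tendsto (fun n => eLpNorm (fun z => A n z - D z) 2 μ + 2 * eLpNorm D 2 μ) atTop
      (𝓝 (0 + 2 * eLpNorm D 2 μ)) := hlim.add_const _
    have h6 := ENNReal.Tendsto.mul hlim
      (Or.inr (by rw [zero_add]; exact ENNReal.mul_ne_top (by simp) hD.eLpNorm_ne_top)) h5
      (Or.inr (by simp))
    simpa using h6
  exact tendsto_of_tendsto_of_tendsto_of_le_of_le tendsto_const_nhds hlim2
    (fun n => bot_le) hbound

/-- Approximating sequence on a compact set, with all consequences used later. -/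
theorem exists_approx {U K : Set ℂ} (hK : IsCompact K) (hKU : K ⊆ U) {g : ℂ → ℂ}
    {D : ℂ → ℂ →L[ℝ] ℂ} (h : Sob 2 U g D) :
    MemLp D 2 (volume.restrict K) ∧ ∃ φ : ℕ → ℂ → ℂ, (∀ n, ContDiff ℝ ∞ (φ n)) ∧
      (∀ n, IntegrableOn (fun z => ed (fderiv ℝ (φ n) z) (D z)) K) ∧
      Tendsto (fun n => ∫ z in K, ed (fderiv ℝ (φ n) z) (D z)) atTop (𝓝 0) := by
  obtain ⟨φ, hφ, -, hlim⟩ := h.approx K hKU hK
  have hDm : AEStronglyMeasurable D (volume.restrict K) :=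
    h.measD.mono_measure (Measure.restrict_mono hKU le_rfl)
  have hφc : ∀ n, Continuous (fderiv ℝ (φ n)) := fun n => (hφ n).continuous_fderiv (by simp)
  have hφm : ∀ n, MemLp (fderiv ℝ (φ n)) 2 (volume.restrict K) := by
    intro n
    obtain ⟨C, hC⟩ := hK.exists_bound_of_continuousOn (hφc n).continuousOn
    have : IsFiniteMeasure (volume.restrict K) := ⟨by simpa using hK.measure_lt_top⟩
    refine MemLp.of_bound (hφc n).aestronglyMeasurable C ?_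
    rw [ae_restrict_iff' hK.measurableSet]
    exact ae_of_all _ hC
  have hev : ∀ᶠ n in atTop, eLpNorm (fun z => fderiv ℝ (φ n) z - D z) 2 (volume.restrict K) < 1 :=
    hlim.eventually (gt_mem_nhds (by simp))
  obtain ⟨N, hN⟩ := hev.exists_forall_of_atTop
  have hD : MemLp D 2 (volume.restrict K) := by
    have h1 : MemLp (fun z => fderiv ℝ (φ N) z - D z) 2 (volume.restrict K) :=
      ⟨(hφm N).1.sub hDm, (hN N le_rfl).trans (by simp)⟩
    have h2 := (hφm N).sub h1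
    have h3 : (fderiv ℝ (φ N) - fun z => fderiv ℝ (φ N) z - D z) = D := by
      ext1 z
      simp
    rwa [h3] at h2
  refine ⟨hD, φ, hφ, ?_, ?_⟩
  · intro n
    have h1 : MemLp (fun z => fderiv ℝ (φ n) z - D z) 2 (volume.restrict K) := (hφm n).sub hD
    have h2 : MemLp (fun z => ‖fderiv ℝ (φ n) z - D z‖ + 2 * ‖D z‖) 2 (volume.restrict K) :=
      h1.norm.add (hD.norm.const_mul 2)
    exact h1.norm.integrable_mul h2
  · exact tendsto_ed_aux hφm hD hlim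

end Pool.Agent.H41.PH
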