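import Pool.Agent.H41.PHPolar

/-! # Area formula on discs (job B2 for MP_6c6114_an) -/

open MeasureTheory Set Metric Filter Topology ContDiff Complex
open scoped ENNReal ComplexConjugate

namespace Pool.Agent.H41.PH

open Pool.Agent.H52.PH

theorem clm_apply_re_im (D : ℂ →L[ℝ] ℂ) (e : ℂ) : D e = e.re • D 1 + e.im • D I := by
  have : e = e.re • (1 : ℂ) + e.im • I := by
    simp [Complex.re_add_im]
  conv_lhs => rw [this]
  rw [map_add, map_smul, map_smul]

theorem jac_frame (D : ℂ →L[ℝ] ℂ) (e : ℂ) (he : ‖e‖ = 1) (t : ℝ) :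
    (conj (D e) * D (t * I * e)).im = t * jac D := by
  have h1 : e.re ^ 2 + e.im ^ 2 = 1 := by
    have := Complex.sq_norm e
    rw [he, Complex.normSq_apply] at this
    linarith
  rw [clm_apply_re_im D e, clm_apply_re_im D (t * I * e), jac]
  simp only [mul_re, mul_im, add_re, add_im, real_smul, ofReal_re, ofReal_im, I_re, I_im,
    conj_re, conj_im]
  linear_combination (t * ((D 1).re * (D I).im - (D 1).im * (D I).re)) * h1

theorem norm_exp_real (θ : ℝ) : ‖exp (θ * I)‖ = 1 := Complex.norm_exp_ofReal_mul_I θ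

theorem hasDerivAt_cross {A B : ℝ → ℂ} {A' B' : ℂ} {t : ℝ} (hA : HasDerivAt A A' t)
    (hB : HasDerivAt B B' t) : HasDerivAt (fun t => (conj (A t) * B t).im)
      ((conj A' * B t + conj (A t) * B').im) t := by
  have h1 : HasDerivAt (fun t => conj (A t)) (conj A') t := by
    have := (conjCLE.toContinuousLinearMap.hasFDerivAt (x := A t)).comp_hasDerivAt t hA
    exact this
  have h2 := h1.mul hB
  exact (imCLM.hasFDerivAt (x := conj (A t) * B t)).comp_hasDerivAt t h2

theorem hasDerivAt_fst_curve {f : ℝ × ℝ → ℝ} (hf : Differentiable ℝ f) (t θ : ℝ) :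
    HasDerivAt (fun t => f (t, θ)) (fderiv ℝ f (t, θ) (1, 0)) t :=
  (hf (t, θ)).hasFDerivAt.comp_hasDerivAt t ((hasDerivAt_id t).prodMk (hasDerivAt_const t θ))

theorem hasDerivAt_snd_curve {f : ℝ × ℝ → ℝ} (hf : Differentiable ℝ f) (t θ : ℝ) :
    HasDerivAt (fun θ => f (t, θ)) (fderiv ℝ f (t, θ) (0, 1)) θ :=
  (hf (t, θ)).hasFDerivAt.comp_hasDerivAt θ ((hasDerivAt_const θ t).prodMk (hasDerivAt_id θ))

theorem hasDerivAt_ofReal' (t : ℝ) : HasDerivAt (fun t : ℝ => (t : ℂ)) 1 t :=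
  Complex.ofRealCLM.hasDerivAt (x := t)

theorem area_div {φ : ℂ → ℂ} (hφ : ContDiff ℝ ∞ φ) (x : ℂ) (s : ℝ) :
    ∫ t in (0 : ℝ)..s, ∫ θ in (0 : ℝ)..(2 * Real.pi),
        t * jac (fderiv ℝ φ (x + t * exp (θ * I))) =
      (1 / 2) * ∫ θ in (0 : ℝ)..(2 * Real.pi),
        (conj (φ (x + s * exp (θ * I))) *
          fderiv ℝ φ (x + s * exp (θ * I)) (s * I * exp (θ * I))).im := by
  have hφ1 : ContDiff ℝ ∞ (fderiv ℝ φ) := hφ.fderiv_right (by simp)
  set D := fderiv ℝ φ with hD
  set D2 := fderiv ℝ D with hD2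
  have hphi : ∀ z, HasFDerivAt φ (D z) z := fun z =>
    ((hφ.differentiable (by simp)) z).hasFDerivAt
  have hDD : ∀ z, HasFDerivAt D (D2 z) z := fun z =>
    ((hφ1.differentiable (by simp)) z).hasFDerivAt
  have hsymm : ∀ z v w, D2 z v w = D2 z w v := by
    intro z v w
    have := (hφ.contDiffAt (x := z)).isSymmSndFDerivAt (by simp; exact ENat.LEInfty.out)
    exact this v w
  -- the polar point
  set P : ℝ × ℝ → ℂ := fun p => x + p.1 * exp (p.2 * I) with hP
  have ho1 : ContDiff ℝ ∞ (fun p : ℝ × ℝ => ((p.1 : ℝ) : ℂ)) :=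
    Complex.ofRealCLM.contDiff.comp contDiff_fst
  have ho2 : ContDiff ℝ ∞ (fun p : ℝ × ℝ => ((p.2 : ℝ) : ℂ)) :=
    Complex.ofRealCLM.contDiff.comp contDiff_snd
  have he : ContDiff ℝ ∞ (fun p : ℝ × ℝ => exp ((p.2 : ℂ) * I)) :=
    (ho2.mul contDiff_const).cexp
  have hPs : ContDiff ℝ ∞ P := contDiff_const.add (ho1.mul he)
  have hconj : ContDiff ℝ ∞ (fun p : ℝ × ℝ => conj (φ (P p))) :=
    (conjCLE.toContinuousLinearMap.contDiff).comp (hφ.comp hPs)
  set f : ℝ × ℝ → ℝ := fun p => (1 / 2) * (conj (φ (P p)) * D (P p) (p.1 * I * exp (p.2 * I))).im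
    with hf
  set g : ℝ × ℝ → ℝ := fun p => -(1 / 2) * (conj (φ (P p)) * D (P p) (exp (p.2 * I))).im
    with hg
  have hfs : ContDiff ℝ ∞ f := by
    apply contDiff_const.mul
    exact imCLM.contDiff.comp
      (hconj.mul ((hφ1.comp hPs).clm_apply ((ho1.mul contDiff_const).mul he)))
  have hgs : ContDiff ℝ ∞ g := by
    apply contDiff_const.mul
    exact imCLM.contDiff.comp (hconj.mul ((hφ1.comp hPs).clm_apply he))
  have hfd := hfs.differentiable (by simp)
  have hgd := hgs.differentiable (by simp)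
  -- derivatives of the polar point
  have hP1 : ∀ t θ : ℝ, HasDerivAt (fun t : ℝ => P (t, θ)) (exp (θ * I)) t := by
    intro t θ
    have := ((hasDerivAt_ofReal' t).mul_const (exp (θ * I))).const_add x
    simpa [hP] using this
  have hE2 : ∀ θ : ℝ, HasDerivAt (fun θ : ℝ => exp (θ * I)) (I * exp (θ * I)) θ := by
    intro θ
    have := ((hasDerivAt_ofReal' θ).mul_const I).cexp
    simpa [mul_comm] using this
  have hP2 : ∀ t θ : ℝ, HasDerivAt (fun θ : ℝ => P (t, θ)) (t * I * exp (θ * I)) θ := by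
    intro t θ
    have := ((hE2 θ).const_mul (t : ℂ)).const_add x
    simpa [hP, mul_assoc] using this
  have hdiv : ∀ t θ : ℝ, fderiv ℝ f (t, θ) (1, 0) + fderiv ℝ g (t, θ) (0, 1) =
      t * jac (D (x + t * exp (θ * I))) := by
    intro t θ
    have a1 : HasDerivAt (fun t : ℝ => φ (P (t, θ))) (D (P (t, θ)) (exp (θ * I))) t :=
      (hphi (P (t, θ))).comp_hasDerivAt t (hP1 t θ)
    have a2 : HasDerivAt (fun t : ℝ => D (P (t, θ))) (D2 (P (t, θ)) (exp (θ * I))) t :=
      (hDD (P (t, θ))).comp_hasDerivAt t (hP1 t θ)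
    have a3 : HasDerivAt (fun t : ℝ => (t : ℂ) * I * exp (θ * I)) (I * exp (θ * I)) t := by
      have := ((hasDerivAt_ofReal' t).mul_const I).mul_const (exp (θ * I))
      simpa using this
    have a4 := a2.clm_apply a3
    have a5 := (hasDerivAt_cross a1 a4).const_mul (1 / 2)
    have e1 := (hasDerivAt_fst_curve hfd t θ).unique a5
    have b1 : HasDerivAt (fun θ : ℝ => φ (P (t, θ))) (D (P (t, θ)) (t * I * exp (θ * I))) θ :=
      (hphi (P (t, θ))).comp_hasDerivAt θ (hP2 t θ)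
    have b2 : HasDerivAt (fun θ : ℝ => D (P (t, θ))) (D2 (P (t, θ)) (t * I * exp (θ * I))) θ :=
      (hDD (P (t, θ))).comp_hasDerivAt θ (hP2 t θ)
    have b4 := b2.clm_apply (hE2 θ)
    have b5 := (hasDerivAt_cross b1 b4).const_mul (-(1 / 2))
    have e2 := (hasDerivAt_snd_curve hgd t θ).unique b5
    rw [e1, e2, ← jac_frame (D (P (t, θ))) (exp (θ * I)) (norm_exp_real θ) t,
      hsymm _ (t * I * exp (θ * I)) (exp (θ * I))]
    simp only [mul_im, add_im, add_re, conj_re, conj_im]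
    ring
  have hcont : Continuous fun p : ℝ × ℝ => fderiv ℝ f p (1, 0) + fderiv ℝ g p (0, 1) := by
    have h1 : Continuous (fderiv ℝ f) := hfs.continuous_fderiv (by simp)
    have h2 : Continuous (fderiv ℝ g) := hgs.continuous_fderiv (by simp)
    fun_prop
  have key := integral2_divergence_prod_of_hasFDerivAt f g (fderiv ℝ f) (fderiv ℝ g) 0 0 s
    (2 * Real.pi) hfs.continuous.continuousOn hgs.continuous.continuousOn
    (fun p _ => (hfd p).hasFDerivAt) (fun p _ => (hgd p).hasFDerivAt)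
    (hcont.continuousOn.integrableOn_compact (isCompact_uIcc.prod isCompact_uIcc))
  simp only [hdiv] at key
  rw [key]
  have g0 : ∀ t : ℝ, g (t, 2 * Real.pi) = g (t, 0) := by
    intro t
    have h1 : exp (((2 * Real.pi : ℝ) : ℂ) * I) = 1 := by
      push_cast
      exact Complex.exp_two_pi_mul_I
    simp only [hg, hP, h1]
    simp
  have f0 : ∀ θ : ℝ, f (0, θ) = 0 := by
    intro θ
    simp [hf]
  simp only [g0, f0, sub_self, zero_add, intervalIntegral.integral_zero, sub_zero]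
  simp only [hf, hP]
  rw [intervalIntegral.integral_const_mul]

/-- B2. Area formula for smooth maps on discs. -/
theorem integral_jac_ball {φ : ℂ → ℂ} (hφ : ContDiff ℝ ∞ φ) (x : ℂ) {s : ℝ} (hs : 0 ≤ s) :
    ∫ z in ball x s, jac (fderiv ℝ φ z) =
      (1 / 2) * ∫ θ in (0 : ℝ)..(2 * Real.pi),
        (conj (φ (x + s * exp (θ * I))) *
          fderiv ℝ φ (x + s * exp (θ * I)) (s * I * exp (θ * I))).im := by
  rw [← area_div hφ x s]
  have hc : Continuous fun z => jac (fderiv ℝ φ z) := by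
    have : Continuous (fderiv ℝ φ) := hφ.continuous_fderiv (by simp)
    unfold jac
    fun_prop
  have := polar_annulus (r := 0) le_rfl hs x hc.continuousOn
  rw [ball_zero, sdiff_empty] at this
  exact this

end Pool.Agent.H41.PH
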