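import Pool.Agent.H52.PH.Defs

/-! # Circle inequality by Fourier series (job B1 for MP_6c6114_an) -/

open MeasureTheory Set Metric Filter Topology ContDiff Complex
open scoped ENNReal ComplexConjugate

namespace Pool.Agent.H41.PH

open Pool.Agent.H52.PH

/-- Fourier coefficient of a function on `[0, 2π]`. -/
noncomputable def fc (f : ℝ → ℂ) (n : ℤ) : ℂ :=
  (1 / (2 * Real.pi) : ℝ) • ∫ θ in (0 : ℝ)..(2 * Real.pi), exp (-(n * θ) * I) * f θ

theorem fc_eq (f : ℝ → ℂ) (n : ℤ) : fourierCoeffOn Real.two_pi_pos f n = fc f n := by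
  rw [fourierCoeffOn_eq_integral, fc, sub_zero]
  congr 1
  apply intervalIntegral.integral_congr
  intro x _
  simp only [smul_eq_mul]
  congr 1
  rw [fourier_coe_apply]
  congr 1
  have h : (2 * (Real.pi : ℂ)) ≠ 0 := by simp
  push_cast
  field_simp

theorem memLp_Ioc {f : ℝ → ℂ} (hf : Continuous f) (a b : ℝ) :
    MemLp f 2 (volume.restrict (Ioc a b)) := by
  obtain ⟨C, hC⟩ := isCompact_Icc.exists_bound_of_continuousOn (s := Icc a b) hf.continuousOn
  refine MemLp.of_bound hf.aestronglyMeasurable C ?_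
  rw [ae_restrict_iff' measurableSet_Ioc]
  exact ae_of_all _ fun x hx => hC x (Ioc_subset_Icc_self hx)

theorem fc_parseval {f : ℝ → ℂ} (hf : Continuous f) :
    HasSum (fun n => ‖fc f n‖ ^ 2)
      ((2 * Real.pi)⁻¹ * ∫ θ in (0 : ℝ)..(2 * Real.pi), ‖f θ‖ ^ 2) := by
  have h := hasSum_sq_fourierCoeffOn Real.two_pi_pos (memLp_Ioc hf 0 (2 * Real.pi))
  simpa only [fc_eq, sub_zero, smul_eq_mul] using h

theorem fc_add {f g : ℝ → ℂ} (hf : Continuous f) (hg : Continuous g) (n : ℤ) :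
    fc (fun θ => f θ + g θ) n = fc f n + fc g n := by
  simp only [fc]
  rw [← smul_add, ← intervalIntegral.integral_add]
  · congr 1
    apply intervalIntegral.integral_congr
    intro x _
    simp only []
    ring
  · exact Continuous.intervalIntegrable (by fun_prop) _ _
  · exact Continuous.intervalIntegrable (by fun_prop) _ _

theorem fc_const_mul (f : ℝ → ℂ) (c : ℂ) (n : ℤ) :
    fc (fun θ => c * f θ) n = c * fc f n := by
  simp only [fc]
  rw [mul_smul_comm, ← intervalIntegral.integral_const_mul]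
  congr 1
  apply intervalIntegral.integral_congr
  intro x _
  simp only []
  ring

/-- Multiplication by `e^{ikθ}` shifts the coefficients. -/
theorem fc_shift (f : ℝ → ℂ) (k n : ℤ) :
    fc (fun θ => exp (k * θ * I) * f θ) n = fc f (n - k) := by
  simp only [fc]
  congr 1
  apply intervalIntegral.integral_congr
  intro x _
  simp only []
  rw [← mul_assoc, ← Complex.exp_add]
  congr 2
  push_cast
  ring

theorem fc_conj (f : ℝ → ℂ) (n : ℤ) :
    fc (fun θ => conj (f θ)) n = conj (fc f (-n)) := by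
  simp only [fc, real_smul, map_mul, conj_ofReal]
  congr 1
  rw [intervalIntegral.integral_of_le Real.two_pi_pos.le,
    intervalIntegral.integral_of_le Real.two_pi_pos.le, ← integral_conj,
    ← intervalIntegral.integral_of_le Real.two_pi_pos.le,
    ← intervalIntegral.integral_of_le Real.two_pi_pos.le]
  apply intervalIntegral.integral_congr
  intro x _
  simp only [map_mul]
  congr 1
  rw [← Complex.exp_conj]
  congr 1
  simp

/-- Fourier coefficients of the derivative. -/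
theorem fc_deriv {g : ℝ → ℂ} (hg : ContDiff ℝ ∞ g) (hper : Function.Periodic g (2 * Real.pi))
    (n : ℤ) : fc (deriv g) n = I * n * fc g n := by
  have hd : ∀ x, HasDerivAt g (deriv g x) x := fun x =>
    ((hg.differentiable (by simp)) x).hasDerivAt
  have hdc : Continuous (deriv g) := hg.continuous_deriv (by simp)
  have he : ∀ x : ℝ, HasDerivAt (fun θ : ℝ => exp (-(n * θ) * I)) (exp (-(n * x) * I) * (-n * I)) x := by
    intro x
    have h1 : HasDerivAt (fun θ : ℝ => (θ : ℂ)) 1 x := by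
      exact Complex.ofRealCLM.hasDerivAt (x := x)
    have h2 := (((h1.const_mul (n : ℂ)).neg).mul_const I).cexp
    simpa using h2
  have key := intervalIntegral.integral_deriv_mul_eq_sub (a := 0) (b := 2 * Real.pi)
    (u := fun θ : ℝ => exp (-(n * θ) * I)) (v := g)
    (u' := fun x : ℝ => exp (-(n * x) * I) * (-n * I)) (v' := deriv g)
    (fun x _ => he x) (fun x _ => hd x)
    (Continuous.intervalIntegrable (by fun_prop) _ _)
    (Continuous.intervalIntegrable hdc _ _)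
  have hend : exp (-(n * ((2 * Real.pi : ℝ) : ℂ)) * I) * g (2 * Real.pi) -
      exp (-(n * ((0 : ℝ) : ℂ)) * I) * g 0 = 0 := by
    have h1 : g (2 * Real.pi) = g 0 := by
      have := hper 0
      simpa using this
    have h2 : exp (-(n * ((2 * Real.pi : ℝ) : ℂ)) * I) = 1 := by
      have : -(n * ((2 * Real.pi : ℝ) : ℂ)) * I = ((-n : ℤ) : ℂ) * (2 * Real.pi * I) := by
        push_cast; ring
      rw [this, Complex.exp_int_mul_two_pi_mul_I]
    rw [h1, h2]
    simp
  rw [hend] at key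
  have hsplit : (∫ x in (0 : ℝ)..(2 * Real.pi), (exp (-(n * x) * I) * (-n * I) * g x +
      exp (-(n * x) * I) * deriv g x)) =
      (-n * I) * (∫ x in (0 : ℝ)..(2 * Real.pi), exp (-(n * x) * I) * g x) +
      ∫ x in (0 : ℝ)..(2 * Real.pi), exp (-(n * x) * I) * deriv g x := by
    rw [intervalIntegral.integral_add, ← intervalIntegral.integral_const_mul]
    · congr 1
      apply intervalIntegral.integral_congr
      intro x _
      simp only []
      ring
    · have := hg.continuous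
      exact Continuous.intervalIntegrable (by fun_prop) _ _
    · exact Continuous.intervalIntegrable (by fun_prop) _ _
  rw [hsplit] at key
  simp only [fc, real_smul]
  linear_combination (1 / (2 * Real.pi) : ℝ) * key

/-- The finite inequality behind the circle inequality. -/
theorem finite_ineq {κ x y w : ℝ} (hκ0 : 0 ≤ κ) (hκ1 : κ ≤ 1 / 12)
    (hw : (x - 3 * y) ^ 2 ≤ w ^ 2) :
    0 ≤ -(2 * κ) * x ^ 2 + (24 + 6 * κ) * y ^ 2 + 4 * κ * w ^ 2 := by
  have h1 : 4 * κ * (x - 3 * y) ^ 2 ≤ 4 * κ * w ^ 2 :=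
    mul_le_mul_of_nonneg_left hw (by linarith)
  have h2 : 0 ≤ 2 * κ * (x - 6 * y) ^ 2 := by positivity
  have h3 : 0 ≤ (24 - 30 * κ) * y ^ 2 := mul_nonneg (by linarith) (sq_nonneg y)
  nlinarith [h1, h2, h3]

theorem circle_ineq {m : ℝ} (hm : 1 ≤ m) {g : ℝ → ℂ} (hg : ContDiff ℝ ∞ g)
    (hper : Function.Periodic g (2 * Real.pi)) :
    (2 / m) * (1 + kap m) *
      (-(1 / 2) * ∫ θ in (0 : ℝ)..(2 * Real.pi), (conj (g θ) * deriv g θ).im) ≤
    ∫ θ in (0 : ℝ)..(2 * Real.pi), ((1 / m) * ‖deriv g θ‖ ^ 2 +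
      (m - 1) / (3 * m ^ 2) * ((conj (deriv g θ) * exp (θ * I)).re) ^ 2) := by
  have hm0 : 0 < m := by linarith
  have hgc : Continuous g := hg.continuous
  have hdc : Continuous (deriv g) := hg.continuous_deriv (by simp)
  set κ := kap m with hκ
  have hκ0 : 0 ≤ κ := by
    rw [hκ, kap]
    exact div_nonneg (by linarith) (by linarith)
  have hκ1 : κ ≤ 1 / 12 := by
    rw [hκ, kap, div_le_div_iff₀ (by linarith) (by norm_num)]
    linarith
  set a : ℤ → ℂ := fc g with ha
  have hA := fc_parseval hgc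
  have hB := fc_parseval hdc
  have hC := fc_parseval (f := fun θ => deriv g θ + I * g θ) (by fun_prop)
  set u : ℝ → ℂ := fun θ => (((conj (deriv g θ) * exp (θ * I)).re : ℝ) : ℂ) with hu
  have huc : Continuous u := by
    rw [hu]
    have : Continuous fun θ => (conj (deriv g θ) * exp (θ * I)) := by fun_prop
    fun_prop
  have hD := fc_parseval huc
  -- coefficients
  have hb : ∀ n : ℤ, ‖fc (deriv g) n‖ ^ 2 = (n : ℝ) ^ 2 * ‖a n‖ ^ 2 := by
    intro n
    rw [fc_deriv hg hper, norm_mul, norm_mul, norm_I, one_mul, mul_pow, Complex.norm_intCast,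
      sq_abs]
  have hc : ∀ n : ℤ, ‖fc (fun θ => deriv g θ + I * g θ) n‖ ^ 2 =
      ((n : ℝ) + 1) ^ 2 * ‖a n‖ ^ 2 := by
    intro n
    rw [fc_add hdc (by fun_prop), fc_deriv hg hper, fc_const_mul]
    have : I * (n : ℂ) * fc g n + I * fc g n = I * (((n + 1 : ℤ)) : ℂ) * a n := by
      push_cast; ring
    rw [this, norm_mul, norm_mul, norm_I, one_mul, mul_pow, Complex.norm_intCast, sq_abs]
    push_cast
    ring
  have hue : ∀ n : ℤ, fc u n = (1 / 2 : ℂ) *
      (conj (I * ((1 - n : ℤ) : ℂ) * a (1 - n)) + I * ((n + 1 : ℤ) : ℂ) * a (n + 1)) := by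
    intro n
    have h1 : u = fun θ : ℝ => (1 / 2 : ℂ) * (exp (((1 : ℤ) : ℂ) * θ * I) * conj (deriv g θ) +
        exp (((-1 : ℤ) : ℂ) * θ * I) * deriv g θ) := by
      ext θ
      simp only [hu]
      rw [Complex.re_eq_add_conj]
      simp only [map_mul, conj_conj]
      rw [← Complex.exp_conj]
      have h2 : conj ((θ : ℂ) * I) = ((-1 : ℤ) : ℂ) * θ * I := by simp
      rw [h2]
      push_cast
      ring_nf
    rw [h1, fc_const_mul, fc_add (by fun_prop) (by fun_prop), fc_shift, fc_shift, fc_conj,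
      fc_deriv hg hper, fc_deriv hg hper]
    rw [show -(n - 1) = 1 - n by ring, show n - -1 = n + 1 by ring]
  have hpi : (2 * Real.pi) ≠ 0 := Real.two_pi_pos.ne'
  -- integral identities
  have hI : (∫ θ in (0 : ℝ)..(2 * Real.pi), ‖deriv g θ + I * g θ‖ ^ 2) =
      (∫ θ in (0 : ℝ)..(2 * Real.pi), ‖deriv g θ‖ ^ 2) +
      (∫ θ in (0 : ℝ)..(2 * Real.pi), ‖g θ‖ ^ 2) +
      2 * ∫ θ in (0 : ℝ)..(2 * Real.pi), (conj (g θ) * deriv g θ).im := by
    have hi1 : Continuous fun θ => (conj (g θ) * deriv g θ).im := by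
      have : Continuous fun θ => (conj (g θ) * deriv g θ) := by fun_prop
      fun_prop
    rw [← intervalIntegral.integral_const_mul, ← intervalIntegral.integral_add,
      ← intervalIntegral.integral_add]
    · apply intervalIntegral.integral_congr
      intro θ _
      simp only [← Complex.normSq_eq_norm_sq, Complex.normSq_apply, add_re, add_im, mul_re, mul_im,
        I_re, I_im, conj_re, conj_im]
      ring
    all_goals exact Continuous.intervalIntegrable (by fun_prop) _ _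
  have hE : HasSum (fun n : ℤ => (n : ℝ) * ‖a n‖ ^ 2)
      ((2 * Real.pi)⁻¹ * ∫ θ in (0 : ℝ)..(2 * Real.pi), (conj (g θ) * deriv g θ).im) := by
    have h1 := ((hC.sub hB).sub hA).mul_left (1 / 2)
    rw [hI] at h1
    have h2 : (fun n : ℤ => (n : ℝ) * ‖a n‖ ^ 2) = fun i : ℤ =>
        1 / 2 * (‖fc (fun θ => deriv g θ + I * g θ) i‖ ^ 2 - ‖fc (deriv g) i‖ ^ 2 -
          ‖fc g i‖ ^ 2) := by
      funext n
      rw [hb, hc, ← ha]
      ring
    rw [h2]
    refine (Eq.mpr ?_ h1)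
    congr 1
    ring
  have hsum := ((hB.mul_left (1 / m)).add (hE.mul_left ((1 / m) * (1 + κ)))).add
    (hD.mul_left ((m - 1) / (3 * m ^ 2)))
  set c₀ : ℝ := (m - 1) / (3 * m ^ 2) with hc₀
  have hc₀0 : 0 ≤ c₀ := div_nonneg (by linarith) (by positivity)
  have hc₀m : c₀ = 4 * κ / m := by
    rw [hc₀, hκ, kap]
    field_simp
    ring
  set F : ℤ → ℝ := fun n => 1 / m * ‖fc (deriv g) n‖ ^ 2 +
      1 / m * (1 + κ) * ((n : ℝ) * ‖a n‖ ^ 2) + c₀ * ‖fc u n‖ ^ 2 with hF
  have hFn : ∀ n : ℤ, n ≠ -1 → c₀ * ‖fc u n‖ ^ 2 ≤ F n := by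
    intro n hn
    have h1 : (0 : ℝ) ≤ (n : ℝ) ^ 2 + (1 + κ) * n := by
      rcases lt_or_ge n 0 with h | h
      · have h2 : n ≤ -2 := by omega
        have h3 : (n : ℝ) ≤ -2 := by exact_mod_cast h2
        nlinarith
      · have h3 : (0 : ℝ) ≤ (n : ℝ) := by exact_mod_cast h
        positivity
    have h2 : F n = 1 / m * (((n : ℝ) ^ 2 + (1 + κ) * n) * ‖a n‖ ^ 2) + c₀ * ‖fc u n‖ ^ 2 := by
      simp only [hF, hb]
      ring
    rw [h2]
    have : 0 ≤ 1 / m * (((n : ℝ) ^ 2 + (1 + κ) * n) * ‖a n‖ ^ 2) := by positivity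
    linarith
  have hFpos : ∀ n : ℤ, n ≠ -1 → 0 ≤ F n := fun n hn =>
    le_trans (by positivity) (hFn n hn)
  have hS := sum_le_hasSum ({-2, -1, 2, 3} : Finset ℤ) (f := F)
    (fun n hn => hFpos n (by intro h; apply hn; simp [h])) hsum
  have hS' : 0 ≤ ∑ n ∈ ({-2, -1, 2, 3} : Finset ℤ), F n := by
    have e1 : ∑ n ∈ ({-2, -1, 2, 3} : Finset ℤ), F n = F (-2) + (F (-1) + (F 2 + F 3)) := by
      rw [Finset.sum_insert (by decide), Finset.sum_insert (by decide),
        Finset.sum_insert (by decide), Finset.sum_singleton]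
    rw [e1]
    set w : ℝ := ‖3 * a 3 + conj (a (-1))‖ with hw
    have u2 : ‖fc u 2‖ ^ 2 = w ^ 2 / 4 := by
      rw [hue]
      have : (1 / 2 : ℂ) * (conj (I * ((1 - 2 : ℤ) : ℂ) * a (1 - 2)) +
          I * ((2 + 1 : ℤ) : ℂ) * a (2 + 1)) = I / 2 * (3 * a 3 + conj (a (-1))) := by
        norm_num
        ring
      rw [this, norm_mul, norm_div, norm_I, mul_pow, ← hw]
      norm_num
      ring
    have um2 : ‖fc u (-2)‖ ^ 2 = w ^ 2 / 4 := by
      rw [hue]
      have : (1 / 2 : ℂ) * (conj (I * ((1 - (-2) : ℤ) : ℂ) * a (1 - (-2))) +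
          I * ((-2 + 1 : ℤ) : ℂ) * a (-2 + 1)) = - I / 2 * conj (3 * a 3 + conj (a (-1))) := by
        norm_num
        ring
      rw [this, norm_mul, norm_div, norm_neg, norm_I, mul_pow, RCLike.norm_conj, ← hw]
      norm_num
      ring
    have f2 := hFn 2 (by decide)
    have fm2 := hFn (-2) (by decide)
    rw [u2] at f2
    rw [um2] at fm2
    have f3 : (1 / m) * ((12 + 3 * κ) * ‖a 3‖ ^ 2) ≤ F 3 := by
      simp only [hF, hb]
      have : 0 ≤ c₀ * ‖fc u 3‖ ^ 2 := by positivity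
      push_cast
      linear_combination this
    have fm1 : (1 / m) * (-κ * ‖a (-1)‖ ^ 2) ≤ F (-1) := by
      simp only [hF, hb]
      have : 0 ≤ c₀ * ‖fc u (-1)‖ ^ 2 := by positivity
      push_cast
      linear_combination this
    have hwxy : (‖a (-1)‖ - 3 * ‖a 3‖) ^ 2 ≤ w ^ 2 := by
      apply sq_le_sq'
      · have := norm_sub_le_norm_add (3 * a 3) (conj (a (-1)))
        rw [norm_mul, RCLike.norm_conj, ← hw] at this
        norm_num at this
        linarith
      · have := norm_sub_le_norm_add (conj (a (-1))) (3 * a 3)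
        rw [norm_mul, RCLike.norm_conj, add_comm, ← hw] at this
        norm_num at this
        linarith
    have fin := finite_ineq hκ0 hκ1 hwxy
    have fin' : 0 ≤ (1 / (2 * m)) * (-(2 * κ) * ‖a (-1)‖ ^ 2 + (24 + 6 * κ) * ‖a 3‖ ^ 2 +
        4 * κ * w ^ 2) := mul_nonneg (by positivity) fin
    rw [hc₀m] at f2 fm2
    have e2 : (1 / (2 * m)) * (-(2 * κ) * ‖a (-1)‖ ^ 2 + (24 + 6 * κ) * ‖a 3‖ ^ 2 +
        4 * κ * w ^ 2) = 4 * κ / m * (w ^ 2 / 4) + (1 / m * (-κ * ‖a (-1)‖ ^ 2) +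
        (4 * κ / m * (w ^ 2 / 4) + 1 / m * ((12 + 3 * κ) * ‖a 3‖ ^ 2))) := by
      field_simp
      ring
    linarith
  have hfin := hS'.trans hS
  have hfin2 := mul_nonneg Real.two_pi_pos.le hfin
  have hR : (∫ θ in (0 : ℝ)..(2 * Real.pi), ((1 / m) * ‖deriv g θ‖ ^ 2 +
      c₀ * ((conj (deriv g θ) * exp (θ * I)).re) ^ 2)) =
      (1 / m) * (∫ θ in (0 : ℝ)..(2 * Real.pi), ‖deriv g θ‖ ^ 2) +
      c₀ * ∫ θ in (0 : ℝ)..(2 * Real.pi), ‖u θ‖ ^ 2 := by
    rw [← intervalIntegral.integral_const_mul, ← intervalIntegral.integral_const_mul,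
      ← intervalIntegral.integral_add]
    · apply intervalIntegral.integral_congr
      intro θ _
      simp only [hu, norm_real, Real.norm_eq_abs, sq_abs]
    all_goals exact Continuous.intervalIntegrable (by fun_prop) _ _
  rw [hR]
  have e3 : 2 * Real.pi * (1 / m * ((2 * Real.pi)⁻¹ * ∫ θ in (0 : ℝ)..(2 * Real.pi),
      ‖deriv g θ‖ ^ 2) + 1 / m * (1 + κ) * ((2 * Real.pi)⁻¹ *
      ∫ θ in (0 : ℝ)..(2 * Real.pi), (conj (g θ) * deriv g θ).im) +
      c₀ * ((2 * Real.pi)⁻¹ * ∫ θ in (0 : ℝ)..(2 * Real.pi), ‖u θ‖ ^ 2)) =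
      1 / m * (∫ θ in (0 : ℝ)..(2 * Real.pi), ‖deriv g θ‖ ^ 2) +
      1 / m * (1 + κ) * (∫ θ in (0 : ℝ)..(2 * Real.pi), (conj (g θ) * deriv g θ).im) +
      c₀ * ∫ θ in (0 : ℝ)..(2 * Real.pi), ‖u θ‖ ^ 2 := by
    field_simp
  rw [e3] at hfin2
  linear_combination hfin2

end Pool.Agent.H41.PH
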