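import Pool.Agent.H41.PHInt

/-! # Integrated circle inequality and energy decay for Sobolev maps (jobs B3, B4) -/

open MeasureTheory Set Metric Filter Topology ContDiff Complex
open scoped ENNReal ComplexConjugate

namespace Pool.Agent.H41.PH

open Pool.Agent.H52.PH

set_option maxHeartbeats 400000

theorem abs_integral_sub_le {K A : Set ℂ} (hAK : A ⊆ K) (hAm : MeasurableSet A) {f g e : ℂ → ℝ}
    {c : ℝ} (hf : IntegrableOn f A) (hg : IntegrableOn g A) (he : IntegrableOn e K)
    (he0 : ∀ z, 0 ≤ e z) (hc : 0 ≤ c) (h : ∀ z ∈ A, |f z - g z| ≤ c * e z) :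
    |(∫ z in A, f z) - ∫ z in A, g z| ≤ c * ∫ z in K, e z := by
  rw [← integral_sub hf hg]
  have heA : IntegrableOn e A := he.mono_set hAK
  calc |∫ z in A, (f z - g z)| ≤ ∫ z in A, |f z - g z| := abs_integral_le_integral_abs
    _ ≤ ∫ z in A, c * e z := by
      apply setIntegral_mono_on (hf.sub hg).abs (heA.const_mul c) hAm h
    _ = c * ∫ z in A, e z := integral_const_mul _ _
    _ ≤ c * ∫ z in K, e z := by
      apply mul_le_mul_of_nonneg_left _ hc
      exact setIntegral_mono_set he (ae_of_all _ he0) hAK.eventuallyLE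

theorem integrableOn_of_close {A : Set ℂ} {f g e : ℂ → ℝ} {c : ℝ} (hAm : MeasurableSet A)
    (hf : IntegrableOn f A) (hgm : AEStronglyMeasurable g (volume.restrict A))
    (he : IntegrableOn e A) (h : ∀ z ∈ A, |f z - g z| ≤ c * e z) : IntegrableOn g A := by
  have h1 : IntegrableOn (fun z => |f z| + c * e z) A := hf.abs.add (he.const_mul c)
  refine h1.mono' hgm ?_
  rw [ae_restrict_iff' hAm]
  refine ae_of_all _ fun z hz => ?_
  rw [Real.norm_eq_abs]
  have := h z hz
  calc |g z| = |f z - (f z - g z)| := by ring_nf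
    _ ≤ |f z| + |f z - g z| := abs_sub _ _
    _ ≤ |f z| + c * e z := by linarith

theorem isCompact_annulus (x : ℂ) (r R : ℝ) : IsCompact (closedBall x R \ ball x r) :=
  (isCompact_closedBall x R).diff isOpen_ball

theorem integrableOn_annulus {x : ℂ} {r R : ℝ} {F : ℂ → ℝ}
    (hF : ContinuousOn F (closedBall x R \ ball x r)) : IntegrableOn F (ball x R \ ball x r) :=
  (hF.integrableOn_compact (isCompact_annulus x r R)).mono_set
    (sdiff_subset_sdiff_left ball_subset_closedBall)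

theorem integrableOn_jac_smooth {φ : ℂ → ℂ} (hφ : ContDiff ℝ ∞ φ) {K : Set ℂ} (hK : IsCompact K) :
    IntegrableOn (fun z => -jac (fderiv ℝ φ z)) K := by
  have h1 : Continuous (fderiv ℝ φ) := hφ.continuous_fderiv (by simp)
  have h2 : Continuous (fun z => -jac (fderiv ℝ φ z)) := (continuous_jac.comp h1).neg
  exact h2.continuousOn.integrableOn_compact hK

/-- The data of the approximation on a closed ball. -/
theorem exists_approx_ball {U : Set ℂ} {x : ℂ} {R : ℝ} (hR : closedBall x R ⊆ U) {g : ℂ → ℂ}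
    {D : ℂ → ℂ →L[ℝ] ℂ} (h : Sob 2 U g D) :
    AEStronglyMeasurable D (volume.restrict (closedBall x R)) ∧
    IntegrableOn (fun z => -jac (D z)) (closedBall x R) ∧
    ∃ φ : ℕ → ℂ → ℂ, (∀ n, ContDiff ℝ ∞ (φ n)) ∧
      (∀ n, IntegrableOn (fun z => ed (fderiv ℝ (φ n) z) (D z)) (closedBall x R)) ∧
      Tendsto (fun n => ∫ z in closedBall x R, ed (fderiv ℝ (φ n) z) (D z)) atTop (𝓝 0) ∧
      (∀ n, ∀ s ≤ R, |(∫ z in ball x s, -jac (fderiv ℝ (φ n) z)) - ∫ z in ball x s, -jac (D z)| ≤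
        ∫ z in closedBall x R, ed (fderiv ℝ (φ n) z) (D z)) := by
  obtain ⟨hD, φ, hφ, hint, hlim⟩ := exists_approx (isCompact_closedBall x R) hR h
  have hjm : AEStronglyMeasurable (fun z => -jac (D z)) (volume.restrict (closedBall x R)) :=
    (continuous_jac.comp_aestronglyMeasurable hD.1).neg
  have hclose : ∀ n z, |-jac (fderiv ℝ (φ n) z) - -jac (D z)| ≤
      1 * ed (fderiv ℝ (φ n) z) (D z) := by
    intro n z
    rw [one_mul]
    have := abs_jac_sub_le (fderiv ℝ (φ n) z) (D z)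
    rwa [← abs_neg, neg_sub_neg, ← neg_sub, neg_neg]
  have hjac : IntegrableOn (fun z => -jac (D z)) (closedBall x R) :=
    integrableOn_of_close measurableSet_closedBall
      (integrableOn_jac_smooth (hφ 0) (isCompact_closedBall x R)) hjm (hint 0)
      (fun z _ => hclose 0 z)
  refine ⟨hD.1, hjac, φ, hφ, hint, hlim, ?_⟩
  intro n s hs
  have hsub : ball x s ⊆ closedBall x R := (ball_subset_ball hs).trans ball_subset_closedBall
  have := abs_integral_sub_le hsub measurableSet_ball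
    ((integrableOn_jac_smooth (hφ n) (isCompact_closedBall x R)).mono_set hsub)
    (hjac.mono_set hsub) (hint n) (fun z => ed_nonneg _ _) zero_le_one (fun z _ => hclose n z)
  rwa [one_mul] at this

theorem continuousOn_J {x : ℂ} {R : ℝ} {D : ℂ → ℂ →L[ℝ] ℂ} {φ : ℕ → ℂ → ℂ}
    (hφ : ∀ n, ContDiff ℝ ∞ (φ n)) {err : ℕ → ℝ} (hlim : Tendsto err atTop (𝓝 0))
    (hJ : ∀ n, ∀ s ≤ R, |(∫ z in ball x s, -jac (fderiv ℝ (φ n) z)) -
      ∫ z in ball x s, -jac (D z)| ≤ err n) :
    ContinuousOn (fun s => ∫ z in ball x s, -jac (D z)) (Icc 0 R) := by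
  have hu : TendstoUniformlyOn (fun n s => ∫ z in ball x s, -jac (fderiv ℝ (φ n) z))
      (fun s => ∫ z in ball x s, -jac (D z)) atTop (Icc 0 R) := by
    rw [Metric.tendstoUniformlyOn_iff]
    intro ε hε
    filter_upwards [hlim.eventually (gt_mem_nhds hε)] with n hn s hs
    rw [dist_comm, Real.dist_eq]
    exact (hJ n s hs.2).trans_lt hn
  exact hu.continuousOn (Frequently.of_forall fun n =>
    (continuous_circle_jac (hφ n) x).mono fun s hs => hs.1)

theorem tendsto_int_kJ {x : ℂ} {r R : ℝ} (hr : 0 ≤ r) (hrR : r ≤ R) {D : ℂ → ℂ →L[ℝ] ℂ}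
    {φ : ℕ → ℂ → ℂ} (hφ : ∀ n, ContDiff ℝ ∞ (φ n)) {err : ℕ → ℝ}
    (hlim : Tendsto err atTop (𝓝 0))
    (hJ : ∀ n, ∀ s ≤ R, |(∫ z in ball x s, -jac (fderiv ℝ (φ n) z)) -
      ∫ z in ball x s, -jac (D z)| ≤ err n)
    {k : ℝ → ℝ} (hk : ContinuousOn k (Icc r R)) :
    Tendsto (fun n => ∫ s in r..R, k s * ∫ z in ball x s, -jac (fderiv ℝ (φ n) z)) atTop
      (𝓝 (∫ s in r..R, k s * ∫ z in ball x s, -jac (D z))) := by
  obtain ⟨C, hC⟩ := isCompact_Icc.exists_bound_of_continuousOn hk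
  have hsub : Icc r R ⊆ Icc 0 R := Icc_subset_Icc_left hr
  have hJc := continuousOn_J hφ hlim hJ
  have hi1 : ∀ n, IntervalIntegrable (fun s => k s * ∫ z in ball x s, -jac (fderiv ℝ (φ n) z))
      volume r R := by
    intro n
    apply ContinuousOn.intervalIntegrable
    rw [uIcc_of_le hrR]
    exact hk.mul ((continuous_circle_jac (hφ n) x).mono fun s hs => hr.trans hs.1)
  have hi2 : IntervalIntegrable (fun s => k s * ∫ z in ball x s, -jac (D z)) volume r R := by
    apply ContinuousOn.intervalIntegrable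
    rw [uIcc_of_le hrR]
    exact hk.mul (hJc.mono hsub)
  rw [tendsto_iff_norm_sub_tendsto_zero]
  have hb : ∀ n, ‖(∫ s in r..R, k s * ∫ z in ball x s, -jac (fderiv ℝ (φ n) z)) -
      ∫ s in r..R, k s * ∫ z in ball x s, -jac (D z)‖ ≤ C * err n * |R - r| := by
    intro n
    rw [← intervalIntegral.integral_sub (hi1 n) hi2]
    apply intervalIntegral.norm_integral_le_of_norm_le_const
    intro s hs
    rw [uIoc_of_le hrR] at hs
    have hs' : s ∈ Icc r R := Ioc_subset_Icc_self hs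
    rw [← mul_sub, norm_mul]
    exact mul_le_mul (hC s hs') (hJ n s hs'.2) (abs_nonneg _)
      ((norm_nonneg _).trans (hC s hs'))
  have hz : Tendsto (fun n => C * err n * |R - r|) atTop (𝓝 0) := by
    have := (hlim.const_mul C).mul_const |R - r|
    simpa using this
  exact squeeze_zero (fun n => norm_nonneg _) hb hz

theorem annulus_subset (x : ℂ) (r R : ℝ) : ball x R \ ball x r ⊆ closedBall x R :=
  sdiff_subset.trans ball_subset_closedBall

theorem measurableSet_annulus (x : ℂ) (r R : ℝ) : MeasurableSet (ball x R \ ball x r) :=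
  measurableSet_ball.diff measurableSet_ball

theorem mem_Icc_of_annulus {x : ℂ} {r R : ℝ} {z : ℂ} (hz : z ∈ ball x R \ ball x r) :
    ‖z - x‖ ∈ Icc r R := mapsTo_annulus x r R ⟨ball_subset_closedBall hz.1, hz.2⟩

theorem aesm_comp_norm {x : ℂ} {r R : ℝ} {k : ℝ → ℝ} (hk : ContinuousOn k (Icc r R)) :
    AEStronglyMeasurable (fun z => k ‖z - x‖) (volume.restrict (ball x R \ ball x r)) := by
  have hn : Continuous (fun z : ℂ => ‖z - x‖) := by fun_prop
  have h1 : ContinuousOn (fun z => k ‖z - x‖) (ball x R \ ball x r) :=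
    hk.comp hn.continuousOn (fun z hz => mem_Icc_of_annulus hz)
  exact h1.aestronglyMeasurable (measurableSet_annulus x r R)

theorem aesm_dir (x : ℂ) : Measurable (fun z : ℂ => (z - x) / (‖z - x‖ : ℝ)) := by
  apply Measurable.div
  · fun_prop
  · fun_prop

/-- B3. Integrated circle inequality for Sobolev maps. -/
theorem integrated_ineq {m : ℝ} (hm : 1 ≤ m) {U : Set ℂ} {x : ℂ} {r R : ℝ} (hr : 0 < r)
    (hrR : r ≤ R) (hR : closedBall x R ⊆ U) {g : ℂ → ℂ} {D : ℂ → ℂ →L[ℝ] ℂ} (h : Sob 2 U g D)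
    {k : ℝ → ℝ} (hk : ContinuousOn k (Icc r R)) (hk0 : ∀ s ∈ Icc r R, 0 ≤ k s) :
    (2 / m) * (1 + kap m) * ∫ s in r..R, k s * ∫ z in ball x s, -jac (D z) ≤
      ∫ z in ball x R \ ball x r,
        k ‖z - x‖ * ‖z - x‖ * qform m (D z) ((z - x) / (‖z - x‖ : ℝ)) := by
  obtain ⟨hDm, hjac, φ, hφ, hint, hlim, hJ⟩ := exists_approx_ball hR h
  have hL := (tendsto_int_kJ hr.le hrR hφ hlim hJ hk).const_mul ((2 / m) * (1 + kap m))
  obtain ⟨C, hC⟩ := isCompact_Icc.exists_bound_of_continuousOn hk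
  have hC0 : 0 ≤ C := (norm_nonneg _).trans (hC r (left_mem_Icc.2 hrR))
  have hR0 : 0 ≤ R := hr.le.trans hrR
  set A : Set ℂ := ball x R \ ball x r with hA
  have hAm : MeasurableSet A := measurableSet_annulus x r R
  have hAK : A ⊆ closedBall x R := annulus_subset x r R
  have hclose : ∀ n, ∀ z ∈ A,
      |k ‖z - x‖ * ‖z - x‖ * qform m (fderiv ℝ (φ n) z) ((z - x) / (‖z - x‖ : ℝ)) -
        k ‖z - x‖ * ‖z - x‖ * qform m (D z) ((z - x) / (‖z - x‖ : ℝ))| ≤
      (C * R * cq m) * ed (fderiv ℝ (φ n) z) (D z) := by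
    intro n z hz
    have hz' := mem_Icc_of_annulus hz
    rw [← mul_sub, abs_mul, abs_mul]
    have h1 := abs_qform_sub_le hm (fderiv ℝ (φ n) z) (D z) (norm_dir_le (z - x))
    have h2 : |k ‖z - x‖| ≤ C := hC _ hz'
    have h3 : |‖z - x‖| ≤ R := by rw [abs_norm]; exact hz'.2
    calc |k ‖z - x‖| * |‖z - x‖| * |qform m (fderiv ℝ (φ n) z) ((z - x) / (‖z - x‖ : ℝ)) -
        qform m (D z) ((z - x) / (‖z - x‖ : ℝ))| ≤
        (C * R) * (cq m * ed (fderiv ℝ (φ n) z) (D z)) :=
          mul_le_mul (mul_le_mul h2 h3 (abs_nonneg _) hC0) h1 (abs_nonneg _)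
            (mul_nonneg hC0 hR0)
      _ = _ := by ring
  have hsm : ∀ n, IntegrableOn (fun z => k ‖z - x‖ * ‖z - x‖ *
      qform m (fderiv ℝ (φ n) z) ((z - x) / (‖z - x‖ : ℝ))) A := fun n =>
    integrableOn_annulus (continuousOn_annulus_fun (hφ n) x hr hk)
  have hDmA : AEStronglyMeasurable D (volume.restrict A) :=
    hDm.mono_measure (Measure.restrict_mono hAK le_rfl)
  have hqm : AEStronglyMeasurable (fun z => k ‖z - x‖ * ‖z - x‖ *
      qform m (D z) ((z - x) / (‖z - x‖ : ℝ))) (volume.restrict A) := by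
    have hn : Continuous (fun z : ℂ => ‖z - x‖) := by fun_prop
    have h1 : AEStronglyMeasurable (fun z => qform m (D z) ((z - x) / (‖z - x‖ : ℝ)))
        (volume.restrict A) := by
      have := (continuous_qform m).comp_aestronglyMeasurable
        (hDmA.prodMk (aesm_dir x).aestronglyMeasurable)
      exact this
    exact ((aesm_comp_norm hk).mul hn.aestronglyMeasurable).mul h1
  have hqi : IntegrableOn (fun z => k ‖z - x‖ * ‖z - x‖ *
      qform m (D z) ((z - x) / (‖z - x‖ : ℝ))) A :=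
    integrableOn_of_close hAm (hsm 0) hqm ((hint 0).mono_set hAK) (hclose 0)
  have hRt : Tendsto (fun n => ∫ z in A, k ‖z - x‖ * ‖z - x‖ *
      qform m (fderiv ℝ (φ n) z) ((z - x) / (‖z - x‖ : ℝ))) atTop
      (𝓝 (∫ z in A, k ‖z - x‖ * ‖z - x‖ * qform m (D z) ((z - x) / (‖z - x‖ : ℝ)))) := by
    rw [tendsto_iff_norm_sub_tendsto_zero]
    have hz : Tendsto (fun n => (C * R * cq m) *
        ∫ z in closedBall x R, ed (fderiv ℝ (φ n) z) (D z)) atTop (𝓝 0) := by
      have := hlim.const_mul (C * R * cq m)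
      simpa using this
    refine squeeze_zero (fun n => norm_nonneg _) (fun n => ?_) hz
    exact abs_integral_sub_le hAK hAm (hsm n) hqi (hint n) (fun z => ed_nonneg _ _)
      (mul_nonneg (mul_nonneg hC0 hR0) (cq_nonneg hm)) (hclose n)
  exact le_of_tendsto_of_tendsto' hL hRt (fun n => smooth_integrated hm (hφ n) x hr hrR hk hk0)

/-- Energy identity for smooth maps. -/
theorem energy_identity_smooth {φ : ℂ → ℂ} (hφ : ContDiff ℝ ∞ φ) (x : ℂ) {r R : ℝ} (hr : 0 < r)
    (hrR : r ≤ R) {E E' : ℝ → ℝ} (hE : ∀ s ∈ Icc r R, HasDerivAt E (E' s) s)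
    (hE' : ContinuousOn E' (Icc r R)) :
    E R * (∫ z in ball x R, -jac (fderiv ℝ φ z)) - E r * (∫ z in ball x r, -jac (fderiv ℝ φ z)) =
      (∫ s in r..R, E' s * ∫ z in ball x s, -jac (fderiv ℝ φ z)) +
      ∫ z in ball x R \ ball x r, E ‖z - x‖ * -jac (fderiv ℝ φ z) := by
  have hfd : Continuous (fderiv ℝ φ) := hφ.continuous_fderiv (by simp)
  have hjc : Continuous (fun z => -jac (fderiv ℝ φ z)) := (continuous_jac.comp hfd).neg
  set G : ℝ → ℝ := fun t => ∫ θ in (0 : ℝ)..(2 * Real.pi),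
    t * -jac (fderiv ℝ φ (x + t * exp (θ * I))) with hG
  have hGc : Continuous G := by
    apply intervalIntegral.continuous_parametric_intervalIntegral_of_continuous'
    have h1 : Continuous (fun p : ℝ × ℝ => x + p.1 * exp (p.2 * I)) := by fun_prop
    have h2 := (hjc.comp h1)
    have h3 : Continuous (fun p : ℝ × ℝ => p.1 * -jac (fderiv ℝ φ (x + p.1 * exp (p.2 * I)))) :=
      continuous_fst.mul h2
    simpa only [Function.uncurry_def] using h3
  have hJG : ∀ s, 0 ≤ s → (∫ z in ball x s, -jac (fderiv ℝ φ z)) = ∫ t in (0 : ℝ)..s, G t := by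
    intro s hs
    have := polar_annulus (r := 0) le_rfl hs x (F := fun z => -jac (fderiv ℝ φ z))
      hjc.continuousOn
    rw [ball_zero, sdiff_empty] at this
    exact this
  have hR0 : 0 ≤ R := hr.le.trans hrR
  have hEc : ContinuousOn E (Icc r R) := fun s hs => (hE s hs).continuousAt.continuousWithinAt
  have hFTC : (∫ s in r..R, (E' s * (∫ t in (0 : ℝ)..s, G t) + E s * G s)) =
      E R * (∫ t in (0 : ℝ)..R, G t) - E r * ∫ t in (0 : ℝ)..r, G t := by
    apply intervalIntegral.integral_deriv_mul_eq_sub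
    · intro s hs
      rw [uIcc_of_le hrR] at hs
      exact hE s hs
    · intro s _
      exact intervalIntegral.integral_hasDerivAt_right (hGc.intervalIntegrable _ _)
        (hGc.stronglyMeasurableAtFilter _ _) hGc.continuousAt
    · apply ContinuousOn.intervalIntegrable
      rwa [uIcc_of_le hrR]
    · exact hGc.intervalIntegrable _ _
  have hprim : Continuous (fun s => ∫ t in (0 : ℝ)..s, G t) :=
    intervalIntegral.continuous_primitive (fun a b => hGc.intervalIntegrable a b) 0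
  have hann : (∫ z in ball x R \ ball x r, E ‖z - x‖ * -jac (fderiv ℝ φ z)) =
      ∫ s in r..R, E s * G s := by
    have hcont : ContinuousOn (fun z => E ‖z - x‖ * -jac (fderiv ℝ φ z))
        (closedBall x R \ ball x r) := by
      have hn : Continuous (fun z : ℂ => ‖z - x‖) := by fun_prop
      exact ContinuousOn.mul (hEc.comp hn.continuousOn (mapsTo_annulus x r R)) hjc.continuousOn
    rw [polar_annulus hr.le hrR x hcont]
    apply intervalIntegral.integral_congr
    intro s hs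
    rw [uIcc_of_le hrR] at hs
    have hs0 : 0 ≤ s := hr.le.trans hs.1
    simp only [hG]
    rw [← intervalIntegral.integral_const_mul]
    apply intervalIntegral.integral_congr
    intro θ _
    simp only []
    rw [norm_ray x hs0]
    ring
  rw [hann, hJG R hR0, hJG r hr.le, ← hFTC]
  have hcg : (∫ s in r..R, E' s * ∫ z in ball x s, -jac (fderiv ℝ φ z)) =
      ∫ s in r..R, E' s * ∫ t in (0 : ℝ)..s, G t := by
    apply intervalIntegral.integral_congr
    intro s hs
    rw [uIcc_of_le hrR] at hs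
    simp only []
    rw [hJG s (hr.le.trans hs.1)]
  rw [hcg, intervalIntegral.integral_add]
  · apply ContinuousOn.intervalIntegrable
    rw [uIcc_of_le hrR]
    exact hE'.mul hprim.continuousOn
  · apply ContinuousOn.intervalIntegrable
    rw [uIcc_of_le hrR]
    exact hEc.mul hGc.continuousOn

/-- Energy identity for Sobolev maps. -/
theorem energy_identity {U : Set ℂ} {x : ℂ} {r R : ℝ} (hr : 0 < r)
    (hrR : r ≤ R) (hR : closedBall x R ⊆ U) {g : ℂ → ℂ} {D : ℂ → ℂ →L[ℝ] ℂ} (h : Sob 2 U g D)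
    {E E' : ℝ → ℝ} (hE : ∀ s ∈ Icc r R, HasDerivAt E (E' s) s)
    (hE' : ContinuousOn E' (Icc r R)) :
    E R * (∫ z in ball x R, -jac (D z)) - E r * (∫ z in ball x r, -jac (D z)) =
      (∫ s in r..R, E' s * ∫ z in ball x s, -jac (D z)) +
      (∫ z in ball x R \ ball x r, E ‖z - x‖ * -jac (D z)) ∧
    IntegrableOn (fun z => E ‖z - x‖ * -jac (D z)) (ball x R \ ball x r) := by
  obtain ⟨hDm, hjac, φ, hφ, hint, hlim, hJ⟩ := exists_approx_ball hR h
  have hEc : ContinuousOn E (Icc r R) := fun s hs => (hE s hs).continuousAt.continuousWithinAt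
  obtain ⟨C, hC⟩ := isCompact_Icc.exists_bound_of_continuousOn hEc
  have hC0 : 0 ≤ C := (norm_nonneg _).trans (hC r (left_mem_Icc.2 hrR))
  set A : Set ℂ := ball x R \ ball x r with hA
  have hAm : MeasurableSet A := measurableSet_annulus x r R
  have hAK : A ⊆ closedBall x R := annulus_subset x r R
  have hclose : ∀ n, ∀ z ∈ A,
      |E ‖z - x‖ * -jac (fderiv ℝ (φ n) z) - E ‖z - x‖ * -jac (D z)| ≤
      C * ed (fderiv ℝ (φ n) z) (D z) := by
    intro n z hz
    have hz' := mem_Icc_of_annulus hz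
    rw [← mul_sub, abs_mul]
    have h1 := abs_jac_sub_le (fderiv ℝ (φ n) z) (D z)
    rw [← abs_neg, neg_sub] at h1
    have h2 : |E ‖z - x‖| ≤ C := hC _ hz'
    have h3 : |-jac (fderiv ℝ (φ n) z) - -jac (D z)| ≤ ed (fderiv ℝ (φ n) z) (D z) := by
      rwa [neg_sub_neg]
    exact mul_le_mul h2 h3 (abs_nonneg _) hC0
  have hsm : ∀ n, IntegrableOn (fun z => E ‖z - x‖ * -jac (fderiv ℝ (φ n) z)) A := by
    intro n
    apply integrableOn_annulus
    have hn : Continuous (fun z : ℂ => ‖z - x‖) := by fun_prop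
    have hfd : Continuous (fderiv ℝ (φ n)) := (hφ n).continuous_fderiv (by simp)
    have hjc : Continuous (fun z => -jac (fderiv ℝ (φ n) z)) := (continuous_jac.comp hfd).neg
    exact ContinuousOn.mul (hEc.comp hn.continuousOn (mapsTo_annulus x r R)) hjc.continuousOn
  have hqm : AEStronglyMeasurable (fun z => E ‖z - x‖ * -jac (D z)) (volume.restrict A) :=
    (aesm_comp_norm hEc).mul (hjac.1.mono_measure (Measure.restrict_mono hAK le_rfl))
  have hqi : IntegrableOn (fun z => E ‖z - x‖ * -jac (D z)) A :=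
    integrableOn_of_close hAm (hsm 0) hqm ((hint 0).mono_set hAK) (hclose 0)
  refine ⟨?_, hqi⟩
  have hRt : Tendsto (fun n => ∫ z in A, E ‖z - x‖ * -jac (fderiv ℝ (φ n) z)) atTop
      (𝓝 (∫ z in A, E ‖z - x‖ * -jac (D z))) := by
    rw [tendsto_iff_norm_sub_tendsto_zero]
    have hz : Tendsto (fun n => C *
        ∫ z in closedBall x R, ed (fderiv ℝ (φ n) z) (D z)) atTop (𝓝 0) := by
      have := hlim.const_mul C
      simpa using this
    refine squeeze_zero (fun n => norm_nonneg _) (fun n => ?_) hz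
    exact abs_integral_sub_le hAK hAm (hsm n) hqi (hint n) (fun z => ed_nonneg _ _)
      hC0 (hclose n)
  have hJt : ∀ s ≤ R, Tendsto (fun n => ∫ z in ball x s, -jac (fderiv ℝ (φ n) z)) atTop
      (𝓝 (∫ z in ball x s, -jac (D z))) := by
    intro s hs
    rw [tendsto_iff_norm_sub_tendsto_zero]
    exact squeeze_zero (fun n => norm_nonneg _) (fun n => hJ n s hs) hlim
  have h1 := ((hJt R le_rfl).const_mul (E R)).sub ((hJt r hrR).const_mul (E r))
  have h2 := (tendsto_int_kJ hr.le hrR hφ hlim hJ hE').add hRt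
  refine tendsto_nhds_unique h1 ?_
  refine h2.congr fun n => ?_
  exact (energy_identity_smooth (hφ n) x hr hrR hE hE').symm

theorem qform_nonneg {m : ℝ} (hm : 1 ≤ m) (D : ℂ →L[ℝ] ℂ) (r : ℂ) : 0 ≤ qform m D r := by
  have hc : 0 ≤ (m - 1) / (3 * m ^ 2) := div_nonneg (by linarith) (by positivity)
  unfold qform
  positivity

/-- B4. Energy decay. -/
theorem energy_decay {m : ℝ} (hm : 1 ≤ m) {U : Set ℂ} {x : ℂ} {r R : ℝ} (hr : 0 < r)
    (hrR : r ≤ R) (hR : closedBall x R ⊆ U) {g : ℂ → ℂ} {D : ℂ → ℂ →L[ℝ] ℂ} (h : Sob 2 U g D)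
    {E E' : ℝ → ℝ} (hE : ∀ s ∈ Icc r R, HasDerivAt E (E' s) s) (hE' : ContinuousOn E' (Icc r R))
    (hE'0 : ∀ s ∈ Icc r R, E' s ≤ 0)
    (hq : ∀ᵐ z ∂volume.restrict (ball x R), r ≤ ‖z - x‖ →
      -E' ‖z - x‖ * ‖z - x‖ * qform m (D z) ((z - x) / (‖z - x‖ : ℝ)) ≤
        (2 / m) * (1 + kap m) * (E ‖z - x‖ * -jac (D z))) :
    E r * ∫ z in ball x r, -jac (D z) ≤ E R * ∫ z in ball x R, -jac (D z) := by
  obtain ⟨hid, hint⟩ := energy_identity hr hrR hR h hE hE'
  have h3 := integrated_ineq hm hr hrR hR h (k := fun s => -E' s) hE'.neg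
    (fun s hs => by have := hE'0 s hs; linarith)
  have hc : 0 < (2 / m) * (1 + kap m) := by
    have : 0 ≤ kap m := by
      rw [kap]
      exact div_nonneg (by linarith) (by linarith)
    positivity
  set A : Set ℂ := ball x R \ ball x r with hA
  have hmono : (∫ z in A, -E' ‖z - x‖ * ‖z - x‖ * qform m (D z) ((z - x) / (‖z - x‖ : ℝ))) ≤
      ∫ z in A, (2 / m) * (1 + kap m) * (E ‖z - x‖ * -jac (D z)) := by
    have hAm : MeasurableSet A := measurableSet_annulus x r R
    apply integral_mono_of_nonneg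
    · rw [EventuallyLE, ae_restrict_iff' hAm]
      refine ae_of_all _ fun z hz => ?_
      have h1 := hE'0 _ (mem_Icc_of_annulus hz)
      exact mul_nonneg (mul_nonneg (by linarith) (norm_nonneg _)) (qform_nonneg hm _ _)
    · exact hint.const_mul _
    · rw [EventuallyLE, ae_restrict_iff' hAm]
      rw [ae_restrict_iff' measurableSet_ball] at hq
      filter_upwards [hq] with z hz hzA
      exact hz hzA.1 (mem_Icc_of_annulus hzA).1
  rw [integral_const_mul] at hmono
  have h4 := h3.trans hmono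
  have h5 : (∫ s in r..R, -E' s * ∫ z in ball x s, -jac (D z)) =
      - ∫ s in r..R, E' s * ∫ z in ball x s, -jac (D z) := by
    rw [← intervalIntegral.integral_neg]
    apply intervalIntegral.integral_congr
    intro s _
    simp only [neg_mul]
  rw [h5] at h4
  have h6 := le_of_mul_le_mul_left h4 hc
  linarith

end Pool.Agent.H41.PH
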