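import Pool.Agent.H41.PHCircle
import Pool.Agent.H41.PHArea
import Pool.Agent.H41.PHApprox

/-! # Integrated circle inequality and energy decay (jobs B3, B4 for MP_6c6114_an) -/

open MeasureTheory Set Metric Filter Topology ContDiff Complex
open scoped ENNReal ComplexConjugate

namespace Pool.Agent.H41.PH

open Pool.Agent.H52.PH

set_option maxHeartbeats 400000

theorem hasDerivAt_expI (θ : ℝ) : HasDerivAt (fun θ : ℝ => exp (θ * I)) (I * exp (θ * I)) θ := by
  have := ((hasDerivAt_ofReal' θ).mul_const I).cexp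
  simpa [mul_comm] using this

theorem deriv_ray {φ : ℂ → ℂ} (hφ : ContDiff ℝ ∞ φ) (x : ℂ) (s θ : ℝ) :
    deriv (fun θ : ℝ => φ (x + s * exp (θ * I))) θ =
      fderiv ℝ φ (x + s * exp (θ * I)) (s * I * exp (θ * I)) := by
  have h1 : HasDerivAt (fun θ : ℝ => x + s * exp (θ * I)) (s * I * exp (θ * I)) θ := by
    have := ((hasDerivAt_expI θ).const_mul (s : ℂ)).const_add x
    simpa [mul_assoc] using this
  exact (((hφ.differentiable (by simp)) (x + s * exp (θ * I))).hasFDerivAt.comp_hasDerivAt θ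
    h1).deriv

theorem contDiff_ray (x : ℂ) (s : ℝ) : ContDiff ℝ ∞ (fun θ : ℝ => x + s * exp (θ * I)) := by
  have h1 : ContDiff ℝ ∞ (fun θ : ℝ => (θ : ℂ)) := Complex.ofRealCLM.contDiff
  exact contDiff_const.add (contDiff_const.mul (h1.mul contDiff_const).cexp)

theorem qform_smul (m : ℝ) (D : ℂ →L[ℝ] ℂ) (s : ℝ) (e : ℂ) :
    (1 / m) * ‖D (s * I * e)‖ ^ 2 +
      (m - 1) / (3 * m ^ 2) * ((conj (D (s * I * e)) * e).re) ^ 2 = s ^ 2 * qform m D e := by
  have h1 : D (s * I * e) = s • D (I * e) := by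
    rw [← map_smul]
    congr 1
    simp [mul_assoc]
  rw [h1, qform, norm_smul]
  simp only [mul_re, real_smul, conj_re, conj_im, ofReal_re, ofReal_im, mul_im, Real.norm_eq_abs,
    mul_pow, sq_abs]
  ring

theorem smooth_circle {m : ℝ} (hm : 1 ≤ m) {φ : ℂ → ℂ} (hφ : ContDiff ℝ ∞ φ) (x : ℂ) {s : ℝ}
    (hs : 0 ≤ s) :
    (2 / m) * (1 + kap m) * ∫ z in ball x s, -jac (fderiv ℝ φ z) ≤
      s ^ 2 * ∫ θ in (0 : ℝ)..(2 * Real.pi),
        qform m (fderiv ℝ φ (x + s * exp (θ * I))) (exp (θ * I)) := by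
  have h1 := circle_ineq hm (g := fun θ : ℝ => φ (x + s * exp (θ * I)))
    (hφ.comp (contDiff_ray x s)) (by
      intro θ
      simp only []
      congr 3
      have : ((θ + 2 * Real.pi : ℝ) : ℂ) * I = θ * I + 2 * Real.pi * I := by push_cast; ring
      rw [this, Complex.exp_add, Complex.exp_two_pi_mul_I, mul_one])
  simp only [deriv_ray hφ, qform_smul] at h1
  rw [intervalIntegral.integral_const_mul] at h1
  rw [integral_neg, integral_jac_ball hφ x hs]
  convert h1 using 2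
  ring

theorem continuous_circle_jac {φ : ℂ → ℂ} (hφ : ContDiff ℝ ∞ φ) (x : ℂ) :
    ContinuousOn (fun s => ∫ z in ball x s, -jac (fderiv ℝ φ z)) (Ici 0) := by
  have hc : Continuous (fun s : ℝ => (1 / 2) * ∫ θ in (0 : ℝ)..(2 * Real.pi),
        (conj (φ (x + s * exp (θ * I))) *
          fderiv ℝ φ (x + s * exp (θ * I)) (s * I * exp (θ * I))).im) := by
    apply continuous_const.mul
    apply intervalIntegral.continuous_parametric_intervalIntegral_of_continuous'
    have h1 : Continuous (fderiv ℝ φ) := hφ.continuous_fderiv (by simp)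
    have h2 : Continuous φ := hφ.continuous
    apply Complex.continuous_im.comp
    fun_prop
  refine (hc.neg.continuousOn).congr ?_
  intro s hs
  simp only [Pi.neg_apply]
  rw [integral_neg, integral_jac_ball hφ x hs]

theorem continuous_qform (m : ℝ) :
    Continuous (fun p : (ℂ →L[ℝ] ℂ) × ℂ => qform m p.1 p.2) := by
  unfold qform
  have h1 : Continuous (fun p : (ℂ →L[ℝ] ℂ) × ℂ => p.1 (I * p.2)) := by fun_prop
  fun_prop

theorem mapsTo_annulus (x : ℂ) (r R : ℝ) :
    MapsTo (fun z => ‖z - x‖) (closedBall x R \ ball x r) (Icc r R) := by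
  rintro z ⟨h1, h2⟩
  rw [mem_closedBall, dist_eq_norm] at h1
  rw [mem_ball, dist_eq_norm, not_lt] at h2
  exact ⟨h2, h1⟩

theorem continuousOn_dir (x : ℂ) {r R : ℝ} (hr : 0 < r) :
    ContinuousOn (fun z : ℂ => (z - x) / (‖z - x‖ : ℝ)) (closedBall x R \ ball x r) := by
  apply ContinuousOn.div
  · fun_prop
  · fun_prop
  · intro z hz
    have := (mapsTo_annulus x r R hz).1
    simp only [] at this
    exact_mod_cast (lt_of_lt_of_le hr this).ne'

theorem continuousOn_qdir_a {φ : ℂ → ℂ} (hφ : ContDiff ℝ ∞ φ) (x : ℂ) {r R : ℝ}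
    (hr : 0 < r) :
    ContinuousOn (fun z => ((fderiv ℝ φ z, (z - x) / (‖z - x‖ : ℝ)) : (ℂ →L[ℝ] ℂ) × ℂ))
    (closedBall x R \ ball x r) := by
  have hfd : Continuous (fderiv ℝ φ) := hφ.continuous_fderiv (by simp)
  exact ContinuousOn.prodMk hfd.continuousOn (continuousOn_dir x hr)

theorem continuousOn_qdir {m : ℝ} {φ : ℂ → ℂ} (hφ : ContDiff ℝ ∞ φ) (x : ℂ) {r R : ℝ}
    (hr : 0 < r) :
    ContinuousOn (fun z => qform m (fderiv ℝ φ z) ((z - x) / (‖z - x‖ : ℝ)))
      (closedBall x R \ ball x r) := by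
  have h1 := continuousOn_qdir_a (R := R) hφ x hr
  have h2 := (continuous_qform m).comp_continuousOn h1
  simpa only [Function.comp_def] using h2

theorem continuousOn_k (x : ℂ) {r R : ℝ} {k : ℝ → ℝ} (hk : ContinuousOn k (Icc r R)) :
    ContinuousOn (fun z => k ‖z - x‖ * ‖z - x‖) (closedBall x R \ ball x r) := by
  have hn : Continuous (fun z : ℂ => ‖z - x‖) := by fun_prop
  exact ContinuousOn.mul (hk.comp hn.continuousOn (mapsTo_annulus x r R)) hn.continuousOn

theorem continuousOn_annulus_fun {m : ℝ} {φ : ℂ → ℂ} (hφ : ContDiff ℝ ∞ φ) (x : ℂ) {r R : ℝ}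
    (hr : 0 < r) {k : ℝ → ℝ} (hk : ContinuousOn k (Icc r R)) :
    ContinuousOn (fun z => k ‖z - x‖ * ‖z - x‖ * qform m (fderiv ℝ φ z) ((z - x) / (‖z - x‖ : ℝ)))
      (closedBall x R \ ball x r) :=
  ContinuousOn.mul (continuousOn_k x hk) (continuousOn_qdir hφ x hr)

theorem smooth_integrated {m : ℝ} (hm : 1 ≤ m) {φ : ℂ → ℂ} (hφ : ContDiff ℝ ∞ φ) (x : ℂ) {r R : ℝ}
    (hr : 0 < r) (hrR : r ≤ R) {k : ℝ → ℝ} (hk : ContinuousOn k (Icc r R))
    (hk0 : ∀ s ∈ Icc r R, 0 ≤ k s) :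
    (2 / m) * (1 + kap m) * ∫ s in r..R, k s * ∫ z in ball x s, -jac (fderiv ℝ φ z) ≤
      ∫ z in ball x R \ ball x r,
        k ‖z - x‖ * ‖z - x‖ * qform m (fderiv ℝ φ z) ((z - x) / (‖z - x‖ : ℝ)) := by
  rw [polar_annulus hr.le hrR x (continuousOn_annulus_fun hφ x hr hk)]
  have hsub : uIcc r R ⊆ Icc r R := by rw [uIcc_of_le hrR]
  have hsub0 : Icc r R ⊆ Ici 0 := fun s hs => hr.le.trans hs.1
  have e1 : ∀ s ∈ Icc r R, (∫ θ in (0 : ℝ)..(2 * Real.pi), s * (k ‖x + s * exp (θ * I) - x‖ *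
      ‖x + s * exp (θ * I) - x‖ * qform m (fderiv ℝ φ (x + s * exp (θ * I)))
        ((x + s * exp (θ * I) - x) / (‖x + s * exp (θ * I) - x‖ : ℝ)))) =
      k s * (s ^ 2 * ∫ θ in (0 : ℝ)..(2 * Real.pi),
        qform m (fderiv ℝ φ (x + s * exp (θ * I))) (exp (θ * I))) := by
    intro s hs
    have hs0 : 0 < s := lt_of_lt_of_le hr hs.1
    rw [← intervalIntegral.integral_const_mul, ← intervalIntegral.integral_const_mul]
    apply intervalIntegral.integral_congr
    intro θ _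
    simp only []
    rw [norm_ray x hs0.le]
    have : (x + s * exp (θ * I) - x) / (s : ℂ) = exp (θ * I) := by
      rw [add_sub_cancel_left, mul_div_cancel_left₀]
      exact_mod_cast hs0.ne'
    rw [this]
    ring
  rw [← intervalIntegral.integral_const_mul]
  have hq : Continuous (fun s : ℝ => ∫ θ in (0 : ℝ)..(2 * Real.pi),
        qform m (fderiv ℝ φ (x + s * exp (θ * I))) (exp (θ * I))) := by
    apply intervalIntegral.continuous_parametric_intervalIntegral_of_continuous'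
    have hfd : Continuous (fderiv ℝ φ) := hφ.continuous_fderiv (by simp)
    have h1 : Continuous (fun p : ℝ × ℝ =>
        ((fderiv ℝ φ (x + p.1 * exp (p.2 * I)), exp (p.2 * I)) : (ℂ →L[ℝ] ℂ) × ℂ)) := by fun_prop
    simpa only [Function.comp_def, Function.uncurry_def] using (continuous_qform m).comp h1
  have hcong : (∫ s in r..R, ∫ θ in (0 : ℝ)..(2 * Real.pi), s * (k ‖x + s * exp (θ * I) - x‖ *
      ‖x + s * exp (θ * I) - x‖ * qform m (fderiv ℝ φ (x + s * exp (θ * I)))
        ((x + s * exp (θ * I) - x) / (‖x + s * exp (θ * I) - x‖ : ℝ)))) =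
      ∫ s in r..R, k s * (s ^ 2 * ∫ θ in (0 : ℝ)..(2 * Real.pi),
        qform m (fderiv ℝ φ (x + s * exp (θ * I))) (exp (θ * I))) :=
    intervalIntegral.integral_congr (fun s hs => e1 s (hsub hs))
  rw [hcong]
  apply intervalIntegral.integral_mono_on hrR
  · apply ContinuousOn.intervalIntegrable
    rw [uIcc_of_le hrR]
    exact continuousOn_const.mul (hk.mul ((continuous_circle_jac hφ x).mono hsub0))
  · apply ContinuousOn.intervalIntegrable
    rw [uIcc_of_le hrR]
    exact hk.mul ((continuous_pow 2).mul hq).continuousOn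
  · intro s hs
    have h1 := smooth_circle hm hφ x (hr.le.trans hs.1)
    have h2 := mul_le_mul_of_nonneg_left h1 (hk0 s hs)
    linarith

end Pool.Agent.H41.PH
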