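import Pool.Agent.H52.PH.Defs

/-! # Polar coordinates and the area formula on discs (job B2 for MP_6c6114_an) -/

open MeasureTheory Set Metric Filter Topology ContDiff Complex
open scoped ENNReal ComplexConjugate

namespace Pool.Agent.H41.PH

open Pool.Agent.H52.PH

theorem norm_ray (x : ℂ) {s : ℝ} (hs : 0 ≤ s) (θ : ℝ) : ‖x + s * exp (θ * I) - x‖ = s := by
  rw [add_sub_cancel_left, norm_mul, Complex.norm_exp_ofReal_mul_I, mul_one, norm_real,
    Real.norm_of_nonneg hs]

theorem mem_annulus {x : ℂ} {r R s θ : ℝ} (hs : 0 ≤ s) :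
    (x + s * exp (θ * I)) ∈ ball x R \ ball x r ↔ s ∈ Ico r R := by
  simp only [Set.mem_sdiff, mem_ball, dist_eq_norm, norm_ray x hs, not_lt, mem_Ico]
  tauto

theorem continuousOn_polar {r R : ℝ} (hr : 0 ≤ r) (x : ℂ) {F : ℂ → ℝ}
    (hF : ContinuousOn F (closedBall x R \ ball x r)) :
    ContinuousOn (fun p : ℝ × ℝ => p.1 * F (x + p.1 * exp (p.2 * I))) (Icc r R ×ˢ univ) := by
  apply ContinuousOn.mul continuousOn_fst
  apply hF.comp
  · fun_prop
  · rintro ⟨s, θ⟩ ⟨hs, -⟩
    simp only [Set.mem_sdiff, mem_closedBall, mem_ball, dist_eq_norm]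
    rw [norm_ray x (hr.trans hs.1)]
    exact ⟨hs.2, not_lt.2 hs.1⟩

theorem polar_annulus {r R : ℝ} (hr : 0 ≤ r) (hrR : r ≤ R) (x : ℂ) {F : ℂ → ℝ}
    (hF : ContinuousOn F (closedBall x R \ ball x r)) :
    ∫ z in ball x R \ ball x r, F z =
      ∫ s in r..R, ∫ θ in (0:ℝ)..(2 * Real.pi), s * F (x + s * exp (θ * I)) := by
  set A : Set ℂ := ball x R \ ball x r with hA
  have hAm : MeasurableSet A := measurableSet_ball.diff measurableSet_ball
  set G : ℝ × ℝ → ℝ := fun p => p.1 * F (x + p.1 * exp (p.2 * I)) with hG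
  have hGc := continuousOn_polar hr x hF
  rw [← integral_indicator hAm, ← integral_add_left_eq_self _ x,
    ← Complex.integral_comp_polarCoord_symm]
  have h1 : ∫ p in polarCoord.target, p.1 • A.indicator F (x + Complex.polarCoord.symm p) =
      ∫ p in polarCoord.target, (Ico r R ×ˢ (univ : Set ℝ)).indicator G p := by
    apply setIntegral_congr_fun
    · exact polarCoord.open_target.measurableSet
    · rintro ⟨s, θ⟩ hp
      rw [polarCoord_target] at hp
      have hs : 0 ≤ s := le_of_lt hp.1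
      simp only [Complex.polarCoord_symm_apply]
      have he : (x + s * (Real.cos θ + Real.sin θ * I) : ℂ) = x + s * exp (θ * I) := by
        rw [Complex.exp_mul_I, ofReal_cos, ofReal_sin]
      rw [he]
      by_cases hm : s ∈ Ico r R
      · rw [indicator_of_mem ((mem_annulus hs).2 hm), indicator_of_mem (mk_mem_prod hm (mem_univ _))]
        simp [hG]
      · rw [indicator_of_notMem (fun h => hm ((mem_annulus hs).1 h)),
          indicator_of_notMem (fun h => hm h.1)]
        simp
  rw [h1, setIntegral_indicator (measurableSet_Ico.prod MeasurableSet.univ), polarCoord_target,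
    prod_inter_prod, inter_univ]
  have hint : IntegrableOn G ((Ioi 0 ∩ Ico r R) ×ˢ Ioo (-Real.pi) Real.pi) := by
    have : IntegrableOn G (Icc r R ×ˢ Icc (-Real.pi) Real.pi) :=
      (hGc.mono (prod_mono_right (subset_univ _))).integrableOn_compact
        (isCompact_Icc.prod isCompact_Icc)
    exact this.mono_set (prod_mono (inter_subset_right.trans Ico_subset_Icc_self)
      Ioo_subset_Icc_self)
  rw [Measure.volume_eq_prod, setIntegral_prod _ (by rwa [← Measure.volume_eq_prod])]
  have hset : (Ioi 0 ∩ Ico r R : Set ℝ) =ᵐ[volume] Ioc r R := by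
    have h2 : Ioo r R ⊆ Ioi 0 ∩ Ico r R := fun t ht =>
      ⟨lt_of_le_of_lt hr ht.1, ht.1.le, ht.2⟩
    have h3 : (Ioi 0 ∩ Ico r R : Set ℝ) ⊆ Icc r R := inter_subset_right.trans Ico_subset_Icc_self
    have h4 : (Ioo r R : Set ℝ) =ᵐ[volume] Icc r R := Ioo_ae_eq_Icc
    have h5 : (Ioi 0 ∩ Ico r R : Set ℝ) =ᵐ[volume] Icc r R :=
      (h3.eventuallyLE).antisymm (h4.symm.le.trans h2.eventuallyLE)
    exact h5.trans Ioc_ae_eq_Icc.symm
  rw [setIntegral_congr_set hset, ← intervalIntegral.integral_of_le hrR]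
  apply intervalIntegral.integral_congr
  intro s _
  simp only [hG]
  rw [← integral_Ioc_eq_integral_Ioo, ← intervalIntegral.integral_of_le (by linarith [Real.pi_pos])]
  have hper : Function.Periodic (fun θ : ℝ => s * F (x + s * exp (θ * I))) (2 * Real.pi) := by
    intro θ
    simp only []
    congr 4
    have : ((θ + 2 * Real.pi : ℝ) : ℂ) * I = θ * I + 2 * Real.pi * I := by push_cast; ring
    rw [this, Complex.exp_add, Complex.exp_two_pi_mul_I, mul_one]
  have := hper.intervalIntegral_add_eq (-Real.pi) 0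
  rw [show -Real.pi + 2 * Real.pi = Real.pi by ring, zero_add] at this
  exact this

end Pool.Agent.H41.PH
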